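import Pool.Agent.Lib.MP_318f17_gt.Basic

/-!
An abstract covering scheme on the tree of finite sequences.
-/

set_option autoImplicit false

namespace Pool.Agent.Lib.MP_318f17_gt

open Filter Topology Set

section AS

variable {H : Type*} (ν : H → List ℕ) (pr : ℕ → H)

/-- The nodes covered by a given node. -/
inductive Cov : List ℕ → List ℕ → Prop
  | ext {t0 t : List ℕ} : t0 <:+ t → Cov t0 t
  | off {t0 t v : List ℕ} : (ν (pr t0.length)).length < t0.length → Cov (ν (pr t0.length)) t0 →
      Cov (ν (pr t0.length)) v → enc v ≤ t0.length → ¬ v <:+ t0 → v <:+ t → Cov t0 t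

open Classical in
/-- The holder below which the node is placed. -/
noncomputable def tgt (t0 : List ℕ) : Option H :=
  if (ν (pr t0.length)).length < t0.length ∧ Cov ν pr (ν (pr t0.length)) t0
  then some (pr t0.length) else none

/-- A branch is covered. -/
def CovB (t0 : List ℕ) (γ : ℕ → ℕ) : Prop := ∀ᶠ j in atTop, Cov ν pr t0 (br γ j)

variable {ν pr}

theorem Cov.mono {t0 t t' : List ℕ} (h : Cov ν pr t0 t) (ht : t <:+ t') : Cov ν pr t0 t' := by
  cases h with
  | ext h => exact .ext (h.trans ht)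
  | off h1 h2 h3 h4 h5 h6 => exact .off h1 h2 h3 h4 h5 (h6.trans ht)

theorem Cov.refl (t : List ℕ) : Cov ν pr t t := .ext (List.suffix_refl t)

theorem tgt_spec {t0 : List ℕ} {h : H} (ht : tgt ν pr t0 = some h) :
    (ν h).length < t0.length ∧ ∀ t, Cov ν pr t0 t → Cov ν pr (ν h) t := by
  unfold tgt at ht
  split_ifs at ht with hc
  obtain rfl := Option.some.inj ht
  refine ⟨hc.1, fun t h => ?_⟩
  cases h with
  | ext h => exact hc.2.mono h
  | off h1 h2 h3 h4 h5 h6 => exact h3.mono h6

theorem cov_finite {s t0 : List ℕ} {a : ℕ} (hs : a :: s <:+ t0) :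
    {n | ∃ t, n :: s <:+ t ∧ Cov ν pr t0 t}.Finite := by
  have hV : {v : List ℕ | enc v ≤ t0.length}.Finite :=
    (finite_Iic t0.length).preimage enc_injective.injOn
  have hfin : ∀ v : List ℕ, {n | n :: s <:+ v}.Finite := by
    intro v
    refine Set.Subsingleton.finite fun n hn m hm => ?_
    exact (List.cons.inj (suffix_eq_of_length hn hm (by simp))).1
  refine ((hfin t0).union (hV.biUnion fun v _ => hfin v)).subset ?_
  rintro n ⟨t, h1, h2⟩
  cases h2 with
  | ext h =>
    left
    exact suffix_of_length_le h1 h (by simpa using hs.length_le)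
  | @off _ _ v _ _ _ h4 h5 h6 =>
    right
    refine mem_biUnion (show v ∈ {v : List ℕ | enc v ≤ t0.length} from h4) ?_
    by_cases hl : (n :: s).length ≤ v.length
    · exact suffix_of_length_le h1 h6 hl
    · exfalso
      apply h5
      have h7 : s <:+ t := (List.suffix_cons _ _).trans h1
      have h8 : v <:+ s := suffix_of_length_le h6 h7 (by simp at hl; omega)
      exact h8.trans ((List.suffix_cons _ _).trans hs)

theorem covB_nil (γ : ℕ → ℕ) : CovB ν pr [] γ :=
  Eventually.of_forall fun _ => .ext List.nil_suffix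

theorem ground (hpr : ∀ h, ∃ᶠ j in atTop, pr j = h) {h : H} {Γ : Set (ℕ → ℕ)} (hΓ : Γ.Finite)
    (hc : ∀ γ' ∈ Γ, CovB ν pr (ν h) γ') {γ : ℕ → ℕ} (hγ : γ ∈ Γ) :
    ∃ᶠ j in atTop, tgt ν pr (br γ j) = some h ∧ ∀ γ' ∈ Γ, CovB ν pr (br γ j) γ' := by
  have key : ∀ γ' ∈ Γ, ∀ᶠ j in atTop, pr j = h → CovB ν pr (br γ j) γ' := by
    intro γ' hγ'
    by_cases he : γ' = γ
    · subst he
      refine Eventually.of_forall fun j _ => ?_
      filter_upwards [eventually_ge_atTop j] with i hi
      exact .ext (br_suffix _ hi)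
    · obtain ⟨i, hi⟩ := Function.ne_iff.1 he
      obtain ⟨l, hl1, hl2⟩ := ((hc γ' hγ').and (eventually_gt_atTop i)).exists
      filter_upwards [hc γ hγ, eventually_gt_atTop (ν h).length,
        eventually_ge_atTop (enc (br γ' l)), eventually_ge_atTop l] with j h1 h2 h3 h4 hj
      filter_upwards [eventually_ge_atTop l] with l' hl'
      refine .off (v := br γ' l) ?_ ?_ ?_ ?_ ?_ (br_suffix _ hl')
      · simpa [hj] using h2
      · simpa [hj] using h1
      · simpa [hj] using hl1
      · simpa using h3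
      · intro hs
        have := suffix_eq_of_length hs (br_suffix γ h4) (by simp)
        exact hi (eq_of_br_eq this hl2)
  have h1 := (eventually_all_finite hΓ).2 key
  refine ((hpr h).and_eventually (h1.and ((hc γ hγ).and
    (eventually_gt_atTop (ν h).length)))).mono ?_
  rintro j ⟨hj, h2, h3, h4⟩
  refine ⟨?_, fun γ' hγ' => h2 γ' hγ' hj⟩
  unfold tgt
  rw [length_br, hj, if_pos ⟨h4, h3⟩]

/-- A chain of nodes, each covering the later ones, generates a finitely branching tree. -/
theorem fb_of_chain {I : Type*} (A : Set I) (len : I → ℕ) (node : I → List ℕ)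
    (h : ∀ p ∈ A, ∀ q ∈ A, len p ≤ len q → Cov ν pr (node p) (node q)) :
    FB {s | ∃ p ∈ A, s <:+ node p} := by
  intro s
  by_cases hne : ∃ p, p ∈ A ∧ ∃ a, a :: s <:+ node p
  · let B := {p | p ∈ A ∧ ∃ a, a :: s <:+ node p}
    obtain ⟨p, ⟨hp, a, ha⟩, hmin⟩ : ∃ p ∈ B, ∀ q ∈ B, len p ≤ len q :=
      ⟨Function.argminOn len B hne, Function.argminOn_mem len B hne,
        fun q hq => Function.argminOn_le len B hq⟩
    refine (cov_finite (ν := ν) (pr := pr) ha).subset ?_
    rintro n ⟨q, hq, hn⟩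
    exact ⟨node q, hn, h p hp q hq (hmin q ⟨hq, n, hn⟩)⟩
  · refine finite_empty.subset ?_
    rintro n ⟨q, hq, hn⟩
    exact hne ⟨q, hq, n, hn⟩

end AS

theorem exists_prop (H : Type*) [Countable H] [Nonempty H] :
    ∃ pr : ℕ → H, ∀ h, ∃ᶠ j in atTop, pr j = h := by
  obtain ⟨f, hf⟩ := exists_surjective_nat H
  refine ⟨fun j => f j.unpair.1, fun h => ?_⟩
  obtain ⟨a, rfl⟩ := hf h
  rw [frequently_atTop]
  intro b
  exact ⟨Nat.pair a b, Nat.right_le_pair a b, by simp⟩

end Pool.Agent.Lib.MP_318f17_gt
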