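import Pool.Agent.Lib.MP_318f17_gt.Chain

/-!
Forward and backward solutions of the chain equations.
-/

set_option autoImplicit false

namespace Pool.Agent.Lib.MP_318f17_gt

open Filter Topology Set

theorem aa_nonneg {n : ℕ} {μ y : ℕ → ℝ} (k e : ℕ) : 0 ≤ aa n μ y (AA n μ y) k e := by
  have h1 : ∀ a b t, 0 ≤ act μ e * ramp a b t := fun a b t =>
    mul_nonneg (ramp_nonneg _ _ _) (ramp_nonneg _ _ _)
  unfold aa
  refine add_nonneg ?_ ?_ <;> split_ifs
  · exact h1 _ _ _
  · exact AA_nonneg e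
  · exact le_rfl
  · exact h1 _ _ _
  · exact le_rfl
  · exact zero_le_one
  · exact le_rfl

theorem aa_start {n : ℕ} {μ y : ℕ → ℝ} {k : ℕ} (h : n ≤ k) : aa n μ y (AA n μ y) k k ≠ 0 := by
  have h1 : ∀ a b t, 0 ≤ act μ k * ramp a b t := fun a b t =>
    mul_nonneg (ramp_nonneg _ _ _) (ramp_nonneg _ _ _)
  have h2 := AA_nonneg (n := n) (μ := μ) (y := y) k
  unfold aa
  rw [if_pos (⟨rfl, h⟩ : k = k ∧ n ≤ k)]
  have := h1 4 5 |y k|
  have := h1 1 2 |y k|
  split_ifs <;> linarith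

theorem of_aa_zero {n : ℕ} {μ y : ℕ → ℝ} {k e : ℕ} (h : aa n μ y (AA n μ y) k e = 0)
    (hA : AA n μ y e ≠ 0) : (deep e = false → row e ≤ k + 1 → |y e| ≤ 1) ∧
      (deep e = true → k ≤ row e) ∧ (deep e = true → row e = k → |y e| ≤ 4) := by
  have ha : act μ e ≠ 0 := fun h' => hA (AA_act h')
  have h1 : ∀ a b t, 0 ≤ act μ e * ramp a b t := fun a b t =>
    mul_nonneg (ramp_nonneg _ _ _) (ramp_nonneg _ _ _)
  have h2 := AA_nonneg (n := n) (μ := μ) (y := y) e
  have h3 : (0 : ℝ) ≤ if e = k ∧ n ≤ k then 1 else 0 := by split_ifs <;> norm_num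
  unfold aa at h
  refine ⟨fun hd hr => ?_, fun hd => ?_, fun hd hr => ?_⟩
  · rw [hd, if_neg (by simp), if_pos hr] at h
    have h4 : act μ e * ramp 1 2 |y e| = 0 := by linarith [h1 1 2 |y e|]
    by_contra hc
    exact (ramp_pos one_lt_two (not_le.1 hc)).ne' ((mul_eq_zero.1 h4).resolve_left ha)
  · by_contra hc
    rw [if_pos hd, if_neg (by omega), if_pos (by omega)] at h
    exact hA (by linarith)
  · rw [if_pos hd, if_pos hr] at h
    have h4 : act μ e * ramp 4 5 |y e| = 0 := by linarith [h1 4 5 |y e|]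
    by_contra hc
    exact (ramp_pos (by norm_num) (not_le.1 hc)).ne' ((mul_eq_zero.1 h4).resolve_left ha)

theorem per_of_aa {n : ℕ} {μ y : ℕ → ℝ} {k e1 : ℕ}
    (h : ∀ e, e1 ≤ e → aa n μ y (AA n μ y) k e = 0) : Per (cm (-1) (AA n μ y) y) k e1 := by
  intro e he u
  have hε : (-1 : ℝ) ^ 2 = 1 := by norm_num
  have h0 := AA_nonneg (n := n) (μ := μ) (y := y) e
  have h1 := AA_le_one (n := n) (μ := μ) (y := y) e
  unfold cm
  by_cases hA : AA n μ y e = 0
  · rw [hA, stp_zero]; exact le_max_left _ _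
  · obtain ⟨a1, a2, a3⟩ := of_aa_zero (h e he) hA
    have t2 := th_pos k
    cases hd : deep e
    · rcases le_or_gt (row e) (k + 1) with hr | hr
      · exact le_max_of_le_left (stp_good hε h0 h1 (a1 hd hr))
      · have t1 := th_anti (show k + 2 ≤ row e from hr)
        rw [th_succ, th_succ] at t1
        exact (stp_out_ord hε h0 h1 hd (by omega) u _).trans (max_le_max le_rfl (by linarith))
    · rcases (a2 hd).eq_or_lt with hr | hr
      · rw [hr]; exact stp_keep hε h0 h1 hd u (a3 hd hr.symm)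
      · have t1 := th_anti (show k + 1 ≤ row e from hr)
        rw [th_succ] at t1
        exact (stp_out_deep hε h0 h1 hd u _).trans (max_le_max le_rfl (by linarith))

theorem exists_deep {n : ℕ} {μ y : ℕ → ℝ} (h1 : V1 μ y) (h2 : V2 μ) {k : ℕ} (hk : n ≤ k) :
    ∃ e, k ≤ e ∧ deep e = true ∧ row e = k ∧ AA n μ y e = 1 ∧ |y e| ≤ 4 ∧
      Per (cm (-1) (AA n μ y) y) k (e + 1) := by
  classical
  have hq : ∀ j, ∃ e1, Qt μ y j e1 := fun j => (h1.gd (j + 1)).imp fun _ hg => hg.qt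
  obtain ⟨e1, he1⟩ := eventually_atTop.1 (close_ev (n := n) h2 hq k).1
  have hke : k ≤ e1 := by
    by_contra hc
    exact aa_start hk (he1 k (by omega))
  obtain ⟨e', hk', ha, hz⟩ : ∃ e', k ≤ e' ∧ aa n μ y (AA n μ y) k e' ≠ 0 ∧
      ∀ e, e' < e → aa n μ y (AA n μ y) k e = 0 := by
    refine ⟨Nat.findGreatest (fun e => aa n μ y (AA n μ y) k e ≠ 0) e1,
      Nat.le_findGreatest hke (aa_start hk), Nat.findGreatest_spec
        (P := fun e => aa n μ y (AA n μ y) k e ≠ 0) hke (aa_start hk), fun e he => ?_⟩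
    rcases le_or_gt e e1 with h | h
    · exact not_not.1 (Nat.findGreatest_is_greatest he h)
    · exact he1 e h.le
  have ha' : 0 < aa n μ y (AA n μ y) k e' := lt_of_le_of_ne (aa_nonneg k e') ha.symm
  have hex : ∃ e, e' < e ∧ ev μ k (aa n μ y (AA n μ y) k e') e' e ≠ 0 := by
    obtain ⟨e, h3, h4⟩ := exists_ev_one h2 k ha' e'
    exact ⟨e, h3, by rw [h4]; exact one_ne_zero⟩
  obtain ⟨h3, h4⟩ := Nat.find_spec hex
  have h5 : ∀ i, i < Nat.find hex → e' < i → ev μ k (aa n μ y (AA n μ y) k e') e' i = 0 :=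
    fun i hi hi' => not_not.1 fun h => Nat.find_min hex hi ⟨hi', h⟩
  generalize Nat.find hex = e at h3 h4 h5
  have h6 : deep e = true ∧ row e = k := by
    by_contra hc
    exact h4 (if_neg hc)
  rw [ev, if_pos h6] at h4
  have h7 := lt_of_ramp_ne (by norm_num) (left_ne_zero_of_mul h4)
  have h8 := lt_of_ramp_ne one_lt_two (right_ne_zero_of_mul h4)
  have hA : AA n μ y e = 1 := by
    rw [AA_eq, PhiA, act_one h7.le, if_pos h6.1, one_mul, h6.2]
    refine ramp_of_ge zero_lt_one (le_trans ?_ (Finset.single_le_sum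
      (f := fun i => op μ k (aa n μ y (AA n μ y) k i) i e)
      (fun i _ => op_nonneg _ _ _ _ _) (Finset.mem_range.2 h3)))
    rw [op, ramp_of_ge zero_lt_one h8.le, one_mul, Finset.prod_eq_one]
    intro i hi
    rw [Finset.mem_Ioo] at hi
    rw [h5 i hi.2 hi.1, sub_zero]
  refine ⟨e, by omega, h6.1, h6.2, hA, ?_, per_of_aa fun i hi => hz i (by omega)⟩
  exact (of_aa_zero (hz e h3) (by rw [hA]; exact one_ne_zero)).2.2 h6.1 h6.2

theorem key_contract {n : ℕ} {μ y : ℕ → ℝ} (h1 : V1 μ y) (h2 : V2 μ) (e0 : ℕ) {η : ℝ}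
    (hη : 0 < η) : ∃ p0, e0 ≤ p0 ∧ ∀ p p', p0 ≤ p → p0 ≤ p' → ∀ u u',
      BSol (cm (-1) (AA n μ y) y) u e0 p → BSol (cm (-1) (AA n μ y) y) u' e0 p' →
        |u e0 - u' e0| ≤ η := by
  have hε : (-1 : ℝ) ^ 2 = 1 := by norm_num
  obtain ⟨k0, hk0⟩ := exists_pow_lt_of_lt_one hη (show (1 / 2 : ℝ) < 1 by norm_num)
  obtain ⟨e, a1, a2, a3, a4, a5, a6⟩ := exists_deep (n := n) (k := max n (max e0 k0)) h1 h2
    (le_max_left _ _)
  obtain ⟨e1, hg⟩ := h1.gd (max n (max e0 k0) + 1)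
  obtain ⟨p0, hp0⟩ := red_bw a6 (full_of_gd hε h2 hg) le_rfl
  have b1 : e0 ≤ e := ((le_max_left _ _).trans (le_max_right _ _)).trans a1
  have b2 : k0 ≤ e := ((le_max_right _ _).trans (le_max_right _ _)).trans a1
  refine ⟨max p0 (e + 1), by omega, fun p p' hp hp' u u' hu hu' => ?_⟩
  have c1 := hp0 p (by omega) u (hu.mono (by omega))
  have c2 := hp0 p' (by omega) u' (hu'.mono (by omega))
  rw [← a3] at c1 c2
  have c3 : |u e - u' e| * Lam e ≤ η := by
    have := stp_full_deep hε a2 a5 c1 c2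
    rw [hu e b1 (by omega), hu' e b1 (by omega), cm, cm, a4]
    have l1 := one_le_Lam e
    refine (mul_le_mul_of_nonneg_right this (by linarith)).trans ?_
    have : 4 * kap e * Lam e = (1 / 2) ^ e := by unfold kap; field_simp
    rw [this]
    exact (pow_le_pow_of_le_one (by norm_num) (by norm_num) b2).trans hk0.le
  have c4 : ∀ d, d ≤ e - e0 → |u (e - d) - u' (e - d)| * Lam (e - d) ≤ η := by
    intro d
    induction d with
    | zero => intro _; exact c3
    | succ d ih =>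
      intro hd
      have e1 : e - d = e - (d + 1) + 1 := by omega
      have := ih (by omega)
      rw [e1] at this
      rw [hu _ (by omega) (by omega), hu' _ (by omega) (by omega), cm, cm]
      exact (stp_lip hε (AA_nonneg _) (AA_le_one _) _ _ _).trans this
  have c5 := c4 (e - e0) le_rfl
  rw [show e - (e - e0) = e0 by omega] at c5
  have := one_le_Lam e0
  nlinarith [abs_nonneg (u e0 - u' e0)]

/-- Backward iteration. -/
def bit (f : ℕ → ℝ → ℝ) : ℕ → ℕ → ℝ → ℝ
  | 0, _, v => v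
  | d + 1, e, v => f e (bit f d (e + 1) v)

theorem bsol_bit (f : ℕ → ℝ → ℝ) (a p : ℕ) (v : ℝ) :
    BSol f (fun e => bit f (p - e) e v) a p := by
  intro e _ he
  simp only
  rw [show p - e = p - (e + 1) + 1 by omega, bit]

theorem BSol.eq_bit {f : ℕ → ℝ → ℝ} {u : ℕ → ℝ} (d : ℕ) :
    ∀ a, BSol f u a (a + d) → u a = bit f d a (u (a + d)) := by
  induction d with
  | zero => intro a _; rfl
  | succ d ih =>
    intro a h
    have e : a + (d + 1) = a + 1 + d := by omega
    rw [bit, h a le_rfl (by omega), e, ← ih (a + 1) (e ▸ h.mono (Nat.le_succ a))]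

/-- The carried values of the backward solution. -/
noncomputable def BU (n : ℕ) (μ y : ℕ → ℝ) (e : ℕ) : ℝ :=
  limUnder atTop fun p => bit (cm (-1) (AA n μ y) y) (p - e) e 0

/-- The inputs of the backward solution. -/
noncomputable def BX (n : ℕ) (μ y : ℕ → ℝ) (e : ℕ) : ℝ :=
  (stp (-1) e (AA n μ y e) (BU n μ y (e + 1), y e)).2

theorem continuous_cm (ε : ℝ) (A x : ℕ → ℝ) (e : ℕ) : Continuous (cm ε A x e) :=
  ((continuous_stp ε e).comp (f := fun u : ℝ => (A e, (u, x e))) (by fun_prop)).fst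

section

variable {n : ℕ} {μ y : ℕ → ℝ} (h1 : V1 μ y) (h2 : V2 μ)
include h1 h2

theorem tendsto_BU (e : ℕ) : Tendsto (fun p => bit (cm (-1) (AA n μ y) y) (p - e) e 0) atTop
    (𝓝 (BU n μ y e)) := by
  refine CauchySeq.tendsto_limUnder (Metric.cauchySeq_iff.2 fun η hη => ?_)
  obtain ⟨p0, _, h⟩ := key_contract (n := n) h1 h2 e (half_pos hη)
  refine ⟨p0, fun p hp p' hp' => ?_⟩
  have := h p p' hp hp' _ _ (bsol_bit _ e p 0) (bsol_bit _ e p' 0)
  rw [Real.dist_eq]
  linarith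

theorem BU_eq (e : ℕ) : BU n μ y e = cm (-1) (AA n μ y) y e (BU n μ y (e + 1)) := by
  refine tendsto_nhds_unique (tendsto_BU h1 h2 e) ?_
  refine (((continuous_cm _ _ _ e).tendsto _).comp (tendsto_BU h1 h2 (e + 1))).congr' ?_
  filter_upwards [eventually_gt_atTop e] with p hp
  exact (bsol_bit _ e p 0 e le_rfl hp).symm

theorem sol_B : Sol n μ (BU n μ y) (BX n μ y) y := by
  intro e
  have := stp_stp (ε := -1) (e := e) (by norm_num) (AA_nonneg (n := n) (μ := μ) (y := y) e)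
    (AA_le_one e) (BU n μ y (e + 1), y e)
  rw [neg_neg] at this
  rw [← this, BU_eq h1 h2 e]
  rfl

theorem Sol.unique_bw {u x : ℕ → ℝ} (h : Sol n μ u x y) : u = BU n μ y ∧ x = BX n μ y := by
  have hu : u = BU n μ y := by
    funext e
    refine eq_of_forall_dist_le fun η hη => ?_
    obtain ⟨p0, _, hp⟩ := key_contract (n := n) h1 h2 e hη
    exact hp p0 p0 le_rfl le_rfl _ _ (h.bsol e p0) ((sol_B h1 h2).bsol e p0)
  refine ⟨hu, funext fun e => ?_⟩
  rw [BX, ← hu, h.back e]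

end

section Param

variable {P : Type*} [TopologicalSpace P] {n : ℕ} {μ y : P → ℕ → ℝ}

theorem continuous_bit (hμ : Continuous μ) (hy : Continuous y) (d : ℕ) : ∀ e,
    Continuous fun q : P × ℝ => bit (cm (-1) (AA n (μ q.1) (y q.1)) (y q.1)) d e q.2 := by
  have hA : Continuous fun π => AA n (μ π) (y π) :=
    (continuous_AA n).comp (f := fun π => (μ π, y π)) (hμ.prodMk hy)
  induction d with
  | zero => intro e; exact continuous_snd
  | succ d ih =>
    intro e
    have := ih (e + 1)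
    exact ((continuous_stp (-1) e).comp (f := fun q : P × ℝ => (AA n (μ q.1) (y q.1) e,
      (bit (cm (-1) (AA n (μ q.1) (y q.1)) (y q.1)) d (e + 1) q.2, y q.1 e)))
      (((continuous_apply e).comp (hA.comp continuous_fst)).prodMk
        (this.prodMk ((continuous_apply e).comp (hy.comp continuous_fst))))).fst

theorem continuous_BU (hμ : Continuous μ) (hy : Continuous y) (h1 : ∀ π, V1 (μ π) (y π))
    (h2 : ∀ π, V2 (μ π)) (e : ℕ) : Continuous fun π => BU n (μ π) (y π) e := by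
  rw [continuous_iff_continuousAt]
  intro π0
  rw [ContinuousAt, Metric.tendsto_nhds]
  intro η hη
  obtain ⟨p0, hp0, hK⟩ := key_contract (n := n) (h1 π0) (h2 π0) e (half_pos hη)
  obtain ⟨q, ⟨a1, a2, a3⟩, a4, a5⟩ := ((h2 π0 0 false).and_eventually
    ((h1 π0 0).and (eventually_ge_atTop p0))).exists
  have a6 := a4 a1 (by rw [a3]; norm_num)
  obtain ⟨d, rfl⟩ : ∃ d, q = e + d := ⟨q - e, by omega⟩
  have b1 : ∀ᶠ π in 𝓝 π0, 1 / 2 < μ π (e + d) :=
    ((continuous_apply (e + d)).comp hμ).continuousAt.eventually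
      (lt_mem_nhds (show 1 / 2 < μ π0 (e + d) by rw [a3]; norm_num))
  have b2 : ∀ᶠ π in 𝓝 π0, |y π (e + d)| < 1 :=
    ((continuous_apply (e + d)).comp hy).abs.continuousAt.eventually
      (gt_mem_nhds (show |y π0 (e + d)| < 1 by linarith))
  have hb := continuous_bit (n := n) hμ hy d e
  have b3 : ∀ᶠ π in 𝓝 π0, ∀ v ∈ Icc (-2 : ℝ) 2,
      |bit (cm (-1) (AA n (μ π) (y π)) (y π)) d e v -
        bit (cm (-1) (AA n (μ π0) (y π0)) (y π0)) d e v| < η / 2 := by
    refine isCompact_Icc.eventually_forall_of_forall_eventually fun v _ => ?_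
    have hc : Continuous fun z : P × ℝ => |bit (cm (-1) (AA n (μ z.1) (y z.1)) (y z.1)) d e z.2 -
        bit (cm (-1) (AA n (μ π0) (y π0)) (y π0)) d e z.2| :=
      (hb.sub (hb.comp (f := fun z : P × ℝ => (π0, z.2)) (by fun_prop))).abs
    exact hc.continuousAt.eventually (gt_mem_nhds (by simpa using hη))
  filter_upwards [b1, b2, b3] with π c1 c2 c3
  have d1 : |BU n (μ π) (y π) (e + d)| ≤ 2 := by
    rw [BU_eq (h1 π) (h2 π), cm, AA_ord a2 c1.le]
    have := stp_full_ord (ε := -1) (by norm_num) a2 (u := BU n (μ π) (y π) (e + d + 1)) c2.le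
      (Or.inl a1)
    rwa [a1, th_zero, mul_one] at this
  have d2 := BSol.eq_bit d e ((sol_B (n := n) (h1 π) (h2 π)).bsol e (e + d))
  have d3 := c3 _ (abs_le.1 d1)
  have d4 := hK (e + d) (e + d) a5 a5 _ _ (bsol_bit _ e (e + d) (BU n (μ π) (y π) (e + d)))
    ((sol_B (n := n) (h1 π0) (h2 π0)).bsol e (e + d))
  rw [Nat.add_sub_cancel_left] at d4
  rw [Real.dist_eq, d2]
  have := abs_sub_le (bit (cm (-1) (AA n (μ π) (y π)) (y π)) d e (BU n (μ π) (y π) (e + d)))
    (bit (cm (-1) (AA n (μ π0) (y π0)) (y π0)) d e (BU n (μ π) (y π) (e + d)))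
    (BU n (μ π0) (y π0) e)
  linarith

theorem continuous_BX (hμ : Continuous μ) (hy : Continuous y) (h1 : ∀ π, V1 (μ π) (y π))
    (h2 : ∀ π, V2 (μ π)) (e : ℕ) : Continuous fun π => BX n (μ π) (y π) e := by
  have hA : Continuous fun π => AA n (μ π) (y π) :=
    (continuous_AA n).comp (f := fun π => (μ π, y π)) (hμ.prodMk hy)
  have hU := continuous_BU (n := n) hμ hy h1 h2 (e + 1)
  exact ((continuous_stp (-1) e).comp (f := fun π => (AA n (μ π) (y π) e,
    (BU n (μ π) (y π) (e + 1), y π e))) (by fun_prop)).snd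

end Param

/-- The carried value read off a sequence of step results. -/
def car (w : ℝ) (z : ℕ → ℝ × ℝ) : ℕ → ℝ
  | 0 => w
  | e + 1 => (z e).1

/-- The forward recursion. -/
noncomputable def PhiF (n : ℕ) (μ x : ℕ → ℝ) (w : ℝ) (z : ℕ → ℝ × ℝ) (e : ℕ) : ℝ × ℝ :=
  stp 1 e (AA n μ (fun i => (z i).2) e) (car w z e, x e)

/-- The outputs of the forward solution. -/
noncomputable def FY (n : ℕ) (μ x : ℕ → ℝ) (w : ℝ) (e : ℕ) : ℝ := (cfix (PhiF n μ x w) e).2

theorem sol_F (n : ℕ) (μ x : ℕ → ℝ) (w : ℝ) : ∃ u, u 0 = w ∧ Sol n μ u x (FY n μ x w) := by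
  have hc : Causal (PhiF n μ x w) := by
    intro z z' e h
    unfold PhiF
    rw [AA_congr n μ (y' := fun i => (z' i).2) fun i hi => by rw [h i hi]]
    cases e with
    | zero => rfl
    | succ e => rw [car, car, h e (Nat.lt_succ_self e)]
  exact ⟨car w (cfix (PhiF n μ x w)), rfl, fun e => hc.fix_eq e⟩

theorem continuous_FY {P : Type*} [TopologicalSpace P] {n : ℕ} {μ x : P → ℕ → ℝ} {w : P → ℝ}
    (hμ : Continuous μ) (hx : Continuous x) (hw : Continuous w) (e : ℕ) :
    Continuous fun π => FY n (μ π) (x π) (w π) e := by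
  have := continuous_cfix (fun π => PhiF n (μ π) (x π) (w π)) (continuous_pi fun e => ?_)
  · exact ((continuous_apply e).comp this).snd
  · have hA : Continuous fun q : P × (ℕ → ℝ × ℝ) => AA n (μ q.1) (fun i => (q.2 i).2) :=
      (continuous_AA n).comp (f := fun q : P × (ℕ → ℝ × ℝ) => (μ q.1, fun i => (q.2 i).2))
        (by fun_prop)
    have hcar : Continuous fun q : P × (ℕ → ℝ × ℝ) => car (w q.1) q.2 e := by
      cases e <;> simp only [car] <;> fun_prop
    exact (continuous_stp 1 e).comp (f := fun q : P × (ℕ → ℝ × ℝ) =>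
      (AA n (μ q.1) (fun i => (q.2 i).2) e, (car (w q.1) q.2 e, x q.1 e))) (by fun_prop)

end Pool.Agent.Lib.MP_318f17_gt
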