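import Mathlib

/-!
Basic tools: ramps, branches of the tree of finite sequences, a local finiteness lemma,
causal fixed points, and a coding of finite sequences.
-/

set_option autoImplicit false

namespace Pool.Agent.Lib.MP_318f17_gt

open Filter Topology Set

/-- The ramp from `0` (below `a`) to `1` (above `b`). -/
noncomputable def ramp (a b x : ℝ) : ℝ := max 0 (min 1 ((x - a) / (b - a)))

theorem ramp_nonneg (a b x : ℝ) : 0 ≤ ramp a b x := le_max_left _ _

theorem ramp_le_one (a b x : ℝ) : ramp a b x ≤ 1 :=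
  max_le zero_le_one (min_le_left _ _)

theorem ramp_of_le {a b x : ℝ} (hab : a < b) (h : x ≤ a) : ramp a b x = 0 := by
  unfold ramp
  apply max_eq_left
  apply min_le_of_right_le
  exact div_nonpos_of_nonpos_of_nonneg (by linarith) (by linarith)

theorem ramp_of_ge {a b x : ℝ} (hab : a < b) (h : b ≤ x) : ramp a b x = 1 := by
  unfold ramp
  have : 1 ≤ (x - a) / (b - a) := by
    rw [le_div_iff₀ (by linarith)]; linarith
  rw [min_eq_left this]; simp

theorem lt_of_ramp_ne {a b x : ℝ} (hab : a < b) (h : ramp a b x ≠ 0) : a < x := by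
  by_contra hx
  exact h (ramp_of_le hab (not_lt.1 hx))

theorem lt_of_ramp_ne_one {a b x : ℝ} (hab : a < b) (h : ramp a b x ≠ 1) : x < b := by
  by_contra hx
  exact h (ramp_of_ge hab (not_lt.1 hx))

theorem ramp_pos {a b x : ℝ} (hab : a < b) (h : a < x) : 0 < ramp a b x := by
  unfold ramp
  apply lt_max_of_lt_right
  exact lt_min zero_lt_one (div_pos (by linarith) (by linarith))

@[fun_prop]
theorem continuous_ramp (a b : ℝ) : Continuous (ramp a b) := by
  unfold ramp; fun_prop

theorem ramp_lip {a b : ℝ} (hab : 1 ≤ b - a) (x y : ℝ) : |ramp a b x - ramp a b y| ≤ |x - y| := by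
  unfold ramp
  have h1 := abs_max_sub_max_le_max 0 (min 1 ((x - a) / (b - a))) 0 (min 1 ((y - a) / (b - a)))
  have h2 := abs_min_sub_min_le_max 1 ((x - a) / (b - a)) 1 ((y - a) / (b - a))
  have h3 : |(x - a) / (b - a) - (y - a) / (b - a)| ≤ |x - y| := by
    rw [← sub_div, abs_div, abs_of_pos (by linarith : (0:ℝ) < b - a)]
    have : x - a - (y - a) = x - y := by ring
    rw [this]
    exact div_le_self (abs_nonneg _) hab
  simp only [sub_self, abs_zero] at h1 h2
  have h4 : max 0 |(x - a) / (b - a) - (y - a) / (b - a)| ≤ |x - y| := max_le (abs_nonneg _) h3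
  exact h1.trans (max_le (abs_nonneg _) (h2.trans h4))

/-- The initial segment of length `j` of the branch `γ`, newest letter first. -/
def br (γ : ℕ → ℕ) : ℕ → List ℕ
  | 0 => []
  | j + 1 => γ j :: br γ j

@[simp] theorem br_zero (γ : ℕ → ℕ) : br γ 0 = [] := rfl

theorem br_succ (γ : ℕ → ℕ) (j : ℕ) : br γ (j + 1) = γ j :: br γ j := rfl

@[simp] theorem length_br (γ : ℕ → ℕ) (j : ℕ) : (br γ j).length = j := by
  induction j with
  | zero => rfl
  | succ j ih => simp [br_succ, ih]

theorem br_suffix (γ : ℕ → ℕ) {i j : ℕ} (h : i ≤ j) : br γ i <:+ br γ j := by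
  induction h with
  | refl => exact List.suffix_refl _
  | step _ ih => exact ih.trans (List.suffix_cons _ _)

theorem suffix_eq_of_length {α : Type*} {s t u : List α} (hs : s <:+ u) (ht : t <:+ u)
    (h : s.length = t.length) : s = t := by
  rcases List.suffix_or_suffix_of_suffix hs ht with h1 | h1
  · exact h1.eq_of_length h
  · exact (h1.eq_of_length h.symm).symm

theorem suffix_of_length_le {α : Type*} {s t u : List α} (hs : s <:+ u) (ht : t <:+ u)
    (h : s.length ≤ t.length) : s <:+ t := List.suffix_of_suffix_length_le hs ht h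

theorem eq_of_br_eq {γ γ' : ℕ → ℕ} {l : ℕ} (h : br γ l = br γ' l) {i : ℕ} (hi : i < l) :
    γ i = γ' i := by
  have h1 : br γ (i + 1) <:+ br γ' l := h ▸ br_suffix γ hi
  have h2 : br γ' (i + 1) <:+ br γ' l := br_suffix γ' hi
  have := suffix_eq_of_length h1 h2 (by simp)
  rw [br_succ, br_succ] at this
  exact (List.cons.inj this).1

theorem exists_branch (Q : List ℕ → Prop) (R : List ℕ → ℕ → Prop) (h0 : Q [])
    (hs : ∀ s, Q s → ∃ a, Q (a :: s) ∧ R s a) : ∃ γ : ℕ → ℕ, ∀ j, R (br γ j) (γ j) := by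
  choose f hf using hs
  let seq : ℕ → {s // Q s} := fun j =>
    Nat.rec ⟨[], h0⟩ (fun _ s => ⟨f s.1 s.2 :: s.1, (hf s.1 s.2).1⟩) j
  let γ : ℕ → ℕ := fun j => f (seq j).1 (seq j).2
  have hb : ∀ j, br γ j = (seq j).1 := by
    intro j
    induction j with
    | zero => rfl
    | succ j ih => rw [br_succ, ih]
  refine ⟨γ, fun j => ?_⟩
  rw [hb]
  exact (hf _ _).2

/-- All steps of the node satisfy `C`. -/
def Act (C : List ℕ → ℕ → Prop) : List ℕ → Prop
  | [] => True
  | a :: s => C s a ∧ Act C s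

theorem Act.of_suffix {C : List ℕ → ℕ → Prop} {s t : List ℕ} (h : Act C t) (hs : s <:+ t) :
    Act C s := by
  induction t with
  | nil => rw [List.suffix_nil.1 hs]; trivial
  | cons a t ih =>
    rcases List.suffix_cons_iff.1 hs with rfl | h1
    · exact h
    · exact ih h.2 h1

/-- Finitely branching. -/
def FB (T : Set (List ℕ)) : Prop := ∀ s, {a | a :: s ∈ T}.Finite

/-- Local finiteness along a finitely branching tree. -/
theorem tlf {P : Type*} (l : Filter P) (T : Set (List ℕ))
    (hT : ∀ s t, s <:+ t → t ∈ T → s ∈ T) (hfb : FB T) (C : P → List ℕ → ℕ → Prop)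
    (C0 : List ℕ → ℕ → Prop) (hC : ∀ s a, ¬ C0 s a → ∀ᶠ π in l, ¬ C π s a)
    (hw : ¬ ∃ γ : ℕ → ℕ, ∀ j, C0 (br γ j) (γ j)) :
    ∃ Φ : Set (List ℕ), Φ.Finite ∧ ∀ᶠ π in l, ∀ t ∈ T, Act (C π) t → t ∈ Φ := by
  let Q : List ℕ → Prop := fun s =>
    ∃ Φ : Set (List ℕ), Φ.Finite ∧ ∀ᶠ π in l, ∀ t ∈ T, s <:+ t → Act (C π) t → t ∈ Φ
  have key : ∀ s, ¬ Q s → ∃ a, ¬ Q (a :: s) ∧ C0 s a := by
    intro s hs
    by_contra hcon
    push Not at hcon
    have hall : ∀ a, Q (a :: s) := by
      intro a
      by_contra hq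
      apply hq
      refine ⟨∅, finite_empty, ?_⟩
      filter_upwards [hC s a (hcon a hq)] with π hπ t _ hst hact
      exact (hπ (hact.of_suffix hst).1).elim
    choose Φ hΦ hev using hall
    apply hs
    refine ⟨{s} ∪ ⋃ a ∈ {a | a :: s ∈ T}, Φ a,
      (finite_singleton s).union ((hfb s).biUnion fun a _ => hΦ a), ?_⟩
    have := (eventually_all_finite (hfb s)).2 fun a _ => hev a
    filter_upwards [this] with π hπ t ht hst hact
    by_cases hts : t = s
    · exact Or.inl hts
    · obtain ⟨pre, rfl⟩ := hst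
      rcases List.eq_nil_or_concat pre with rfl | ⟨pre', a, rfl⟩
      · exact (hts rfl).elim
      · have h1 : a :: s <:+ pre'.concat a ++ s := ⟨pre', by simp⟩
        have h2 : a :: s ∈ T := hT _ _ h1 ht
        exact Or.inr (mem_biUnion (show a ∈ {a | a :: s ∈ T} from h2) (hπ a h2 _ ht h1 hact))
  have hq : Q [] := by
    by_contra hq
    exact hw (exists_branch (fun s => ¬ Q s) C0 hq key)
  obtain ⟨Φ, hΦ, hev⟩ := hq
  refine ⟨Φ, hΦ, ?_⟩
  filter_upwards [hev] with π hπ t ht hact
  exact hπ t ht List.nil_suffix hact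

/-- The lemma of König. -/
theorem koenig (T : Set (List ℕ)) (hT : ∀ s t, s <:+ t → t ∈ T → s ∈ T) (hfb : FB T)
    (C : List ℕ → ℕ → Prop) (hw : ¬ ∃ γ : ℕ → ℕ, ∀ j, C (br γ j) (γ j)) :
    {t | t ∈ T ∧ Act C t}.Finite := by
  obtain ⟨Φ, hΦ, hev⟩ := tlf (pure () : Filter Unit) T hT hfb (fun _ => C) C
    (fun s a h => by simpa using h) hw
  rw [eventually_pure] at hev
  exact hΦ.subset fun t ht => hev t ht.1 ht.2

section Causal

variable {E : Type*}

/-- Coordinate `i` of the output depends only on the earlier coordinates of the input. -/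
def Causal (Φ : (ℕ → E) → ℕ → E) : Prop :=
  ∀ z z' i, (∀ j < i, z j = z' j) → Φ z i = Φ z' i

/-- The fixed point of a causal operator. -/
def cfix [Inhabited E] (Φ : (ℕ → E) → ℕ → E) : ℕ → E :=
  fun i => (Φ^[i + 1] (fun _ => default)) i

theorem Causal.iter {Φ : (ℕ → E) → ℕ → E} (h : Causal Φ) (n : ℕ) :
    ∀ (z z' : ℕ → E) (j : ℕ), j < n → Φ^[n] z j = Φ^[n] z' j := by
  induction n with
  | zero => intro z z' j hj; omega
  | succ n ih =>
    intro z z' j hj
    rw [Function.iterate_succ_apply', Function.iterate_succ_apply']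
    exact h _ _ _ fun i hi => ih z z' i (by omega)

theorem Causal.fix_eq [Inhabited E] {Φ : (ℕ → E) → ℕ → E} (h : Causal Φ) (i : ℕ) :
    Φ (cfix Φ) i = cfix Φ i := by
  have : cfix Φ i = Φ (Φ^[i] (fun _ => default)) i := by
    unfold cfix; rw [Function.iterate_succ_apply']
  rw [this]
  apply h
  intro j hj
  unfold cfix
  obtain ⟨d, rfl⟩ : ∃ d, i = (j + 1) + d := ⟨i - (j + 1), by omega⟩
  rw [Function.iterate_add_apply Φ (j + 1) d]
  exact h.iter _ _ _ _ (Nat.lt_succ_self j)

theorem Causal.unique {Φ : (ℕ → E) → ℕ → E} (h : Causal Φ) {z z' : ℕ → E}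
    (hz : ∀ i, Φ z i = z i) (hz' : ∀ i, Φ z' i = z' i) : z = z' := by
  funext i
  induction i using Nat.strong_induction_on with
  | _ i ih => rw [← hz, ← hz']; exact h _ _ _ ih

theorem continuous_cfix [Inhabited E] [TopologicalSpace E] {P : Type*} [TopologicalSpace P]
    (Φ : P → (ℕ → E) → ℕ → E) (hc : Continuous fun q : P × (ℕ → E) => Φ q.1 q.2) :
    Continuous fun p => cfix (Φ p) := by
  have h : ∀ n, Continuous fun p => (Φ p)^[n] (fun _ => default) := by
    intro n
    induction n with
    | zero => exact continuous_const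
    | succ n ih =>
      simp only [Function.iterate_succ_apply']
      exact hc.comp (continuous_id.prodMk ih)
  exact continuous_pi fun i => (continuous_apply i).comp (h (i + 1))

end Causal

/-- Coding of finite sequences. -/
def enc : List ℕ → ℕ
  | [] => 0
  | a :: l => Nat.pair a (enc l) + 1

/-- Decoding of finite sequences. -/
def dec : ℕ → List ℕ
  | 0 => []
  | n + 1 => n.unpair.1 :: dec n.unpair.2
decreasing_by exact Nat.lt_succ_of_le (Nat.unpair_right_le n)

theorem dec_zero : dec 0 = [] := by rw [dec]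

theorem dec_succ (n : ℕ) : dec (n + 1) = n.unpair.1 :: dec n.unpair.2 := by rw [dec]

theorem dec_enc (l : List ℕ) : dec (enc l) = l := by
  induction l with
  | nil => exact dec_zero
  | cons a l ih => rw [enc, dec_succ, Nat.unpair_pair, ih]

theorem enc_dec (n : ℕ) : enc (dec n) = n := by
  induction n using Nat.strong_induction_on with
  | _ n ih =>
    cases n with
    | zero => rw [dec_zero]; rfl
    | succ n =>
      rw [dec_succ, enc, ih _ (Nat.lt_succ_of_le (Nat.unpair_right_le n)), Nat.pair_unpair]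

theorem enc_injective : Function.Injective enc := fun a b h => by
  rw [← dec_enc a, h, dec_enc]

theorem lt_of_mem_dec (n : ℕ) : ∀ a ∈ dec n, a < n := by
  induction n using Nat.strong_induction_on with
  | _ n ih =>
    cases n with
    | zero => rw [dec_zero]; simp
    | succ n =>
      intro a ha
      rw [dec_succ] at ha
      rcases List.mem_cons.1 ha with rfl | h
      · exact Nat.lt_succ_of_le (Nat.unpair_left_le n)
      · have h1 := ih _ (Nat.lt_succ_of_le (Nat.unpair_right_le n)) a h
        have h2 := Nat.unpair_right_le n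
        omega

/-- The node of the flip tree from which pointer `i` steps. -/
def um (i : ℕ) : List ℕ := dec i.unpair.2

/-- The node of the flip tree to which pointer `i` steps. -/
def uf (i : ℕ) : List ℕ := i.unpair.1 :: um i

/-- The pointer stepping from `u` by the letter `a`. -/
def idx (u : List ℕ) (a : ℕ) : ℕ := Nat.pair a (enc u)

@[simp] theorem um_idx (u : List ℕ) (a : ℕ) : um (idx u a) = u := by
  simp [um, idx, dec_enc]

@[simp] theorem uf_idx (u : List ℕ) (a : ℕ) : uf (idx u a) = a :: u := by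
  simp [uf, idx, um, dec_enc]

theorem um_zero : um 0 = [] := by simp [um, dec_zero]

theorem le_of_mem_uf {i a : ℕ} (h : a ∈ uf i) : a ≤ i := by
  have : uf i = dec (i + 1) := by rw [dec_succ]; rfl
  rw [this] at h
  exact Nat.lt_succ_iff.1 (lt_of_mem_dec _ _ h)

theorem uf_injective : Function.Injective uf := by
  intro i j h
  have h1 : ∀ i, uf i = dec (i + 1) := fun i => by rw [dec_succ]; rfl
  rw [h1, h1] at h
  have := congrArg enc h
  rw [enc_dec, enc_dec] at this
  omega

end Pool.Agent.Lib.MP_318f17_gt
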