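import Pool.Agent.Lib.MP_318f17_gt.Step

/-!
The chain carrying one real number through the test sites: activities and finiteness.
-/

set_option autoImplicit false

namespace Pool.Agent.Lib.MP_318f17_gt

open Filter Topology Set

/-- The activity allowed by the control. -/
noncomputable def act (μ : ℕ → ℝ) (e : ℕ) : ℝ := ramp 0 (1 / 2) (μ e)

/-- The visible disturbance relevant for the deep steps of row `k`. -/
noncomputable def aa (n : ℕ) (μ y A : ℕ → ℝ) (k e : ℕ) : ℝ :=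
  (if deep e then (if row e = k then act μ e * ramp 4 5 |y e| else if row e < k then A e else 0)
    else (if row e ≤ k + 1 then act μ e * ramp 1 2 |y e| else 0)) +
  (if e = k ∧ n ≤ k then 1 else 0)

/-- The evidence that a fully open deep step has been made. -/
noncomputable def ev (μ : ℕ → ℝ) (k : ℕ) (a : ℝ) (e' e : ℕ) : ℝ :=
  if deep e = true ∧ row e = k then ramp (1 / 2) 1 (μ e) * ramp 1 2 (2 ^ (e - e') * a) else 0

/-- The opening caused by a disturbance `a` at step `e'`. -/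
noncomputable def op (μ : ℕ → ℝ) (k : ℕ) (a : ℝ) (e' e : ℕ) : ℝ :=
  ramp 0 1 (2 ^ (e - e') * a) * ∏ i ∈ Finset.Ioo e' e, (1 - ev μ k a e' i)

/-- The recursion for the strengths of the steps. -/
noncomputable def PhiA (n : ℕ) (μ y A : ℕ → ℝ) (e : ℕ) : ℝ :=
  act μ e * (if deep e then
    ramp 0 1 (∑ i ∈ Finset.range e, op μ (row e) (aa n μ y A (row e) i) i e) else 1)

/-- The strengths of the steps. -/
noncomputable def AA (n : ℕ) (μ y : ℕ → ℝ) : ℕ → ℝ := cfix (PhiA n μ y)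

theorem PhiA_congr (n : ℕ) (μ : ℕ → ℝ) {y y' A A' : ℕ → ℝ} {e : ℕ}
    (hy : ∀ i < e, y i = y' i) (hA : ∀ i < e, A i = A' i) :
    PhiA n μ y A e = PhiA n μ y' A' e := by
  unfold PhiA
  congr 2
  refine congrArg _ (Finset.sum_congr rfl fun i hi => ?_)
  rw [Finset.mem_range] at hi
  simp only [aa, hy i hi, hA i hi]

theorem AA_eq (n : ℕ) (μ y : ℕ → ℝ) (e : ℕ) : AA n μ y e = PhiA n μ y (AA n μ y) e :=
  (Causal.fix_eq (Φ := PhiA n μ y) (fun _ _ _ h => PhiA_congr n μ (fun _ _ => rfl) h) e).symm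

theorem AA_congr (n : ℕ) (μ : ℕ → ℝ) {y y' : ℕ → ℝ} {e : ℕ} (hy : ∀ i < e, y i = y' i) :
    AA n μ y e = AA n μ y' e := by
  induction e using Nat.strong_induction_on with
  | _ e ih =>
    rw [AA_eq, AA_eq n μ y']
    exact PhiA_congr n μ hy fun i hi => ih i hi fun j hj => hy j (hj.trans hi)

theorem continuous_AA (n : ℕ) :
    Continuous fun q : (ℕ → ℝ) × (ℕ → ℝ) => AA n q.1 q.2 := by
  refine continuous_cfix (fun q : (ℕ → ℝ) × (ℕ → ℝ) => PhiA n q.1 q.2)
    (continuous_pi fun e => ?_)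
  have h1 : ∀ k i, Continuous fun q : ((ℕ → ℝ) × (ℕ → ℝ)) × (ℕ → ℝ) =>
      aa n q.1.1 q.1.2 q.2 k i := by
    intro k i
    unfold aa act
    split_ifs <;> fun_prop
  have h2 : ∀ k i j, Continuous fun q : (ℕ → ℝ) × ℝ => ev q.1 k q.2 i j := by
    intro k i j
    unfold ev
    split_ifs <;> fun_prop
  have h3 : ∀ k i j, Continuous fun q : (ℕ → ℝ) × ℝ => op q.1 k q.2 i j := by
    intro k i j
    unfold op
    exact Continuous.mul (by fun_prop)
      (continuous_finsetProd _ fun l _ => continuous_const.sub (h2 k i l))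
  unfold PhiA act
  refine Continuous.mul (by fun_prop) ?_
  split_ifs
  · refine (continuous_ramp 0 1).comp (continuous_finsetSum _ fun i _ => ?_)
    exact (h3 (row e) i e).comp (continuous_fst.fst.prodMk (h1 (row e) i))
  · exact continuous_const

section

variable {n : ℕ} {μ y : ℕ → ℝ}

theorem act_ne {e : ℕ} (h : act μ e ≠ 0) : μ e ≠ 0 :=
  (lt_of_ramp_ne (by norm_num) h).ne'

theorem act_one {e : ℕ} (h : 1 / 2 ≤ μ e) : act μ e = 1 := ramp_of_ge (by norm_num) h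

theorem AA_nonneg (e : ℕ) : 0 ≤ AA n μ y e := by
  rw [AA_eq, PhiA]
  refine mul_nonneg (ramp_nonneg _ _ _) ?_
  split_ifs
  · exact ramp_nonneg _ _ _
  · exact zero_le_one

theorem AA_le_one (e : ℕ) : AA n μ y e ≤ 1 := by
  rw [AA_eq, PhiA]
  refine mul_le_one₀ (ramp_le_one _ _ _) ?_ ?_ <;> split_ifs
  · exact ramp_nonneg _ _ _
  · exact zero_le_one
  · exact ramp_le_one _ _ _
  · exact le_rfl

theorem AA_act {e : ℕ} (h : act μ e = 0) : AA n μ y e = 0 := by rw [AA_eq, PhiA, h, zero_mul]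

theorem AA_ne {e : ℕ} (h : AA n μ y e ≠ 0) : μ e ≠ 0 := act_ne fun h' => h (AA_act h')

theorem AA_ord {e : ℕ} (h : deep e = false) (hμ : 1 / 2 ≤ μ e) : AA n μ y e = 1 := by
  rw [AA_eq, PhiA, act_one hμ, h]; simp

theorem AA_closed {e : ℕ} (h : deep e = true)
    (ho : ∀ i < e, op μ (row e) (aa n μ y (AA n μ y) (row e) i) i e = 0) : AA n μ y e = 0 := by
  rw [AA_eq, PhiA, if_pos h, Finset.sum_eq_zero fun i hi => ho i (Finset.mem_range.1 hi),
    ramp_of_le zero_lt_one le_rfl, mul_zero]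

end

theorem ev_le_one (μ : ℕ → ℝ) (k : ℕ) (a : ℝ) (e' e : ℕ) : ev μ k a e' e ≤ 1 := by
  unfold ev
  split_ifs
  · exact mul_le_one₀ (ramp_le_one _ _ _) (ramp_nonneg _ _ _) (ramp_le_one _ _ _)
  · exact zero_le_one

theorem op_nonneg (μ : ℕ → ℝ) (k : ℕ) (a : ℝ) (e' e : ℕ) : 0 ≤ op μ k a e' e :=
  mul_nonneg (ramp_nonneg _ _ _) (Finset.prod_nonneg fun _ _ => sub_nonneg.2 (ev_le_one _ _ _ _ _))

theorem op_zero (μ : ℕ → ℝ) (k : ℕ) {a : ℝ} (ha : a ≤ 0) (e' e : ℕ) : op μ k a e' e = 0 := by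
  rw [op, ramp_of_le zero_lt_one (mul_nonpos_of_nonneg_of_nonpos (by positivity) ha), zero_mul]

/-- Active sites of every row are eventually good. -/
def V1 (μ x : ℕ → ℝ) : Prop := ∀ k, ∀ᶠ e in atTop, row e = k → μ e ≠ 0 → |x e| ≤ 1 / 2

/-- Fully active steps of each row and kind occur infinitely often. -/
def V2 (μ : ℕ → ℝ) : Prop := ∀ k b, ∃ᶠ e in atTop, row e = k ∧ deep e = b ∧ μ e = 1

/-- The rows up to `j` are good from step `e1` on. -/
def Gd (μ x : ℕ → ℝ) (j e1 : ℕ) : Prop := ∀ e, e1 ≤ e → row e ≤ j → μ e ≠ 0 → |x e| ≤ 1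

theorem V1.gd {μ x : ℕ → ℝ} (h : V1 μ x) (j : ℕ) : ∃ e1, Gd μ x j e1 := by
  have := (eventually_all_finite (finite_Iic j)).2 fun k _ => h k
  obtain ⟨e1, h1⟩ := eventually_atTop.1 this
  exact ⟨e1, fun e he hr hμ => (h1 e he (row e) hr rfl hμ).trans (by norm_num)⟩

theorem exists_ev_one {μ : ℕ → ℝ} (h2 : V2 μ) (k : ℕ) {a : ℝ} (ha : 0 < a) (e' : ℕ) :
    ∃ e, e' < e ∧ ev μ k a e' e = 1 := by
  have t1 : Tendsto (fun e : ℕ => (2 : ℝ) ^ (e - e') * a) atTop atTop :=
    ((tendsto_pow_atTop_atTop_of_one_lt one_lt_two).comp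
      (tendsto_sub_atTop_nat e')).atTop_mul_const ha
  obtain ⟨e, ⟨h3, h4, h5⟩, h6, h7⟩ := ((h2 k true).and_eventually
    ((t1.eventually_ge_atTop 2).and (eventually_gt_atTop e'))).exists
  refine ⟨e, h7, ?_⟩
  rw [ev, if_pos ⟨h4, h3⟩, ramp_of_ge (by norm_num) h5.ge, ramp_of_ge one_lt_two h6, one_mul]

theorem op_vanish {μ : ℕ → ℝ} (h2 : V2 μ) (k : ℕ) (a : ℝ) (e' : ℕ) :
    ∀ᶠ e in atTop, op μ k a e' e = 0 := by
  rcases le_or_gt a 0 with ha | ha
  · exact Eventually.of_forall fun e => op_zero μ k ha e' e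
  · obtain ⟨i, h3, h4⟩ := exists_ev_one h2 k ha e'
    filter_upwards [eventually_gt_atTop i] with e he
    rw [op, Finset.prod_eq_zero (Finset.mem_Ioo.2 ⟨h3, he⟩) (by rw [h4, sub_self]), mul_zero]

/-- No visible disturbance in the rows up to `j` from step `e1` on. -/
def Qt (μ y : ℕ → ℝ) (j e1 : ℕ) : Prop := ∀ e, e1 ≤ e → μ e ≠ 0 →
  (deep e = false → row e ≤ j + 1 → |y e| ≤ 1) ∧ (deep e = true → row e ≤ j → |y e| ≤ 4)

theorem Gd.qt {μ y : ℕ → ℝ} {j e1 : ℕ} (h : Gd μ y (j + 1) e1) : Qt μ y j e1 :=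
  fun e he hμ => ⟨fun _ hr => h e he hr hμ,
    fun _ hr => (h e he (by omega) hμ).trans (by norm_num)⟩

theorem aa_zero {n : ℕ} {μ y A : ℕ → ℝ} {j e1 k e : ℕ} (hq : Qt μ y j e1) (he : e1 ≤ e)
    (hk : k ≤ j) (hA : deep e = true → row e < k → A e = 0) (hn : ¬ (e = k ∧ n ≤ k)) :
    aa n μ y A k e = 0 := by
  rw [aa, if_neg hn, add_zero]
  by_cases ha : act μ e = 0
  · rw [ha]
    split_ifs with h1 h2 h3
    · simp
    · exact hA h1 h3
    all_goals simp
  · have := hq e he (act_ne ha)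
    split_ifs with h1 h2 h3 h4
    · rw [ramp_of_le (by norm_num) (this.2 h1 (by omega)), mul_zero]
    · exact hA h1 h3
    · rfl
    · rw [ramp_of_le (by norm_num) (this.1 (by simpa using h1) (by omega)), mul_zero]
    · rfl

theorem close_ev {n : ℕ} {μ y : ℕ → ℝ} (h2 : V2 μ) (hq : ∀ j, ∃ e1, Qt μ y j e1) (k : ℕ) :
    (∀ᶠ e in atTop, aa n μ y (AA n μ y) k e = 0) ∧
      ∀ᶠ e in atTop, deep e = true → row e = k → AA n μ y e = 0 := by
  induction k using Nat.strong_induction_on with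
  | _ k ih =>
    have h1 : ∀ᶠ e in atTop, aa n μ y (AA n μ y) k e = 0 := by
      obtain ⟨e1, he1⟩ := hq k
      have := (eventually_all_finite (finite_Iio k)).2 fun i hi => (ih i hi).2
      filter_upwards [this, eventually_ge_atTop e1, eventually_gt_atTop k] with e h3 h4 h5
      exact aa_zero he1 h4 le_rfl (fun hd hr => h3 (row e) hr hd rfl) (by omega)
    refine ⟨h1, ?_⟩
    obtain ⟨e1, he1⟩ := eventually_atTop.1 h1
    have := (eventually_all_finite (finite_Iio e1)).2 fun i _ =>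
      op_vanish h2 k (aa n μ y (AA n μ y) k i) i
    filter_upwards [this] with e h3 hd hr
    refine AA_closed hd fun i _ => ?_
    rw [hr]
    rcases lt_or_ge i e1 with h4 | h4
    · exact h3 i h4
    · exact op_zero μ k (he1 i h4).le i e

theorem close_all {n : ℕ} {μ y : ℕ → ℝ} {j : ℕ} (hq : Qt μ y j 0) (hn : j < n) (e : ℕ) :
    deep e = true → row e ≤ j → AA n μ y e = 0 := by
  induction e using Nat.strong_induction_on with
  | _ e ih =>
    intro hd hr
    refine AA_closed hd fun i hi => op_zero μ _ (le_of_eq ?_) i e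
    exact aa_zero hq (Nat.zero_le _) hr (fun h1 h2 => ih i hi h1 (by omega)) (by omega)

/-- The effect of a step on the carried value. -/
noncomputable def cm (ε : ℝ) (A x : ℕ → ℝ) (e : ℕ) (u : ℝ) : ℝ := (stp ε e (A e) (u, x e)).1

theorem per_of_gd {ε : ℝ} (hε : ε ^ 2 = 1) {n : ℕ} {μ y x : ℕ → ℝ} {j e1 : ℕ}
    (h : Gd μ x (j + 1) e1) : Per (cm ε (AA n μ y) x) j e1 := by
  intro e he u
  have h0 := AA_nonneg (n := n) (μ := μ) (y := y) e
  have h1 := AA_le_one (n := n) (μ := μ) (y := y) e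
  unfold cm
  by_cases hA : AA n μ y e = 0
  · rw [hA, stp_zero]; exact le_max_left _ _
  · rcases le_or_gt (row e) (j + 1) with hr | hr
    · exact le_max_of_le_left (stp_good hε h0 h1 (h e he hr (AA_ne hA)))
    · have t1 := th_anti (show j + 2 ≤ row e from hr)
      have t2 := th_pos j
      rw [th_succ, th_succ] at t1
      cases hd : deep e
      · exact (stp_out_ord hε h0 h1 hd (by omega) u _).trans (max_le_max le_rfl (by linarith))
      · exact (stp_out_deep hε h0 h1 hd u _).trans (max_le_max le_rfl (by linarith))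

theorem full_of_gd {ε : ℝ} (hε : ε ^ 2 = 1) {n : ℕ} {μ y x : ℕ → ℝ} {j e1 : ℕ} (h2 : V2 μ)
    (h : Gd μ x (j + 1) e1) : Full (cm ε (AA n μ y) x) j := by
  intro i hi
  refine ((h2 i false).and_eventually (eventually_ge_atTop e1)).mono ?_
  rintro e ⟨⟨rfl, h3, h4⟩, h5⟩ u hu
  unfold cm
  rw [AA_ord h3 (by rw [h4]; norm_num)]
  exact stp_full_ord hε h3 (h e h5 hi (by rw [h4]; norm_num)) hu

/-- The chain equations: `u` is the carried value, `x` the input and `y` the output. -/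
def Sol (n : ℕ) (μ u x y : ℕ → ℝ) : Prop :=
  ∀ e, stp 1 e (AA n μ y e) (u e, x e) = (u (e + 1), y e)

section

variable {n : ℕ} {μ u x y : ℕ → ℝ}

theorem Sol.back (h : Sol n μ u x y) (e : ℕ) :
    stp (-1) e (AA n μ y e) (u (e + 1), y e) = (u e, x e) := by
  rw [← h e]
  exact stp_stp (by norm_num) (AA_nonneg e) (AA_le_one e) _

theorem Sol.fw (h : Sol n μ u x y) (e : ℕ) : u (e + 1) = cm 1 (AA n μ y) x e (u e) := by
  rw [cm, h e]

theorem Sol.bsol (h : Sol n μ u x y) (a p : ℕ) : BSol (cm (-1) (AA n μ y) y) u a p := by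
  intro e _ _
  rw [cm, h.back e]

theorem Sol.eq_of_zero (h : Sol n μ u x y) {e : ℕ} (hA : AA n μ y e = 0) : y e = x e := by
  have := h e
  rw [hA, stp_zero] at this
  exact (congrArg Prod.snd this).symm

theorem Sol.ne (h : Sol n μ u x y) {e : ℕ} (hne : y e ≠ x e) : μ e ≠ 0 :=
  AA_ne fun hA => hne (h.eq_of_zero hA)

theorem Sol.change (h : Sol n μ u x y) {e : ℕ} (hr : row e ≠ 0) : |y e - x e| ≤ 32 := by
  have := stp_change (ε := 1) (by norm_num) (AA_nonneg (n := n) (μ := μ) (y := y) e)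
    (AA_le_one e) hr (u e) (x e)
  rwa [h e] at this

theorem Sol.ord_fw (h : Sol n μ u x y) {e : ℕ} (hd : deep e = false) (hu : |u e| ≤ th (row e))
    (hx : μ e ≠ 0 → |x e| ≤ 1) : y e = x e := by
  by_contra hne
  have := h e
  rw [stp_small hd hu (hx (h.ne hne))] at this
  exact hne (congrArg Prod.snd this).symm

theorem Sol.ord_bw (h : Sol n μ u x y) {e : ℕ} (hd : deep e = false)
    (hu : |u (e + 1)| ≤ th (row e)) (hy : μ e ≠ 0 → |y e| ≤ 1) : y e = x e := by
  by_contra hne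
  have := h.back e
  rw [stp_small hd hu (hy (h.ne hne))] at this
  exact hne (congrArg Prod.snd this)

theorem Sol.qt_fw (h : Sol n μ u x y) {j e1 : ℕ} (hg : Gd μ x (j + 1) e1)
    (hu : ∀ e, e1 ≤ e → |u e| ≤ th (j + 1)) : Qt μ y j e1 := by
  intro e he hμ
  refine ⟨fun hd hr => ?_, fun hd hr => ?_⟩
  · rw [h.ord_fw hd ((hu e he).trans (th_anti hr)) (hg e he hr)]
    exact hg e he hr hμ
  · have := stp_dump (ε := 1) (by norm_num) (AA_nonneg (n := n) (μ := μ) (y := y) e)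
      (AA_le_one e) hd (u := u e) (x := x e)
      ((hu e he).trans (by rw [← th_succ]; exact th_anti (by omega)))
      ((hg e he (by omega) hμ).trans (by norm_num))
    rwa [h e] at this

theorem Sol.fin_fw (h : Sol n μ u x y) (h1 : V1 μ x) (h2 : V2 μ) (k : ℕ) :
    ∀ᶠ e in atTop, row e = k → y e = x e := by
  have hu : ∀ j, ∀ᶠ e in atTop, |u e| ≤ th j := by
    intro j
    obtain ⟨e1, hg⟩ := h1.gd (j + 1)
    exact red_fw (per_of_gd (by norm_num) hg) (full_of_gd (by norm_num) h2 hg) h.fw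
  have hq : ∀ j, ∃ e1, Qt μ y j e1 := by
    intro j
    obtain ⟨e1, hg⟩ := h1.gd (j + 1)
    obtain ⟨e2, he2⟩ := eventually_atTop.1 (hu (j + 1))
    exact ⟨max e1 e2, h.qt_fw (fun e he => hg e ((le_max_left _ _).trans he))
      fun e he => he2 e ((le_max_right _ _).trans he)⟩
  filter_upwards [(close_ev (n := n) h2 hq k).2, hu k, h1 k] with e h3 h4 h5 hr
  cases hd : deep e
  · exact h.ord_fw hd (hr ▸ h4) fun hμ => (h5 hr hμ).trans (by norm_num)
  · exact h.eq_of_zero (h3 hd hr)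

theorem Sol.small_bw (h : Sol n μ u x y) (h2 : V2 μ) {j e1 : ℕ} (hg : Gd μ y (j + 1) e1)
    {e : ℕ} (he : e1 ≤ e) : |u e| ≤ th j := by
  obtain ⟨p0, hp⟩ := red_bw (per_of_gd (ε := -1) (n := n) (y := y) (by norm_num) hg)
    (full_of_gd (by norm_num) h2 hg) he
  exact hp p0 le_rfl u (h.bsol e p0)

theorem Sol.fin_bw (h : Sol n μ u x y) (h1 : V1 μ y) (h2 : V2 μ) (k : ℕ) :
    ∀ᶠ e in atTop, row e = k → y e = x e := by
  have hq : ∀ j, ∃ e1, Qt μ y j e1 := fun j => (h1.gd (j + 1)).imp fun _ hg => hg.qt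
  obtain ⟨e1, hg⟩ := h1.gd (k + 1)
  filter_upwards [(close_ev (n := n) h2 hq k).2, eventually_ge_atTop e1] with e h3 h4 hr
  cases hd : deep e
  · exact h.ord_bw hd (hr ▸ h.small_bw h2 hg (by omega)) (hg e h4 (by omega))
  · exact h.eq_of_zero (h3 hd hr)

theorem Sol.unif_fw (h : Sol n μ u x y) {j : ℕ} (hg : Gd μ x (j + 2) 0)
    (hu : |u 0| ≤ th (j + 1)) (hn : j < n) {e : ℕ} (hr : row e ≤ j) : y e = x e := by
  have hu' : ∀ e, 0 ≤ e → |u e| ≤ th (j + 1) := fun e he => by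
    simpa using pers_fw (per_of_gd (by norm_num) hg) h.fw le_rfl he (l := th (j + 1))
      (le_max_of_le_left hu)
  have hg' : Gd μ x (j + 1) 0 := fun e he hr => hg e he (by omega)
  cases hd : deep e
  · exact h.ord_fw hd ((hu' e (Nat.zero_le _)).trans (th_anti (by omega)))
      (hg e (Nat.zero_le _) (by omega))
  · exact h.eq_of_zero (close_all (h.qt_fw hg' hu') hn e hd hr)

theorem Sol.unif_bw (h : Sol n μ u x y) (h2 : V2 μ) {j : ℕ} (hg : Gd μ y (j + 1) 0)
    (hn : j < n) {e : ℕ} (hr : row e ≤ j) : y e = x e := by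
  cases hd : deep e
  · exact h.ord_bw hd ((h.small_bw h2 hg (Nat.zero_le _)).trans (th_anti hr))
      (hg e (Nat.zero_le _) (by omega))
  · exact h.eq_of_zero (close_all hg.qt hn e hd hr)

theorem Sol.unique_fw {u' y' : ℕ → ℝ} (h : Sol n μ u x y) (h' : Sol n μ u' x y')
    (h0 : u 0 = u' 0) : y = y' := by
  have key : ∀ e, u e = u' e ∧ ∀ i < e, y i = y' i := by
    intro e
    induction e with
    | zero => exact ⟨h0, fun i hi => absurd hi (Nat.not_lt_zero i)⟩
    | succ e ih =>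
      have a := h e
      rw [AA_congr n μ ih.2, ih.1, h' e] at a
      refine ⟨(congrArg Prod.fst a).symm, fun i hi => ?_⟩
      rcases Nat.lt_succ_iff_lt_or_eq.1 hi with hi | rfl
      · exact ih.2 i hi
      · exact (congrArg Prod.snd a).symm
  exact funext fun e => (key (e + 1)).2 e (Nat.lt_succ_self e)

end

end Pool.Agent.Lib.MP_318f17_gt
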