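import Pool.Agent.Lib.MP_318f17_gt.Row

/-!
The control of one row: the soft guess tree and the flips of the pointers.
-/

set_option autoImplicit false

namespace Pool.Agent.Lib.MP_318f17_gt

open Filter Topology Set

/-- The gate opening the children of a node. -/
noncomputable def gate (Z : ℕ → List ℕ → ℝ) (σ : List ℕ) (m : ℕ) : ℝ :=
  1 - ∏ i ∈ Finset.range m, (1 - ramp 3 4 |Z i σ|)

/-- The factor killing a node. -/
noncomputable def alive (Z : ℕ → List ℕ → ℝ) (σ : List ℕ) (m : ℕ) : ℝ :=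
  ∏ i ∈ Finset.range m, (1 - ramp 4 5 |Z i σ|)

/-- The degree to which a node has been reached. -/
noncomputable def rho (Z : ℕ → List ℕ → ℝ) : List ℕ → ℕ → ℝ
  | [], _ => 1
  | i :: σ, m => if i < m then rho Z σ m * ramp 1 2 |Z i σ| *
      (∏ j ∈ Finset.range i, (1 - ramp 2 3 |Z j σ|)) * gate Z σ m else 0

/-- The activity of a node at a given time. -/
noncomputable def mu (Z : ℕ → List ℕ → ℝ) (σ : List ℕ) (m : ℕ) : ℝ := rho Z σ m * alive Z σ m

/-- The badness of an active test. -/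
noncomputable def cf (Z : ℕ → List ℕ → ℝ) (q : List ℕ → ℕ → ℝ) (σ : List ℕ) (m : ℕ) : ℝ :=
  mu Z σ m * ramp (1 / 2) 1 |q σ m|

/-- A window function. -/
noncomputable def hh (s : ℝ) : ℝ := ramp (1 / 2) 1 s * (1 - ramp 2 4 s)

/-- The flip at a node of the flip tree. -/
noncomputable def tv (c : ℕ → ℝ) : List ℕ → ℝ
  | [] => 1
  | a :: u => (if u.length ≤ a.unpair.1 then hh (2 ^ a.unpair.2 * c a.unpair.1) else 0) * tv c u

/-- The flip of a pointer. -/
noncomputable def tp (Z : ℕ → List ℕ → ℝ) (q : List ℕ → ℕ → ℝ) (i : ℕ) (σ : List ℕ) : ℝ :=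
  tv (cf Z q σ) (uf i)

/-- The test values. -/
def tests (x : S0 → ℝ) (σ : List ℕ) (m : ℕ) : ℝ := x (σ, Sum.inl m)

/-- The recursion for the normal form of the pointers. -/
noncomputable def PhiZ (x : S0 → ℝ) (Z : ℕ → List ℕ → ℝ) (i : ℕ) (σ : List ℕ) : ℝ :=
  x (σ, Sum.inr i) - 6 * tp Z (tests x) i σ

/-- The normal form of the pointers. -/
noncomputable def zeta (x : S0 → ℝ) : ℕ → List ℕ → ℝ := cfix (PhiZ x)

/-- New test values with the same normal form. -/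
noncomputable def Re (x : S0 → ℝ) (q : List ℕ → ℕ → ℝ) : S0 → ℝ
  | (σ, .inl m) => q σ m
  | (σ, .inr i) => zeta x i σ + 6 * tp (zeta x) q i σ

theorem prod_ramp_nonneg (s : Finset ℕ) (a b : ℝ) (f : ℕ → ℝ) :
    0 ≤ ∏ i ∈ s, (1 - ramp a b (f i)) :=
  Finset.prod_nonneg fun _ _ => sub_nonneg.2 (ramp_le_one _ _ _)

theorem prod_ramp_le_one (s : Finset ℕ) (a b : ℝ) (f : ℕ → ℝ) :
    ∏ i ∈ s, (1 - ramp a b (f i)) ≤ 1 :=
  Finset.prod_le_one (fun _ _ => sub_nonneg.2 (ramp_le_one _ _ _))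
    fun _ _ => sub_le_self _ (ramp_nonneg _ _ _)

theorem rho_mem (Z : ℕ → List ℕ → ℝ) (σ : List ℕ) (m : ℕ) : 0 ≤ rho Z σ m ∧ rho Z σ m ≤ 1 := by
  induction σ with
  | nil => exact ⟨zero_le_one, le_rfl⟩
  | cons i σ ih =>
    rw [rho]
    split_ifs
    · have a1 := ramp_nonneg 1 2 |Z i σ|
      have a2 := ramp_le_one 1 2 |Z i σ|
      have b1 := prod_ramp_nonneg (Finset.range i) 2 3 fun j => |Z j σ|
      have b2 := prod_ramp_le_one (Finset.range i) 2 3 fun j => |Z j σ|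
      have c1 : 0 ≤ gate Z σ m := sub_nonneg.2 (prod_ramp_le_one _ _ _ _)
      have c2 : gate Z σ m ≤ 1 := sub_le_self _ (prod_ramp_nonneg _ _ _ _)
      exact ⟨mul_nonneg (mul_nonneg (mul_nonneg ih.1 a1) b1) c1,
        mul_le_one₀ (mul_le_one₀ (mul_le_one₀ ih.2 a1 a2) b1 b2) c1 c2⟩
    · exact ⟨le_rfl, zero_le_one⟩

theorem cf_mem (Z : ℕ → List ℕ → ℝ) (q : List ℕ → ℕ → ℝ) (σ : List ℕ) (m : ℕ) :
    0 ≤ cf Z q σ m ∧ cf Z q σ m ≤ 1 := by
  have a := rho_mem Z σ m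
  have b1 : 0 ≤ alive Z σ m := prod_ramp_nonneg _ _ _ _
  have b2 : alive Z σ m ≤ 1 := prod_ramp_le_one _ _ _ _
  exact ⟨mul_nonneg (mul_nonneg a.1 b1) (ramp_nonneg _ _ _),
    mul_le_one₀ (mul_le_one₀ a.2 b1 b2) (ramp_nonneg _ _ _) (ramp_le_one _ _ _)⟩

theorem cf_eq_zero {Z : ℕ → List ℕ → ℝ} {q : List ℕ → ℕ → ℝ} {σ : List ℕ} {m : ℕ}
    (h : cf Z q σ m = 0) (hμ : mu Z σ m ≠ 0) : |q σ m| ≤ 1 / 2 := by
  by_contra hc
  exact (ramp_pos (by norm_num) (not_le.1 hc)).ne' ((mul_eq_zero.1 h).resolve_left hμ)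

theorem hh_mem (s : ℝ) : 0 ≤ hh s ∧ hh s ≤ 1 :=
  ⟨mul_nonneg (ramp_nonneg _ _ _) (sub_nonneg.2 (ramp_le_one _ _ _)),
    mul_le_one₀ (ramp_le_one _ _ _) (sub_nonneg.2 (ramp_le_one _ _ _))
      (sub_le_self _ (ramp_nonneg _ _ _))⟩

theorem hh_ne {s : ℝ} (h : hh s ≠ 0) : 1 / 2 < s ∧ s < 4 :=
  ⟨lt_of_ramp_ne (by norm_num) (left_ne_zero_of_mul h),
    lt_of_ramp_ne_one (a := 2) (by norm_num) fun h' =>
      right_ne_zero_of_mul h (by rw [h', sub_self])⟩

theorem hh_one {s : ℝ} (h1 : 1 ≤ s) (h2 : s ≤ 2) : hh s = 1 := by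
  rw [hh, ramp_of_ge (by norm_num) h1, ramp_of_le (by norm_num) h2]; simp

theorem tv_mem (c : ℕ → ℝ) (u : List ℕ) : 0 ≤ tv c u ∧ tv c u ≤ 1 := by
  induction u with
  | nil => exact ⟨zero_le_one, le_rfl⟩
  | cons a u ih =>
    rw [tv]
    split_ifs
    · exact ⟨mul_nonneg (hh_mem _).1 ih.1, mul_le_one₀ (hh_mem _).2 ih.1 ih.2⟩
    · simp

theorem tv_ne {c : ℕ → ℝ} {a : ℕ} {u : List ℕ} (h : tv c (a :: u) ≠ 0) :
    u.length ≤ a.unpair.1 ∧ 1 / 2 < 2 ^ a.unpair.2 * c a.unpair.1 ∧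
      2 ^ a.unpair.2 * c a.unpair.1 < 4 ∧ tv c u ≠ 0 := by
  rw [tv] at h
  have h1 := left_ne_zero_of_mul h
  split_ifs at h1 with h2
  · exact ⟨h2, (hh_ne h1).1, (hh_ne h1).2, right_ne_zero_of_mul h⟩
  · exact (h1 rfl).elim

theorem ne_of_half_le {k : ℕ} {t : ℝ} (h : 1 / 2 ≤ 2 ^ k * t) : t ≠ 0 := by
  rintro rfl
  norm_num at h

theorem rho_congr {Z Z' : ℕ → List ℕ → ℝ} {m : ℕ} (h : ∀ i < m, Z i = Z' i) (σ : List ℕ) :
    rho Z σ m = rho Z' σ m := by
  induction σ with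
  | nil => rfl
  | cons i σ ih =>
    rw [rho, rho]
    split_ifs with hi
    · rw [ih, h i hi, gate, gate]
      congr 2
      · exact Finset.prod_congr rfl fun j hj => by rw [h j ((Finset.mem_range.1 hj).trans hi)]
      · exact Finset.prod_congr rfl fun j hj => by rw [h j (Finset.mem_range.1 hj)]
    · rfl

theorem tv_congr {c c' : ℕ → ℝ} {u : List ℕ} (h : ∀ a ∈ u, c a.unpair.1 = c' a.unpair.1) :
    tv c u = tv c' u := by
  induction u with
  | nil => rfl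
  | cons a u ih =>
    rw [tv, tv, h a List.mem_cons_self, ih fun b hb => h b (List.mem_cons_of_mem _ hb)]

theorem causal_PhiZ (x : S0 → ℝ) : Causal (PhiZ x) := by
  intro Z Z' i h
  funext σ
  unfold PhiZ tp
  rw [tv_congr fun a ha => ?_]
  have h1 : a.unpair.1 ≤ i := (Nat.unpair_left_le a).trans (le_of_mem_uf ha)
  have h2 : ∀ j < a.unpair.1, Z j = Z' j := fun j hj => h j (by omega)
  rw [cf, cf, mu, mu, rho_congr h2, alive, alive]
  congr 2
  exact Finset.prod_congr rfl fun j hj => by rw [h2 j (Finset.mem_range.1 hj)]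

theorem zeta_eq (x : S0 → ℝ) (σ : List ℕ) (i : ℕ) :
    x (σ, Sum.inr i) = zeta x i σ + 6 * tp (zeta x) (tests x) i σ := by
  have : x (σ, Sum.inr i) - 6 * tp (zeta x) (tests x) i σ = zeta x i σ :=
    congrFun ((causal_PhiZ x).fix_eq i) σ
  linarith

theorem tests_Re (x : S0 → ℝ) (q : List ℕ → ℕ → ℝ) : tests (Re x q) = q := rfl

theorem zeta_Re (x : S0 → ℝ) (q : List ℕ → ℕ → ℝ) : zeta (Re x q) = zeta x := by
  refine (causal_PhiZ (Re x q)).unique (causal_PhiZ (Re x q)).fix_eq fun i => ?_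
  funext σ
  simp only [PhiZ, tests_Re, Re]
  ring

theorem eq_of_zeta {x y : S0 → ℝ} (h1 : zeta x = zeta y) (h2 : tests x = tests y) : x = y := by
  funext ⟨σ, s⟩
  cases s with
  | inl m => exact congrFun (congrFun h2 σ) m
  | inr i => rw [zeta_eq x, zeta_eq y, h1, h2]

section Cont

variable {P : Type*} [TopologicalSpace P]

theorem continuous_mu {Z : P → ℕ → List ℕ → ℝ} (hZ : Continuous Z) (σ : List ℕ) (m : ℕ) :
    Continuous fun π => mu (Z π) σ m := by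
  have hp : ∀ (s : Finset ℕ) a b σ, Continuous fun π => ∏ i ∈ s, (1 - ramp a b |Z π i σ|) :=
    fun s a b σ => continuous_finsetProd _ fun i _ => by fun_prop
  refine Continuous.mul ?_ (hp _ _ _ _)
  induction σ with
  | nil => exact continuous_const
  | cons i σ ih =>
    simp only [rho]
    split_ifs
    · exact ((ih.mul (by fun_prop)).mul (hp _ _ _ _)).mul (continuous_const.sub (hp _ _ _ _))
    · exact continuous_const

theorem continuous_cf {Z : P → ℕ → List ℕ → ℝ} {q : P → List ℕ → ℕ → ℝ} (hZ : Continuous Z)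
    (hq : Continuous q) (σ : List ℕ) (m : ℕ) : Continuous fun π => cf (Z π) (q π) σ m :=
  (continuous_mu hZ σ m).mul (by fun_prop)

theorem continuous_tp {Z : P → ℕ → List ℕ → ℝ} {q : P → List ℕ → ℕ → ℝ} (hZ : Continuous Z)
    (hq : Continuous q) (i : ℕ) (σ : List ℕ) : Continuous fun π => tp (Z π) (q π) i σ := by
  unfold tp
  induction uf i with
  | nil => exact continuous_const
  | cons a u ih =>
    simp only [tv]
    refine Continuous.mul ?_ ih
    split_ifs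
    · have := continuous_cf hZ hq σ a.unpair.1
      unfold hh
      fun_prop
    · exact continuous_const

theorem continuous_tests : Continuous tests := by
  unfold tests; fun_prop

theorem continuous_zeta : Continuous zeta := by
  refine continuous_cfix PhiZ (continuous_pi fun i => continuous_pi fun σ => ?_)
  exact Continuous.sub (by fun_prop) (continuous_const.mul
    (continuous_tp continuous_snd (continuous_tests.comp continuous_fst) i σ))

theorem continuous_Re {x : P → S0 → ℝ} {q : P → List ℕ → ℕ → ℝ} (hx : Continuous x)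
    (hq : Continuous q) : Continuous fun π => Re (x π) (q π) := by
  refine continuous_pi fun ⟨σ, s⟩ => ?_
  have hz := continuous_zeta.comp hx
  cases s with
  | inl m => simp only [Re]; fun_prop
  | inr i =>
    exact ((continuous_apply σ).comp ((continuous_apply i).comp hz)).add
      (continuous_const.mul (continuous_tp hz hq i σ))

end Cont

/-- No branch of the guess tree has large pointers throughout. -/
def W1 (Z : ℕ → List ℕ → ℝ) : Prop := ¬ ∃ γ : ℕ → ℕ, ∀ j, 1 ≤ |Z (γ j) (br γ j)|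

/-- Every node has finitely many bad active tests. -/
def W2 (Z : ℕ → List ℕ → ℝ) (q : List ℕ → ℕ → ℝ) : Prop := ∀ σ, {m | cf Z q σ m ≠ 0}.Finite

theorem W1_of_U2 {x : S0 → ℝ} (h : U2 (1 / 2) x) : W1 (zeta x) := by
  rintro ⟨γ, hγ⟩
  obtain ⟨j, h1, h2⟩ := h γ
  have h3 : tp (zeta x) (tests x) (γ j) (br γ j) = 0 := by
    by_contra hc
    have := ne_of_half_le (tv_ne hc).2.1.le
    exact this (mul_eq_zero_of_right _ (ramp_of_le (by norm_num) h2.le))
  rw [zeta_eq x, h3, mul_zero, add_zero] at h1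
  linarith [hγ j]

theorem exists_pow_window {t : ℝ} (h0 : 0 < t) (h1 : t ≤ 1) : ∃ k : ℕ, 1 ≤ 2 ^ k * t ∧ 2 ^ k * t ≤ 2 := by
  classical
  have hex : ∃ k : ℕ, 1 ≤ 2 ^ k * t :=
    (((tendsto_pow_atTop_atTop_of_one_lt one_lt_two).atTop_mul_const h0).eventually_ge_atTop
      1).exists
  refine ⟨Nat.find hex, Nat.find_spec hex, ?_⟩
  cases hk : Nat.find hex with
  | zero => simp; linarith
  | succ k =>
    have := Nat.find_min hex (show k < Nat.find hex by omega)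
    rw [pow_succ]
    linarith [not_le.1 this]

theorem W2_of_U1 {x : S0 → ℝ} (h : U1 1 x) : W2 (zeta x) (tests x) := by
  intro σ
  by_contra hinf
  have h1 : ∀ j : ℕ, ∃ a : ℕ, j ≤ a.unpair.1 ∧
      hh (2 ^ a.unpair.2 * cf (zeta x) (tests x) σ a.unpair.1) = 1 := by
    intro j
    obtain ⟨m, hm, hj⟩ := Set.Infinite.exists_gt hinf j
    obtain ⟨k, hk⟩ := exists_pow_window (lt_of_le_of_ne (cf_mem _ _ σ m).1 (Ne.symm hm))
      (cf_mem _ _ σ m).2
    exact ⟨Nat.pair m k, by simpa using hj.le, by simpa using hh_one hk.1 hk.2⟩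
  choose φ hφ using h1
  have h2 : ∀ j, tv (cf (zeta x) (tests x) σ) (br φ j) = 1 := by
    intro j
    induction j with
    | zero => rfl
    | succ j ih => rw [br_succ, tv, if_pos (by simpa using (hφ j).1), (hφ j).2, ih, one_mul]
  obtain ⟨j, hj⟩ := h σ φ
  rw [zeta_eq x, tp, uf_idx, ← br_succ, h2, abs_lt] at hj
  have h3 : 5 ≤ |zeta x (idx (br φ j) (φ j)) σ| := le_abs'.2 (Or.inl (by linarith [hj.2]))
  apply hinf
  refine (finite_Iic (idx (br φ j) (φ j))).subset fun m hm => ?_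
  by_contra hc
  apply hm
  rw [cf, mu, alive, Finset.prod_eq_zero (Finset.mem_range.2 (not_le.1 hc))
    (by rw [ramp_of_ge (by norm_num) h3, sub_self]), mul_zero, zero_mul]

theorem rho_ne {Z : ℕ → List ℕ → ℝ} {i m : ℕ} {σ : List ℕ} (h : rho Z (i :: σ) m ≠ 0) :
    rho Z σ m ≠ 0 ∧ 1 < |Z i σ| ∧ (∀ j < i, |Z j σ| < 3) ∧ ∃ j, 3 < |Z j σ| := by
  rw [rho] at h
  split_ifs at h
  · have h1 := left_ne_zero_of_mul h
    have h2 := left_ne_zero_of_mul h1
    refine ⟨left_ne_zero_of_mul h2, lt_of_ramp_ne one_lt_two (right_ne_zero_of_mul h2),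
      fun j hj => ?_, ?_⟩
    · refine lt_of_ramp_ne_one (a := 2) (by norm_num) fun h3 => right_ne_zero_of_mul h1 ?_
      exact Finset.prod_eq_zero (Finset.mem_range.2 hj) (by rw [h3, sub_self])
    · by_contra hc
      push Not at hc
      apply right_ne_zero_of_mul h
      rw [gate, Finset.prod_eq_one fun j _ => by rw [ramp_of_le (by norm_num) (hc j), sub_zero],
        sub_self]
  · exact (h rfl).elim

theorem act_of_rho {Z : ℕ → List ℕ → ℝ} {m : ℕ} {σ : List ℕ} (h : rho Z σ m ≠ 0) :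
    Act (fun s a => 1 ≤ |Z a s|) σ := by
  induction σ with
  | nil => trivial
  | cons i σ ih => exact ⟨(rho_ne h).2.1.le, ih (rho_ne h).1⟩

theorem finite_active {Z : ℕ → List ℕ → ℝ} (h : W1 Z) : {σ | ∃ m, mu Z σ m ≠ 0}.Finite := by
  refine (koenig {σ | ∃ m, rho Z σ m ≠ 0} ?_ ?_ (fun s a => 1 ≤ |Z a s|) h).subset ?_
  · rintro s t hst ⟨m, hm⟩
    induction t with
    | nil => rw [List.suffix_nil.1 hst]; exact ⟨m, hm⟩
    | cons a t ih =>
      rcases List.suffix_cons_iff.1 hst with rfl | h1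
      · exact ⟨m, hm⟩
      · exact ih h1 (rho_ne hm).1
  · intro s
    by_cases hj : ∃ j, 3 < |Z j s|
    · obtain ⟨j, hj⟩ := hj
      refine (finite_Iic j).subset ?_
      rintro a ⟨m, hm⟩
      by_contra hc
      linarith [(rho_ne hm).2.2.1 j (not_le.1 hc)]
    · refine finite_empty.subset ?_
      rintro a ⟨m, hm⟩
      exact hj (rho_ne hm).2.2.2
  · rintro σ ⟨m, hm⟩
    exact ⟨⟨m, left_ne_zero_of_mul hm⟩, act_of_rho (left_ne_zero_of_mul hm)⟩

theorem exists_final {Z : ℕ → List ℕ → ℝ} (h : W1 Z) : ∃ σ, ∀ᶠ m in atTop, mu Z σ m = 1 := by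
  classical
  by_contra hc
  push Not at hc
  refine h (exists_branch (fun σ => ∀ᶠ m in atTop, rho Z σ m = 1) (fun s a => 1 ≤ |Z a s|)
    (Eventually.of_forall fun _ => rfl) fun σ hσ => ?_)
  have h1 : ∃ i, 4 < |Z i σ| := by
    by_contra h2
    push Not at h2
    refine (hc σ) (hσ.mono fun m hm => not_not.2 ?_)
    rw [mu, hm, alive, Finset.prod_eq_one fun j _ => by
      rw [ramp_of_le (by norm_num) (h2 j), sub_zero], one_mul]
  obtain ⟨i, hi⟩ := h1
  have hex : ∃ j, 2 < |Z j σ| := ⟨i, by linarith⟩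
  have h2 := Nat.find_spec hex
  refine ⟨Nat.find hex, ?_, by linarith⟩
  filter_upwards [hσ, eventually_gt_atTop i, eventually_gt_atTop (Nat.find hex)] with m h3 h4 h5
  rw [rho, if_pos h5, h3, ramp_of_ge one_lt_two h2.le, Finset.prod_eq_one fun j hj => by
    rw [ramp_of_le (by norm_num) (not_lt.1 (Nat.find_min hex (Finset.mem_range.1 hj))), sub_zero],
    gate, Finset.prod_eq_zero (Finset.mem_range.2 h4)
      (by rw [ramp_of_ge (by norm_num) hi.le, sub_self])]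
  norm_num

theorem bad_finite {Z : ℕ → List ℕ → ℝ} {q : List ℕ → ℕ → ℝ} (h1 : W1 Z) (h2 : W2 Z q) :
    {m | ∃ σ, cf Z q σ m ≠ 0}.Finite := by
  refine ((finite_active h1).biUnion fun σ _ => h2 σ).subset ?_
  rintro m ⟨σ, hσ⟩
  exact mem_biUnion (show σ ∈ {σ | ∃ m, mu Z σ m ≠ 0} from ⟨m, left_ne_zero_of_mul hσ⟩) hσ

/-- The steps of the flip tree that may be active. -/
def FC (c : ℕ → ℝ) (u : List ℕ) (a : ℕ) : Prop :=
  u.length ≤ a.unpair.1 ∧ 1 / 2 ≤ 2 ^ a.unpair.2 * c a.unpair.1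

theorem act_of_tv {c : ℕ → ℝ} {u : List ℕ} (h : tv c u ≠ 0) : Act (FC c) u := by
  induction u with
  | nil => trivial
  | cons a u ih => exact ⟨⟨(tv_ne h).1, (tv_ne h).2.1.le⟩, ih (tv_ne h).2.2.2⟩

theorem no_flip_branch {c : ℕ → ℝ} (h : {m | c m ≠ 0}.Finite) :
    ¬ ∃ φ : ℕ → ℕ, ∀ j, FC c (br φ j) (φ j) := by
  rintro ⟨φ, hφ⟩
  obtain ⟨b, hb⟩ := h.bddAbove
  have h1 := (hφ (b + 1)).1
  have h2 := hb (ne_of_half_le (hφ (b + 1)).2)
  rw [length_br] at h1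
  omega

theorem tv_finite {c : ℕ → ℝ} (h : {m | c m ≠ 0}.Finite) : {u | tv c u ≠ 0}.Finite := by
  refine (koenig {u | tv c u ≠ 0} ?_ ?_ _ (no_flip_branch h)).subset fun u hu =>
    ⟨hu, act_of_tv hu⟩
  · intro s t hst ht
    induction t with
    | nil => rw [List.suffix_nil.1 hst]; exact ht
    | cons a t ih =>
      rcases List.suffix_cons_iff.1 hst with rfl | h1
      · exact ht
      · exact ih h1 (tv_ne ht).2.2.2
  · intro s
    have h1 : ∀ m, {k : ℕ | 1 / 2 < 2 ^ k * c m ∧ 2 ^ k * c m < 4}.Finite := by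
      intro m
      rcases le_or_gt (c m) 0 with h0 | h0
      · refine finite_empty.subset ?_
        rintro k ⟨h2, _⟩
        have : 2 ^ k * c m ≤ 0 := mul_nonpos_of_nonneg_of_nonpos (by positivity) h0
        linarith
      · obtain ⟨b, hb⟩ := eventually_atTop.1
          (((tendsto_pow_atTop_atTop_of_one_lt one_lt_two).atTop_mul_const
            h0).eventually_ge_atTop 4)
        refine (finite_Iio b).subset ?_
        rintro k ⟨_, h2⟩
        by_contra hc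
        linarith [hb k (not_lt.1 hc)]
    refine (h.biUnion fun m _ => (h1 m).image (Nat.pair m)).subset fun a ha => ?_
    have h2 := tv_ne ha
    exact mem_biUnion (show a.unpair.1 ∈ {m | c m ≠ 0} from ne_of_half_le h2.2.1.le)
      ⟨a.unpair.2, ⟨h2.2.1, h2.2.2.1⟩, Nat.pair_unpair a⟩

theorem mu_of_tp {Z : ℕ → List ℕ → ℝ} {q : List ℕ → ℕ → ℝ} {i : ℕ} {σ : List ℕ}
    (h : tp Z q i σ ≠ 0) : ∃ m, mu Z σ m ≠ 0 :=
  ⟨_, left_ne_zero_of_mul (ne_of_half_le (tv_ne h).2.1.le)⟩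

theorem tp_finite {Z : ℕ → List ℕ → ℝ} {q : List ℕ → ℕ → ℝ} (h1 : W1 Z) (h2 : W2 Z q) :
    {s : List ℕ × ℕ | tp Z q s.2 s.1 ≠ 0}.Finite := by
  refine ((finite_active h1).biUnion fun σ _ =>
    ((tv_finite (h2 σ)).preimage uf_injective.injOn).image (Prod.mk σ)).subset ?_
  rintro ⟨σ, i⟩ hs
  exact mem_biUnion (show σ ∈ {σ | ∃ m, mu Z σ m ≠ 0} from mu_of_tp hs) ⟨i, hs, rfl⟩

theorem local_finite {P : Type*} [TopologicalSpace P] {Z : P → ℕ → List ℕ → ℝ}
    {q : P → List ℕ → ℕ → ℝ} (hZ : Continuous Z) (hq : Continuous q) {A : Set S0} (hA : OStr A)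
    (π0 : P) (h1 : W1 (Z π0)) (h2 : W2 (Z π0) (q π0)) :
    ∃ Φ : Set S0, Φ.Finite ∧ ∀ᶠ π in 𝓝 π0,
      (∀ σ m, (σ, Sum.inl m) ∈ A → mu (Z π) σ m ≠ 0 → (σ, Sum.inl m) ∈ Φ) ∧
      (∀ σ i, (σ, Sum.inr i) ∈ A → tp (Z π) (q π) i σ ≠ 0 → (σ, Sum.inr i) ∈ Φ) := by
  obtain ⟨Φ2, hΦ2, hev2⟩ := tlf (𝓝 π0) {s | ∃ x ∈ A, s <:+ x.1}
    (fun s t hst ⟨x, hx, h⟩ => ⟨x, hx, hst.trans h⟩) hA.o1
    (fun π s a => 1 ≤ |Z π a s|) (fun s a => 1 ≤ |Z π0 a s|) (fun s a h => by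
      have hc : Continuous fun π => |Z π a s| := by fun_prop
      exact (hc.continuousAt.eventually (gt_mem_nhds (not_le.1 h))).mono fun π h => not_le.2 h) h1
  have hfl := fun σ => tlf (𝓝 π0) {s | ∃ i, (σ, Sum.inr i) ∈ A ∧ s <:+ um i}
    (fun s t hst ⟨x, hx, h⟩ => ⟨x, hx, hst.trans h⟩) (hA.o2 σ)
    (fun π => FC (cf (Z π) (q π) σ)) (FC (cf (Z π0) (q π0) σ)) (fun s a h => by
      by_cases hl : s.length ≤ a.unpair.1
      · have hc : Continuous fun π => 2 ^ a.unpair.2 * cf (Z π) (q π) σ a.unpair.1 :=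
          continuous_const.mul (continuous_cf hZ hq σ _)
        exact (hc.continuousAt.eventually (gt_mem_nhds (not_le.1 fun h' => h ⟨hl, h'⟩))).mono
          fun π h h' => not_le.2 h h'.2
      · exact Eventually.of_forall fun π h' => hl h'.1) (no_flip_branch (h2 σ))
  choose Φ1 hΦ1 hev1 using hfl
  refine ⟨⋃ σ ∈ Φ2, ((fun m => (σ, Sum.inl m)) '' {m | (σ, Sum.inl m) ∈ A} ∪
    ⋃ u ∈ Φ1 σ, (fun i => (σ, Sum.inr i)) '' {i | (σ, Sum.inr i) ∈ A ∧ um i = u}),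
    hΦ2.biUnion fun σ _ => ((hA.o3 σ).image _).union
      ((hΦ1 σ).biUnion fun u _ => (hA.o4 σ u).image _), ?_⟩
  filter_upwards [hev2, (eventually_all_finite hΦ2).2 fun σ _ => hev1 σ] with π a1 a2
  refine ⟨fun σ m b1 b2 => ?_, fun σ i b1 b2 => ?_⟩
  · exact mem_biUnion (a1 σ ⟨_, b1, List.suffix_refl _⟩ (act_of_rho (left_ne_zero_of_mul b2)))
      (Or.inl ⟨m, b1, rfl⟩)
  · obtain ⟨m, hm⟩ := mu_of_tp b2
    have b3 := a1 σ ⟨_, b1, List.suffix_refl _⟩ (act_of_rho (left_ne_zero_of_mul hm))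
    refine mem_biUnion b3 (Or.inr (mem_biUnion (a2 σ b3 (um i) ⟨i, b1, List.suffix_refl _⟩
      (act_of_tv (tv_ne b2).2.2.2)) ⟨i, ⟨b1, rfl⟩, rfl⟩))

end Pool.Agent.Lib.MP_318f17_gt
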