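import Pool.Agent.Lib.MP_318f17_gt.Control
import Pool.Agent.Lib.MP_318f17_gt.Back

/-!
The homeomorphism on the level of data.
-/

set_option autoImplicit false

namespace Pool.Agent.Lib.MP_318f17_gt

open Filter Topology Set

/-- Data: a value for each row and site. -/
abbrev Dat : Type := ℕ → S0 → ℝ

/-- Valid data. -/
def Valid (x : Dat) : Prop := ∀ k, W1 (zeta (x k)) ∧ W2 (zeta (x k)) (tests (x k))

/-- The control seen by chain `n`. -/
noncomputable def cmu (x : Dat) (n e : ℕ) : ℝ := mu (zeta (x (row e))) (node e) (Nat.pair n e)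

/-- The values seen by chain `n`. -/
noncomputable def cx (x : Dat) (n e : ℕ) : ℝ := tests (x (row e)) (node e) (Nat.pair n e)

/-- New test values of a row, from new values of the chains. -/
noncomputable def newq (x : Dat) (y : ℕ → ℕ → ℝ) (k : ℕ) (σ : List ℕ) (m : ℕ) : ℝ :=
  if row m.unpair.2 = k ∧ node m.unpair.2 = σ then y m.unpair.1 m.unpair.2 else tests (x k) σ m

/-- New data from new values of the chains. -/
noncomputable def put (x : Dat) (y : ℕ → ℕ → ℝ) : Dat := fun k => Re (x k) (newq x y k)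

theorem cmu_put (x : Dat) (y : ℕ → ℕ → ℝ) : cmu (put x y) = cmu x := by
  funext n e
  rw [cmu, put, zeta_Re, cmu]

theorem cx_put (x : Dat) (y : ℕ → ℕ → ℝ) : cx (put x y) = y := by
  funext n e
  simp [cx, put, tests_Re, newq]

theorem put_put (x : Dat) (y : ℕ → ℕ → ℝ) : put (put x y) (cx x) = x := by
  funext k
  refine eq_of_zeta (by rw [put, zeta_Re, put, zeta_Re]) ?_
  funext σ m
  rw [put, tests_Re, newq, put, tests_Re, newq]
  split_ifs with h
  · rw [cx, h.1, h.2, Nat.pair_unpair]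
  · rfl

section

variable {x : Dat} (hx : Valid x)
include hx

theorem Valid.good (j : ℕ) : ∃ b, ∀ n e, b ≤ Nat.pair n e → row e ≤ j → cmu x n e ≠ 0 →
    |cx x n e| ≤ 1 / 2 := by
  obtain ⟨b, hb⟩ := ((finite_Iic j).biUnion fun k _ => bad_finite (hx k).1 (hx k).2).bddAbove
  refine ⟨b + 1, fun n e h1 h2 h3 => cf_eq_zero (Z := zeta (x (row e))) ?_ h3⟩
  by_contra hc
  have := hb (mem_biUnion (show row e ∈ Iic j from h2) ⟨node e, hc⟩)
  omega

theorem Valid.v1 (n : ℕ) : V1 (cmu x n) (cx x n) := by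
  intro k
  obtain ⟨b, hb⟩ := hx.good k
  filter_upwards [eventually_ge_atTop b] with e he hr
  exact hb n e (he.trans (Nat.right_le_pair n e)) hr.le

theorem Valid.gd (j : ℕ) : ∀ᶠ n in atTop, Gd (cmu x n) (cx x n) j 0 := by
  obtain ⟨b, hb⟩ := hx.good j
  filter_upwards [eventually_ge_atTop b] with n hn e _ hr hμ
  exact (hb n e (hn.trans (Nat.left_le_pair n e)) hr hμ).trans (by norm_num)

theorem Valid.v2 (n : ℕ) : V2 (cmu x n) := by
  intro k b
  obtain ⟨σ, hσ⟩ := exists_final (hx k).1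
  obtain ⟨m0, hm⟩ := eventually_atTop.1 hσ
  refine ((item_spec (k, b, σ)).and_eventually (eventually_ge_atTop m0)).mono ?_
  rintro e ⟨h1, h2⟩
  have a1 : row e = k := by rw [row, h1]
  have a2 : node e = σ := by rw [node, h1]
  refine ⟨a1, by rw [deep, h1], ?_⟩
  rw [cmu, a1, a2]
  exact hm _ (h2.trans (Nat.right_le_pair n e))

end

/-- Related data. -/
structure Rel (a b : Dat) : Prop where
  va : Valid a
  vb : Valid b
  ze : ∀ k, zeta (a k) = zeta (b k)
  ne : ∀ k σ m, tests (a k) σ m ≠ tests (b k) σ m → mu (zeta (a k)) σ m ≠ 0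
  bd : ∀ k σ m, k ≠ 0 → |tests (b k) σ m - tests (a k) σ m| ≤ 32
  fin : ∀ k, {s : List ℕ × ℕ | tests (a k) s.1 s.2 ≠ tests (b k) s.1 s.2}.Finite

theorem Rel.symm {a b : Dat} (h : Rel a b) : Rel b a :=
  ⟨h.vb, h.va, fun k => (h.ze k).symm, fun k σ m hne => h.ze k ▸ h.ne k σ m hne.symm,
    fun k σ m hk => by rw [abs_sub_comm]; exact h.bd k σ m hk,
    fun k => (h.fin k).subset fun _ hs => Ne.symm hs⟩

theorem rel_put {x : Dat} (hx : Valid x) {y : ℕ → ℕ → ℝ}
    (h1 : ∀ n e, y n e ≠ cx x n e → cmu x n e ≠ 0)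
    (h2 : ∀ n e, row e ≠ 0 → |y n e - cx x n e| ≤ 32)
    (h3 : ∀ n k, ∀ᶠ e in atTop, row e = k → y n e = cx x n e)
    (h4 : ∀ k, ∀ᶠ n in atTop, ∀ e, row e = k → y n e = cx x n e) : Rel x (put x y) := by
  have key : ∀ k σ m, tests (x k) σ m ≠ newq x y k σ m → row m.unpair.2 = k ∧
      node m.unpair.2 = σ ∧ tests (x k) σ m = cx x m.unpair.1 m.unpair.2 ∧
      newq x y k σ m = y m.unpair.1 m.unpair.2 := by
    intro k σ m h
    unfold newq at h ⊢
    split_ifs at h ⊢ with hc
    · exact ⟨hc.1, hc.2, by rw [cx, hc.1, hc.2, Nat.pair_unpair], rfl⟩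
    · exact (h rfl).elim
  have hfin : ∀ k, {s : List ℕ × ℕ | tests (x k) s.1 s.2 ≠ newq x y k s.1 s.2}.Finite := by
    intro k
    obtain ⟨n0, hn0⟩ := eventually_atTop.1 (h4 k)
    obtain ⟨e0, he0⟩ := eventually_atTop.1
      ((eventually_all_finite (finite_Iio n0)).2 fun n _ => h3 n k)
    refine (((finite_Iio n0).prod (finite_Iio e0)).image
      fun q => (node q.2, Nat.pair q.1 q.2)).subset ?_
    rintro ⟨σ, m⟩ hs
    obtain ⟨a1, a2, a3, a4⟩ := key k σ m hs
    have a5 : y m.unpair.1 m.unpair.2 ≠ cx x m.unpair.1 m.unpair.2 := by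
      rw [← a3, ← a4]; exact Ne.symm hs
    have a6 : m.unpair.1 < n0 := by
      by_contra hc
      exact a5 (hn0 _ (not_lt.1 hc) _ a1)
    have a7 : m.unpair.2 < e0 := by
      by_contra hc
      exact a5 (he0 _ (not_lt.1 hc) _ a6 a1)
    exact ⟨m.unpair, ⟨a6, a7⟩, by simp [a2]⟩
  refine ⟨hx, fun k => ?_, fun k => (zeta_Re _ _).symm, fun k σ m h => ?_, fun k σ m hk => ?_,
    hfin⟩
  · rw [put, zeta_Re, tests_Re]
    refine ⟨(hx k).1, fun σ => (((hx k).2 σ).union ((hfin k).image Prod.snd)).subset ?_⟩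
    intro m hm
    by_cases h : tests (x k) σ m = newq x y k σ m
    · left
      simp only [mem_ofPred_eq, cf] at hm ⊢
      rwa [h]
    · exact Or.inr ⟨(σ, m), h, rfl⟩
  · obtain ⟨a1, a2, a3, a4⟩ := key k σ m h
    have := h1 m.unpair.1 m.unpair.2 (by rw [← a3, ← a4]; exact Ne.symm h)
    rwa [cmu, a1, a2, Nat.pair_unpair] at this
  · by_cases h : tests (x k) σ m = newq x y k σ m
    · rw [put, tests_Re, ← h]; simp
    · obtain ⟨a1, a2, a3, a4⟩ := key k σ m h
      rw [put, tests_Re, a3, a4]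
      exact h2 _ _ (by rw [a1]; exact hk)

theorem Rel.ptr {a b : Dat} (h : Rel a b) (k : ℕ) (σ : List ℕ) (i : ℕ) :
    b k (σ, Sum.inr i) - a k (σ, Sum.inr i) =
      6 * (tp (zeta (b k)) (tests (b k)) i σ - tp (zeta (a k)) (tests (a k)) i σ) := by
  rw [zeta_eq (a k), zeta_eq (b k), h.ze k]
  ring

theorem Rel.bound {a b : Dat} (h : Rel a b) {k : ℕ} (hk : k ≠ 0) (s : S0) :
    |b k s - a k s| ≤ 32 := by
  obtain ⟨σ, m | i⟩ := s
  · exact h.bd k σ m hk
  · rw [h.ptr]
    have h1 := tv_mem (cf (zeta (a k)) (tests (a k)) σ) (uf i)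
    have h2 := tv_mem (cf (zeta (b k)) (tests (b k)) σ) (uf i)
    unfold tp
    rw [abs_le]
    constructor <;> linarith [h1.1, h1.2, h2.1, h2.2]

theorem Rel.cases {a b : Dat} (h : Rel a b) {k : ℕ} {σ : List ℕ} {i : ℕ}
    (hne : b k (σ, Sum.inr i) - a k (σ, Sum.inr i) ≠ 0) :
    tp (zeta (a k)) (tests (a k)) i σ ≠ 0 ∨ tp (zeta (b k)) (tests (b k)) i σ ≠ 0 := by
  by_contra hc
  push Not at hc
  apply hne
  rw [h.ptr, hc.1, hc.2]
  simp

theorem Rel.finite {a b : Dat} (h : Rel a b) (k : ℕ) : {s | b k s - a k s ≠ 0}.Finite := by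
  refine (((h.fin k).image fun s => (s.1, Sum.inl s.2)).union
    (((tp_finite (h.va k).1 (h.va k).2).union (tp_finite (h.vb k).1 (h.vb k).2)).image
      fun s => (s.1, Sum.inr s.2))).subset ?_
  rintro ⟨σ, m | i⟩ hs
  · exact Or.inl ⟨(σ, m), (sub_ne_zero.1 hs).symm, rfl⟩
  · exact Or.inr ⟨(σ, i), h.cases hs, rfl⟩

theorem rel_local {P : Type*} [TopologicalSpace P] {a b : P → Dat} (ha : Continuous a)
    (hb : Continuous b) (h : ∀ π, Rel (a π) (b π)) {A : Set S0} (hA : OStr A) (k : ℕ) (π0 : P) :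
    ∃ Φ : Set S0, Φ.Finite ∧ ∀ᶠ π in 𝓝 π0, ∀ s ∈ A, b π k s - a π k s ≠ 0 → s ∈ Φ := by
  have ha' := (continuous_apply k).comp ha
  have hb' := (continuous_apply k).comp hb
  obtain ⟨Φ1, h1, h2⟩ := local_finite (continuous_zeta.comp ha') (continuous_tests.comp ha') hA π0
    ((h π0).va k).1 ((h π0).va k).2
  obtain ⟨Φ2, h3, h4⟩ := local_finite (continuous_zeta.comp hb') (continuous_tests.comp hb') hA π0
    ((h π0).vb k).1 ((h π0).vb k).2
  refine ⟨Φ1 ∪ Φ2, h1.union h3, ?_⟩
  filter_upwards [h2, h4] with π c1 c2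
  rintro ⟨σ, m | i⟩ hs hne
  · exact Or.inl (c1.1 σ m hs ((h π).ne k σ m (sub_ne_zero.1 hne).symm))
  · rcases (h π).cases hne with h5 | h5
    · exact Or.inl (c1.2 σ i hs h5)
    · exact Or.inr (c2.2 σ i hs h5)

/-- The forward map on data. -/
noncomputable def FF (x : Dat) (w : ℕ → ℝ) : Dat :=
  put x fun n => FY n (cmu x n) (cx x n) (w n)

/-- The backward map on data. -/
noncomputable def BB (y : Dat) : Dat := put y fun n => BX n (cmu y n) (cx y n)

/-- The recovered sequence. -/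
noncomputable def BW (y : Dat) (n : ℕ) : ℝ := BU n (cmu y n) (cx y n) 0

theorem rel_FF {x : Dat} (hx : Valid x) {w : ℕ → ℝ} (hw : Tendsto w atTop (𝓝 0)) :
    Rel x (FF x w) := by
  choose u hu0 hu using fun n => sol_F n (cmu x n) (cx x n) (w n)
  refine rel_put hx (fun n e => (hu n).ne) (fun n e => (hu n).change)
    (fun n => (hu n).fin_fw (hx.v1 n) (hx.v2 n)) fun k => ?_
  have h1 : ∀ᶠ n in atTop, |w n| ≤ th (k + 1) := by
    have := (Metric.tendsto_nhds.1 hw) _ (th_pos (k + 1))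
    exact this.mono fun n hn => by simpa using hn.le
  filter_upwards [hx.gd (k + 2), h1, eventually_gt_atTop k] with n a1 a2 a3 e he
  exact (hu n).unif_fw a1 (by rw [hu0]; exact a2) a3 he.le

theorem rel_BB {y : Dat} (hy : Valid y) : Rel (BB y) y := by
  have hu := fun n => sol_B (n := n) (hy.v1 n) (hy.v2 n)
  refine (rel_put hy (fun n e h => (hu n).ne h.symm)
    (fun n e h => by rw [abs_sub_comm]; exact (hu n).change h)
    (fun n k => ((hu n).fin_bw (hy.v1 n) (hy.v2 n) k).mono fun e h hr => (h hr).symm)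
    fun k => ?_).symm
  filter_upwards [hy.gd (k + 1), eventually_gt_atTop k] with n a1 a3 e he
  exact ((hu n).unif_bw (hy.v2 n) a1 a3 he.le).symm

theorem tendsto_BW {y : Dat} (hy : Valid y) : Tendsto (BW y) atTop (𝓝 0) := by
  rw [Metric.tendsto_nhds]
  intro η hη
  obtain ⟨j, hj⟩ := exists_pow_lt_of_lt_one hη (show (1 / 4 : ℝ) < 1 by norm_num)
  filter_upwards [hy.gd (j + 1)] with n hn
  have := (sol_B (n := n) (hy.v1 n) (hy.v2 n)).small_bw (hy.v2 n) hn le_rfl
  simpa [BW] using this.trans_lt hj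

theorem BB_FF {x : Dat} (hx : Valid x) {w : ℕ → ℝ} (hw : Tendsto w atTop (𝓝 0)) :
    BB (FF x w) = x ∧ BW (FF x w) = w := by
  have hy := (rel_FF hx hw).vb
  choose u hu0 hu using fun n => sol_F n (cmu x n) (cx x n) (w n)
  have h1 : cmu (FF x w) = cmu x := cmu_put _ _
  have h2 : cx (FF x w) = fun n => FY n (cmu x n) (cx x n) (w n) := cx_put _ _
  have h3 := fun n => Sol.unique_bw (n := n) (hy.v1 n) (hy.v2 n) (u := u n) (x := cx x n)
    (by rw [h1, h2]; exact hu n)
  refine ⟨?_, funext fun n => ?_⟩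
  · rw [BB, ← funext fun n => (h3 n).2]
    exact put_put _ _
  · rw [BW, ← (h3 n).1, hu0]

theorem FF_BB {y : Dat} (hy : Valid y) : FF (BB y) (BW y) = y := by
  have h1 : cmu (BB y) = cmu y := cmu_put _ _
  have h2 : cx (BB y) = fun n => BX n (cmu y n) (cx y n) := cx_put _ _
  have h3 : (fun n => FY n (cmu (BB y) n) (cx (BB y) n) (BW y n)) = cx y := by
    funext n
    obtain ⟨u, hu0, hu⟩ := sol_F n (cmu (BB y) n) (cx (BB y) n) (BW y n)
    refine hu.unique_fw (u' := BU n (cmu y n) (cx y n)) ?_ hu0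
    rw [h1, h2]
    exact sol_B (hy.v1 n) (hy.v2 n)
  rw [FF, h3]
  exact put_put _ _

section Cont

variable {P : Type*} [TopologicalSpace P]

theorem continuous_cmu {x : P → Dat} (hx : Continuous x) (n : ℕ) :
    Continuous fun π => cmu (x π) n :=
  continuous_pi fun e => continuous_mu
    (continuous_zeta.comp ((continuous_apply (row e)).comp hx)) _ _

theorem continuous_cx {x : P → Dat} (hx : Continuous x) (n : ℕ) :
    Continuous fun π => cx (x π) n := by
  unfold cx tests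
  fun_prop

theorem continuous_put {x : P → Dat} {y : P → ℕ → ℕ → ℝ} (hx : Continuous x)
    (hy : ∀ n e, Continuous fun π => y π n e) : Continuous fun π => put (x π) (y π) := by
  refine continuous_pi fun k => continuous_Re ((continuous_apply k).comp hx)
    (continuous_pi fun σ => continuous_pi fun m => ?_)
  unfold newq tests
  split_ifs
  · exact hy _ _
  · fun_prop

theorem continuous_FF {x : P → Dat} {w : P → ℕ → ℝ} (hx : Continuous x) (hw : Continuous w) :
    Continuous fun π => FF (x π) (w π) :=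
  continuous_put hx fun n e => continuous_FY (continuous_cmu hx n) (continuous_cx hx n)
    ((continuous_apply n).comp hw) e

theorem continuous_BB {y : P → Dat} (hy : Continuous y) (hv : ∀ π, Valid (y π)) :
    Continuous fun π => BB (y π) :=
  continuous_put hy fun n e => continuous_BX (continuous_cmu hy n) (continuous_cx hy n)
    (fun π => (hv π).v1 n) (fun π => (hv π).v2 n) e

theorem continuous_BW {y : P → Dat} (hy : Continuous y) (hv : ∀ π, Valid (y π)) (n : ℕ) :
    Continuous fun π => BW (y π) n :=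
  continuous_BU (continuous_cmu hy n) (continuous_cx hy n)
    (fun π => (hv π).v1 n) (fun π => (hv π).v2 n) 0

end Cont

end Pool.Agent.Lib.MP_318f17_gt
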