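import Pool.Agent.Lib.MP_318f17_gt.Basic

/-!
The lifting lemma: a minimal assignment of closed sets consists of singletons.
-/

set_option autoImplicit false

namespace Pool.Agent.Lib.MP_318f17_gt

open Filter Topology Set

/-- A layer of requirements, each with a family of clusters. -/
structure Layer (Pt : Type*) (R : Type*) where
  Req : Pt → R → Prop
  Cl : R → Set (Set Pt)
  ne : ∀ x r, Req x r → ∀ S ∈ Cl r, S.Nonempty
  mem : ∀ x r, Req x r → ∀ S ∈ Cl r, ∀ x' ∈ S, Req x' r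
  dir : ∀ x r r0, Req x r → Req x r0 → ∃ r', Req x r' ∧ Cl r' ⊆ Cl r ∧
    ∀ x', Req x' r' → Req x' r ∧ Req x' r0

section Lift

variable {Pt X : Type*} {R R1 R2 : Type} [TopologicalSpace X]

/-- Clusters of `r` are found in every neighbourhood of `D`. -/
def Layer.Sat (L : Layer Pt R) (Z : Pt → Set X) (r : R) (D : Set X) : Prop :=
  ∀ U, IsOpen U → D ⊆ U → ∃ S ∈ L.Cl r, ∀ x' ∈ S, Z x' ⊆ U

/-- All requirements of every point are met. -/
def Layer.Ok (L : Layer Pt R) (Z : Pt → Set X) : Prop := ∀ x r, L.Req x r → L.Sat Z r (Z x)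

theorem Layer.Sat.mono {L : Layer Pt R} {Z Z' : Pt → Set X} {r : R} {D : Set X}
    (h : L.Sat Z r D) (hZ : ∀ x, Z' x ⊆ Z x) : L.Sat Z' r D := by
  intro U hU hD
  obtain ⟨S, hS, h1⟩ := h U hU hD
  exact ⟨S, hS, fun x hx => (hZ x).trans (h1 x hx)⟩

theorem Layer.both_fail {L : Layer Pt R} {Z : Pt → Set X} (hZ : L.Ok Z) {C0 C1 : Set X}
    (h0 : IsClosed C0) (h1 : IsClosed C1) {x : Pt} {r0 r1 : R} (hr0 : L.Req x r0)
    (hr1 : L.Req x r1) (hf0 : ¬ L.Sat Z r0 (Z x ∩ C0)) (hf1 : ¬ L.Sat Z r1 (Z x ∩ C1)) :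
    ∃ r U, L.Req x r ∧ IsOpen U ∧ Z x ⊆ U ∧
      ∀ x', L.Req x' r → Z x' ⊆ U → ¬ Z x' ⊆ C0 ∧ ¬ Z x' ⊆ C1 := by
  unfold Layer.Sat at hf0 hf1
  push Not at hf0 hf1
  obtain ⟨U0, hU0, hD0, hn0⟩ := hf0
  obtain ⟨U1, hU1, hD1, hn1⟩ := hf1
  obtain ⟨r, hr, _, hr'⟩ := L.dir x r0 r1 hr0 hr1
  refine ⟨r, (U0 ∪ C0ᶜ) ∩ (U1 ∪ C1ᶜ), hr,
    (hU0.union h0.isOpen_compl).inter (hU1.union h1.isOpen_compl), fun ξ hξ => ⟨?_, ?_⟩,
    fun x' hx' hU => ⟨fun hc => ?_, fun hc => ?_⟩⟩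
  · by_cases h : ξ ∈ C0
    · exact Or.inl (hD0 ⟨hξ, h⟩)
    · exact Or.inr h
  · by_cases h : ξ ∈ C1
    · exact Or.inl (hD1 ⟨hξ, h⟩)
    · exact Or.inr h
  · obtain ⟨S, hS, h2⟩ := hZ x' r0 (hr' x' hx').1 U0 hU0
      (fun ξ hξ => (hU hξ).1.resolve_right (fun h => h (hc hξ)))
    obtain ⟨y, hy, h3⟩ := hn0 S hS
    exact h3 (h2 y hy)
  · obtain ⟨S, hS, h2⟩ := hZ x' r1 (hr' x' hx').2 U1 hU1
      (fun ξ hξ => (hU hξ).2.resolve_right (fun h => h (hc hξ)))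
    obtain ⟨y, hy, h3⟩ := hn1 S hS
    exact h3 (h2 y hy)

theorem Layer.loc {L : Layer Pt R} {Z Z' : Pt → Set X} (hZ : L.Ok Z) {C : Set X}
    (hC : IsClosed C) {x : Pt} {r0 : R} {U : Set X} (hr0 : L.Req x r0) (hU : IsOpen U)
    (hxU : Z x ⊆ U) (hM : ∀ x', L.Req x' r0 → Z x' ⊆ U → Z' x' ⊆ Z x' ∩ C) {r : R}
    (hr : L.Req x r) : L.Sat Z' r (Z x ∩ C) := by
  intro U' hU' hD
  obtain ⟨r', hr', hcl, hreq⟩ := L.dir x r r0 hr hr0
  obtain ⟨S, hS, h1⟩ := hZ x r' hr' ((U' ∪ Cᶜ) ∩ U) ((hU'.union hC.isOpen_compl).inter hU)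
    (fun ξ hξ => ⟨by
      by_cases h : ξ ∈ C
      · exact Or.inl (hD ⟨hξ, h⟩)
      · exact Or.inr h, hxU hξ⟩)
  refine ⟨S, hcl hS, fun x' hx' ξ hξ => ?_⟩
  have h2 := hM x' (hreq x' (L.mem x r' hr' S hS x' hx')).2 (fun ξ hξ => (h1 x' hx' hξ).2) hξ
  exact (h1 x' hx' h2.1).1.resolve_right (fun h => h h2.2)

/-- Good assignments. -/
def Good (L1 : Layer Pt R1) (L2 : Layer Pt R2) (Z : Pt → Set X) : Prop :=
  (∀ x, (Z x).Nonempty) ∧ (∀ x, IsClosed (Z x)) ∧ L1.Ok Z ∧ L2.Ok Z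

theorem minimal_subsingleton [T2Space X] {L1 : Layer Pt R1} {L2 : Layer Pt R2}
    (h12 : ∀ x x' r, L1.Req x r → L1.Req x' r → ∀ r2, L2.Req x r2 → L2.Req x' r2)
    {Z : Pt → Set X} (hZ : Good L1 L2 Z)
    (hmin : ∀ Z', Good L1 L2 Z' → (∀ x, Z' x ⊆ Z x) → ∀ x, Z x ⊆ Z' x) (x0 : Pt) :
    (Z x0).Subsingleton := by
  classical
  intro a ha b hb
  by_contra hab
  obtain ⟨hne, hcl, hO1, hO2⟩ := hZ
  obtain ⟨Va, Vb, hVa, hVb, haV, hbV, hd⟩ := t2_separation hab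
  obtain ⟨C0, hC0⟩ : ∃ C, C = Vbᶜ := ⟨_, rfl⟩
  obtain ⟨C1, hC1⟩ : ∃ C, C = Vaᶜ := ⟨_, rfl⟩
  have h0 : IsClosed C0 := hC0 ▸ hVb.isClosed_compl
  have h1 : IsClosed C1 := hC1 ▸ hVa.isClosed_compl
  have hcov : ∀ ξ, ξ ∉ C0 → ξ ∈ C1 := by
    intro ξ h
    rw [hC0] at h
    rw [hC1]
    exact fun h' => (Set.disjoint_left.1 hd) h' (not_not.1 h)
  let N : Pt → Prop := fun x => ¬ Z x ⊆ C0 ∧ ¬ Z x ⊆ C1
  have hx0 : N x0 := ⟨fun h => (hC0 ▸ h hb : b ∈ Vbᶜ) hbV, fun h => (hC1 ▸ h ha : a ∈ Vaᶜ) haV⟩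
  let sh : (Pt → Prop) → Set X → Pt → Set X := fun M C x => if M x then Z x ∩ C else Z x
  have shle : ∀ M C x, sh M C x ⊆ Z x := by
    intro M C x
    simp only [sh]
    split_ifs
    · exact inter_subset_left
    · exact subset_rfl
  have shM : ∀ (M : Pt → Prop) C x, M x → sh M C x = Z x ∩ C := fun M C x h => if_pos h
  have shrink : ∀ (M : Pt → Prop) (C : Set X), (C = C0 ∨ C = C1) → (∀ x, M x → N x) →
      (∃ x, M x) → (∀ x, M x → ∀ r, L1.Req x r → L1.Sat (sh M C) r (Z x ∩ C)) →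
      (∀ x, M x → ∀ r, L2.Req x r → L2.Sat (sh M C) r (Z x ∩ C)) → False := by
    intro M C hC hMN ⟨x, hx⟩ hs1 hs2
    have hCc : IsClosed C := by rcases hC with rfl | rfl <;> assumption
    have hg : Good L1 L2 (sh M C) := by
      refine ⟨fun y => ?_, fun y => ?_, fun y r hr => ?_, fun y r hr => ?_⟩
      · by_cases hy : M y
        · rw [shM M C y hy]
          rcases hC with rfl | rfl
          · obtain ⟨ξ, h2, h3⟩ := not_subset.1 (hMN y hy).2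
            exact ⟨ξ, h2, by_contra fun h => h3 (hcov ξ h)⟩
          · obtain ⟨ξ, h2, h3⟩ := not_subset.1 (hMN y hy).1
            exact ⟨ξ, h2, hcov ξ h3⟩
        · simp only [sh, if_neg hy]; exact hne y
      · by_cases hy : M y
        · rw [shM M C y hy]; exact (hcl y).inter hCc
        · simp only [sh, if_neg hy]; exact hcl y
      · by_cases hy : M y
        · rw [shM M C y hy]; exact hs1 y hy r hr
        · have : sh M C y = Z y := if_neg hy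
          rw [this]; exact (hO1 y r hr).mono (shle M C)
      · by_cases hy : M y
        · rw [shM M C y hy]; exact hs2 y hy r hr
        · have : sh M C y = Z y := if_neg hy
          rw [this]; exact (hO2 y r hr).mono (shle M C)
    have h2 := hmin _ hg (shle M C) x
    rw [shM M C x hx] at h2
    have h3 : Z x ⊆ C := fun ξ hξ => (h2 hξ).2
    rcases hC with rfl | rfl
    · exact (hMN x hx).1 h3
    · exact (hMN x hx).2 h3
  have claim1 : ∀ x C, (C = C0 ∨ C = C1) → N x → (∀ r, L1.Req x r → L1.Sat Z r (Z x ∩ C)) →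
      (∀ r, L2.Req x r → L2.Sat Z r (Z x ∩ C)) → False := by
    intro x C hC hx hs1 hs2
    refine shrink (fun y => y = x) C hC (fun y hy => hy ▸ hx) ⟨x, rfl⟩ ?_ ?_
    · rintro y rfl r hr; exact (hs1 r hr).mono (shle _ _)
    · rintro y rfl r hr; exact (hs2 r hr).mono (shle _ _)
  have claim2 : ∀ x r1 D, L1.Req x r1 → L1.Sat Z r1 D → ∀ r2, L2.Req x r2 → L2.Sat Z r2 D := by
    intro x r1 D hr1 hs r2 hr2 U hU hD
    obtain ⟨S, hS, h2⟩ := hs U hU hD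
    obtain ⟨x', hx'⟩ := L1.ne x r1 hr1 S hS
    exact hO2 x' r2 (h12 x x' r1 hr1 (L1.mem x r1 hr1 S hS x' hx') r2 hr2) U hU (h2 x' hx')
  have claim3 : ∀ x r1, N x → L1.Req x r1 → ∃ r U, L1.Req x r ∧ IsOpen U ∧ Z x ⊆ U ∧
      ∀ x', L1.Req x' r → Z x' ⊆ U → N x' := by
    intro x r1 hx hr1
    have hf : ∀ C, (C = C0 ∨ C = C1) → ∃ r, L1.Req x r ∧ ¬ L1.Sat Z r (Z x ∩ C) := by
      intro C hC
      by_contra hcon
      push Not at hcon
      exact claim1 x C hC hx hcon (claim2 x r1 _ hr1 (hcon r1 hr1))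
    obtain ⟨ra, hra, hfa⟩ := hf C0 (Or.inl rfl)
    obtain ⟨rb, hrb, hfb⟩ := hf C1 (Or.inr rfl)
    exact Layer.both_fail hO1 h0 h1 hra hrb hfa hfb
  let N1 : Pt → Prop := fun x => N x ∧ ∀ r, L2.Req x r → L2.Sat Z r (Z x ∩ C1)
  by_cases hA : ∃ x r U, L1.Req x r ∧ IsOpen U ∧ Z x ⊆ U ∧
      ∀ x', L1.Req x' r → Z x' ⊆ U → N1 x'
  · obtain ⟨x, r, U, hr, hU, hxU, hall⟩ := hA
    refine shrink (fun y => L1.Req y r ∧ Z y ⊆ U) C1 (Or.inr rfl)
      (fun y hy => (hall y hy.1 hy.2).1) ⟨x, hr, hxU⟩ (fun y hy r' hr' => ?_)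
      (fun y hy r' hr' => ((hall y hy.1 hy.2).2 r' hr').mono (shle _ _))
    exact Layer.loc hO1 h1 hy.1 hU hy.2
      (fun x' h2 h3 => (shM (fun y => L1.Req y r ∧ Z y ⊆ U) C1 x' ⟨h2, h3⟩).subset) hr'
  · push Not at hA
    have l2 : ∀ x, N x → ¬ N1 x → ∀ r, L2.Req x r → L2.Sat (sh N C0) r (Z x ∩ C0) := by
      intro x hx hn r hr
      by_cases hall : ∀ r, L2.Req x r → L2.Sat Z r (Z x ∩ C0)
      · exact (hall r hr).mono (shle _ _)
      · push Not at hall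
        obtain ⟨ra, hra, hfa⟩ := hall
        have : ∃ r, L2.Req x r ∧ ¬ L2.Sat Z r (Z x ∩ C1) := by
          by_contra hcon
          push Not at hcon
          exact hn ⟨hx, hcon⟩
        obtain ⟨rb, hrb, hfb⟩ := this
        obtain ⟨r', U, hr', hU, hxU, hN⟩ := Layer.both_fail hO2 h0 h1 hra hrb hfa hfb
        exact Layer.loc hO2 h0 hr' hU hxU (fun x' h2 h3 => (shM N C0 x' (hN x' h2 h3)).subset) hr
    refine shrink N C0 (Or.inl rfl) (fun _ h => h) ⟨x0, hx0⟩ (fun x hx r hr => ?_)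
      (fun x hx r hr => ?_)
    · obtain ⟨r', U, hr', hU, hxU, hN⟩ := claim3 x r hx hr
      exact Layer.loc hO1 h0 hr' hU hxU (fun x' h2 h3 => (shM N C0 x' (hN x' h2 h3)).subset) hr
    · by_cases hn : N1 x
      · by_cases hex : ∃ r1, L1.Req x r1
        · obtain ⟨r1, hr1⟩ := hex
          obtain ⟨r', U, hr', hU, hxU, hN⟩ := claim3 x r1 hx hr1
          intro U' hU' hD
          obtain ⟨x', h2, h3, h4⟩ := hA x r' (U ∩ (U' ∪ C0ᶜ)) hr'
            (hU.inter (hU'.union h0.isOpen_compl)) (fun ξ hξ => ⟨hxU hξ, by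
              by_cases h : ξ ∈ C0
              · exact Or.inl (hD ⟨hξ, h⟩)
              · exact Or.inr h⟩)
          refine l2 x' (hN x' h2 fun ξ hξ => (h3 hξ).1) h4 r (h12 x x' r' hr' h2 r hr) U' hU' ?_
          exact fun ξ hξ => (h3 hξ.1).2.resolve_right (fun h => h hξ.2)
        · exact (claim1 x C1 (Or.inr rfl) hx (fun r hr => (hex ⟨r, hr⟩).elim) hn.2).elim
      · exact l2 x hx hn r hr

theorem lift [T2Space X] [CompactSpace X] {L1 : Layer Pt R1} {L2 : Layer Pt R2}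
    (h12 : ∀ x x' r, L1.Req x r → L1.Req x' r → ∀ r2, L2.Req x r2 → L2.Req x' r2)
    {Z0 : Pt → Set X} (hZ0 : Good L1 L2 Z0) :
    ∃ d : Pt → X, (∀ x, d x ∈ Z0 x) ∧ L1.Ok (fun x => {d x}) ∧ L2.Ok (fun x => {d x}) := by
  have hz := @zorn_le_nonempty₀ (Pt → Set X)ᵒᵈ _ {Z | Good L1 L2 (Z : Pt → Set X)} ?_ Z0 hZ0
  · obtain ⟨Z, hZ1, hZ2, hZ3⟩ := hz
    have hs := minimal_subsingleton h12 hZ2 (fun Z' h1 h2 => hZ3 (y := Z') h1 h2)
    choose d hd using hZ2.1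
    have he : (fun x => {d x}) = (Z : Pt → Set X) := by
      funext x
      exact ((hs x).eq_singleton_of_mem (hd x)).symm
    refine ⟨d, fun x => hZ1 x (hd x), ?_, ?_⟩
    · rw [he]; exact hZ2.2.2.1
    · rw [he]; exact hZ2.2.2.2
  · intro c hc hch y hy
    have : Nonempty c := ⟨⟨y, hy⟩⟩
    have hdir : ∀ x, Directed (· ⊇ ·) fun Z : c => (Z.1 : Pt → Set X) x := by
      intro x Z Z'
      rcases hch.total Z.2 Z'.2 with h | h
      · exact ⟨Z', h x, subset_rfl⟩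
      · exact ⟨Z, subset_rfl, h x⟩
    have hok : ∀ {R : Type} (L : Layer Pt R), (∀ Z : c, L.Ok (Z.1 : Pt → Set X)) →
        L.Ok (fun x => ⋂ Z : c, (Z.1 : Pt → Set X) x) := by
      intro R L hL x r hr U hU hD
      obtain ⟨Z, hZ⟩ := exists_subset_nhds_of_isCompact' (hdir x)
        (fun Z => ((hc Z.2).2.1 x).isCompact) (fun Z => (hc Z.2).2.1 x)
        (fun ξ hξ => hU.mem_nhds (hD hξ))
      obtain ⟨S, hS, h1⟩ := hL Z x r hr U hU hZ
      exact ⟨S, hS, fun x' hx' => (iInter_subset _ Z).trans (h1 x' hx')⟩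
    refine ⟨fun x => ⋂ Z : c, (Z.1 : Pt → Set X) x, ⟨fun x => ?_, fun x => ?_, ?_, ?_⟩,
      fun Z hZ x => iInter_subset (fun Z : c => (Z.1 : Pt → Set X) x) ⟨Z, hZ⟩⟩
    · exact IsCompact.nonempty_iInter_of_directed_nonempty_isCompact_isClosed _ (hdir x)
        (fun Z => (hc Z.2).1 x) (fun Z => ((hc Z.2).2.1 x).isCompact) (fun Z => (hc Z.2).2.1 x)
    · exact isClosed_iInter fun Z => (hc Z.2).2.1 x
    · exact hok L1 fun Z => (hc Z.2).2.2.1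
    · exact hok L2 fun Z => (hc Z.2).2.2.2

end Lift

end Pool.Agent.Lib.MP_318f17_gt
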