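import Pool.Agent.Lib.MP_318f17_gt.Data

/-!
Absorbing a null sequence into the space of continuous functions.
-/

set_option autoImplicit false

namespace Pool.Agent.Lib.MP_318f17_gt

open Filter Topology Set

/-- The rows with their points. -/
structure Rows (X : Type*) [TopologicalSpace X] where
  B : ℕ → Scheme Pt X
  d : ℕ → Pt → X
  lim : ∀ k p, d k p ∈ (B k).Lim (F0.code p)
  disj : ∀ k k' ξ, k ≠ k' → (B k).β [] ξ ≠ 0 → (B k').β [] ξ = 0
  small : ∀ k (z : C(X, ℝ)), ∀ η > 0,
    U1 η (fun s => z (d k (s, true)) - z (d k (s, false))) ∧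
    U2 η (fun s => z (d k (s, true)) - z (d k (s, false)))

theorem exists_rows {X : Type*} [TopologicalSpace X] [CompactSpace X] [T2Space X] [Infinite X]
    (hX : NoSeq X) : Nonempty (Rows X) := by
  obtain ⟨S⟩ := exists_scheme hX
  obtain ⟨e, he⟩ := exists_injective_nat Pt
  choose d hd1 hd2 using fun k => row_points (S.sub e he k)
  exact ⟨⟨fun k => S.sub e he k, d, hd1, fun k k' ξ h1 h2 => S.disj k k' [] ξ h1 h2, hd2⟩⟩

/-- The unit of a row. -/
noncomputable def dl (k : ℕ) : ℝ := (1 / 2) ^ k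

theorem dl_pos (k : ℕ) : 0 < dl k := by unfold dl; positivity

namespace Rows

variable {X : Type*} [TopologicalSpace X] (R : Rows X)

/-- The data of a function. -/
noncomputable def dat (z : C(X, ℝ)) : Dat :=
  fun k s => (z (R.d k (s, true)) - z (R.d k (s, false))) / dl k

theorem valid_dat (z : C(X, ℝ)) : Valid (R.dat z) := by
  intro k
  have hk := dl_pos k
  have key : ∀ η t : ℝ, |t| < η * dl k → |t / dl k| < η := by
    intro η t h
    rw [abs_div, abs_of_pos hk, div_lt_iff₀ hk]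
    exact h
  constructor
  · refine W1_of_U2 fun γ => ?_
    obtain ⟨j, h1, h2⟩ := (R.small k z (1 / 2 * dl k) (by positivity)).2 γ
    exact ⟨j, key _ _ h1, key _ _ h2⟩
  · refine W2_of_U1 fun σ φ => ?_
    obtain ⟨j, h1⟩ := (R.small k z (1 * dl k) (by positivity)).1 σ φ
    exact ⟨j, key _ _ h1⟩

/-- The realization of the change in one row. -/
noncomputable def Gr (a b : Dat) (k : ℕ) (ξ : X) : ℝ :=
  F0.G (R.B k) (fun s => dl k * (b k s - a k s)) ξ

/-- The realization of the total change. -/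
noncomputable def Gt (a b : Dat) (ξ : X) : ℝ := R.Gr a b 0 ξ + ∑' k, R.Gr a b (k + 1) ξ

theorem fin_supp {a b : Dat} (h : Rel a b) (k : ℕ) :
    {s | dl k * (b k s - a k s) ≠ 0}.Finite :=
  (h.finite k).subset fun _ hs => right_ne_zero_of_mul hs

theorem abs_Gr {a b : Dat} (h : Rel a b) (k : ℕ) (ξ : X) :
    ‖R.Gr a b (k + 1) ξ‖ ≤ 8 * (1 / 2) ^ k := by
  have hk := dl_pos (k + 1)
  have := F0.abs_G_le (R.B (k + 1)) (fin_supp h (k + 1)) (M := dl (k + 1) * 32) (by positivity)
    (fun s => by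
      rw [abs_mul, abs_of_pos hk]
      exact mul_le_mul_of_nonneg_left (h.bound (Nat.succ_ne_zero k) s) hk.le) ξ
  refine this.trans (le_of_eq ?_)
  unfold dl
  ring

theorem summable_bound : Summable fun k : ℕ => 8 * (1 / 2 : ℝ) ^ k :=
  summable_geometric_two.mul_left 8

theorem continuous_Gt {a b : Dat} (h : Rel a b) : Continuous (R.Gt a b) :=
  (F0.continuous_G _ (fin_supp h 0)).add (continuous_tsum
    (fun k => F0.continuous_G _ (fin_supp h (k + 1))) summable_bound (R.abs_Gr h))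

theorem Gt_pt (a b : Dat) (k : ℕ) (p : Pt) : R.Gt a b (R.d k p) = R.Gr a b k (R.d k p) := by
  have h0 : ∀ k', k' ≠ k → R.Gr a b k' (R.d k p) = 0 := by
    intro k' hk
    refine F0.G_root _ (R.disj k k' _ hk.symm ?_)
    rw [(R.B k).one_of_suffix_one ((R.B k).Lim_one (R.lim k p)) List.nil_suffix]
    exact one_ne_zero
  unfold Gt
  cases k with
  | zero =>
    rw [tsum_congr fun k => h0 (k + 1) (Nat.succ_ne_zero k)]
    simp
  | succ k =>
    rw [h0 0 (Nat.succ_ne_zero k).symm, zero_add]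
    exact tsum_eq_single k fun k' hk => h0 _ (by omega)

open Classical in
/-- The realization as a continuous function. -/
noncomputable def GC (a b : Dat) : C(X, ℝ) :=
  if h : Continuous (R.Gt a b) then ⟨_, h⟩ else 0

theorem GC_apply {a b : Dat} (h : Rel a b) (ξ : X) : R.GC a b ξ = R.Gt a b ξ := by
  rw [GC, dif_pos (R.continuous_Gt h)]
  rfl

theorem dat_GC {a b : Dat} (h : Rel a b) (k : ℕ) (s : S0) :
    R.dat (R.GC a b) k s = b k s - a k s := by
  rw [dat, R.GC_apply h, R.GC_apply h, Gt_pt, Gt_pt, Gr, Gr,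
    F0.G_diff _ _ s (R.lim k _) (R.lim k _), mul_div_cancel_left₀ _ (dl_pos k).ne']

theorem dat_add {a b : Dat} (h : Rel a b) {z : C(X, ℝ)} (hz : R.dat z = a) :
    R.dat (z + R.GC a b) = b := by
  funext k s
  have h1 := R.dat_GC h k s
  have h2 := congrFun (congrFun hz k) s
  simp only [dat, ContinuousMap.add_apply] at h1 h2 ⊢
  rw [add_sub_add_comm, add_div, h1, h2]
  ring

theorem dat_sub {a b : Dat} (h : Rel a b) {z : C(X, ℝ)} (hz : R.dat z = b) :
    R.dat (z - R.GC a b) = a := by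
  funext k s
  have h1 := R.dat_GC h k s
  have h2 := congrFun (congrFun hz k) s
  simp only [dat, ContinuousMap.sub_apply] at h1 h2 ⊢
  rw [sub_sub_sub_comm, sub_div, h1, h2]
  ring

variable {P : Type*} [TopologicalSpace P]

theorem continuous_GC {a b : P → Dat} (ha : Continuous a) (hb : Continuous b)
    (h : ∀ π, Rel (a π) (b π)) (ξ : X) : Continuous fun π => R.GC (a π) (b π) ξ := by
  have h1 : ∀ k, Continuous fun π => R.Gr (a π) (b π) k ξ := by
    intro k
    refine F0.continuous_G_param _ (fun s => by fun_prop) ξ fun π0 => ?_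
    obtain ⟨Φ, h2, h3⟩ := rel_local ha hb h (ostr_seen (R.B k) ξ) k π0
    exact ⟨Φ, h2, h3.mono fun π hπ s hs hne => hπ s hs (right_ne_zero_of_mul hne)⟩
  simp only [R.GC_apply (h _)]
  exact (h1 0).add (continuous_tsum (fun k => h1 (k + 1)) summable_bound
    fun k π => R.abs_Gr (h π) k ξ)

theorem continuous_dat {z : P → C(X, ℝ)} (hz : ∀ ξ, Continuous fun π => z π ξ) :
    Continuous fun π => R.dat (z π) :=
  continuous_pi fun _ => continuous_pi fun _ => ((hz _).sub (hz _)).div_const _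

/-- The absorbing map. -/
noncomputable def Fw (z : C(X, ℝ)) (w : ℕ → ℝ) : C(X, ℝ) := z + R.GC (R.dat z) (FF (R.dat z) w)

/-- The function part of the inverse. -/
noncomputable def Bz (f : C(X, ℝ)) : C(X, ℝ) := f - R.GC (BB (R.dat f)) (R.dat f)

/-- The sequence part of the inverse. -/
noncomputable def Bw (f : C(X, ℝ)) : ℕ → ℝ := BW (R.dat f)

theorem tendsto_Bw (f : C(X, ℝ)) : Tendsto (R.Bw f) atTop (𝓝 0) := tendsto_BW (R.valid_dat f)

theorem B_Fw (z : C(X, ℝ)) {w : ℕ → ℝ} (hw : Tendsto w atTop (𝓝 0)) :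
    R.Bz (R.Fw z w) = z ∧ R.Bw (R.Fw z w) = w := by
  have h1 : R.dat (R.Fw z w) = FF (R.dat z) w := R.dat_add (rel_FF (R.valid_dat z) hw) rfl
  have h2 := BB_FF (R.valid_dat z) hw
  refine ⟨?_, by rw [Bw, h1, h2.2]⟩
  rw [Bz, h1, h2.1, Fw, add_sub_cancel_right]

theorem Fw_B (f : C(X, ℝ)) : R.Fw (R.Bz f) (R.Bw f) = f := by
  have h1 : R.dat (R.Bz f) = BB (R.dat f) := R.dat_sub (rel_BB (R.valid_dat f)) rfl
  rw [Fw, h1, Bw, FF_BB (R.valid_dat f), Bz, sub_add_cancel]

theorem continuous_Fw {z : P → C(X, ℝ)} {w : P → ℕ → ℝ} (hz : ∀ ξ, Continuous fun π => z π ξ)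
    (hw : Continuous w) (h0 : ∀ π, Tendsto (w π) atTop (𝓝 0)) (ξ : X) :
    Continuous fun π => R.Fw (z π) (w π) ξ :=
  (hz ξ).add (R.continuous_GC (R.continuous_dat hz) (continuous_FF (R.continuous_dat hz) hw)
    (fun π => rel_FF (R.valid_dat _) (h0 π)) ξ)

theorem continuous_Bz {f : P → C(X, ℝ)} (hf : ∀ ξ, Continuous fun π => f π ξ) (ξ : X) :
    Continuous fun π => R.Bz (f π) ξ :=
  (hf ξ).sub (R.continuous_GC (continuous_BB (R.continuous_dat hf) fun _ => R.valid_dat _)
    (R.continuous_dat hf) (fun _ => rel_BB (R.valid_dat _)) ξ)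

theorem continuous_Bw {f : P → C(X, ℝ)} (hf : ∀ ξ, Continuous fun π => f π ξ) (n : ℕ) :
    Continuous fun π => R.Bw (f π) n :=
  continuous_BW (R.continuous_dat hf) (fun _ => R.valid_dat _) n

end Rows

section Glue

variable {X : Type*} [TopologicalSpace X]

/-- The null sequence attached to a function on the sum with a convergent sequence. -/
noncomputable def seqOf (g : C(X ⊕ OnePoint ℕ, ℝ)) : ℕ → ℝ
  | 0 => g (Sum.inr OnePoint.infty)
  | n + 1 => g (Sum.inr (n : OnePoint ℕ)) - g (Sum.inr OnePoint.infty)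

theorem tendsto_seqOf (g : C(X ⊕ OnePoint ℕ, ℝ)) : Tendsto (seqOf g) atTop (𝓝 0) := by
  rw [← tendsto_add_atTop_iff_nat 1]
  have h := (OnePoint.continuous_iff_from_nat fun a => g (Sum.inr a)).1 (by fun_prop)
  simpa [seqOf] using h.sub_const (g (Sum.inr OnePoint.infty))

/-- The restriction to the first summand. -/
def resOf (g : C(X ⊕ OnePoint ℕ, ℝ)) : C(X, ℝ) := g.comp ⟨Sum.inl, continuous_inl⟩

/-- The function on the sum given by a function and a null sequence. -/
noncomputable def glue (z : C(X, ℝ)) (w : ℕ → ℝ) (hw : Tendsto w atTop (𝓝 0)) :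
    C(X ⊕ OnePoint ℕ, ℝ) where
  toFun := Sum.elim z fun a => OnePoint.elim a (w 0) fun n => w (n + 1) + w 0
  continuous_toFun := by
    refine Continuous.sumElim z.continuous ?_
    rw [OnePoint.continuous_iff_from_nat]
    simpa using ((tendsto_add_atTop_iff_nat 1).2 hw).add_const (w 0)

theorem resOf_glue (z : C(X, ℝ)) (w : ℕ → ℝ) (hw : Tendsto w atTop (𝓝 0)) :
    resOf (glue z w hw) = z := rfl

theorem seqOf_glue (z : C(X, ℝ)) (w : ℕ → ℝ) (hw : Tendsto w atTop (𝓝 0)) :
    seqOf (glue z w hw) = w := by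
  funext n
  cases n with
  | zero => rfl
  | succ n => exact add_sub_cancel_right _ _

theorem glue_of {g : C(X ⊕ OnePoint ℕ, ℝ)} {z : C(X, ℝ)} {w : ℕ → ℝ}
    (hw : Tendsto w atTop (𝓝 0)) (h1 : z = resOf g) (h2 : w = seqOf g) : glue z w hw = g := by
  subst h1 h2
  ext a
  rcases a with a | a
  · rfl
  · induction a using OnePoint.rec with
    | infty => rfl
    | coe n => exact sub_add_cancel _ _

/-- The bijection between the two function spaces. -/
noncomputable def Rows.equiv (R : Rows X) : C(X, ℝ) ≃ C(X ⊕ OnePoint ℕ, ℝ) where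
  toFun f := glue (R.Bz f) (R.Bw f) (R.tendsto_Bw f)
  invFun g := R.Fw (resOf g) (seqOf g)
  left_inv f := by
    simp only [resOf_glue, seqOf_glue]
    exact R.Fw_B f
  right_inv g := glue_of _ (R.B_Fw _ (tendsto_seqOf g)).1 (R.B_Fw _ (tendsto_seqOf g)).2

theorem Rows.continuous_equiv (R : Rows X) {P : Type*} [TopologicalSpace P] {f : P → C(X, ℝ)}
    (hf : ∀ ξ, Continuous fun π => f π ξ) (a : X ⊕ OnePoint ℕ) :
    Continuous fun π => R.equiv (f π) a := by
  rcases a with a | a
  · exact R.continuous_Bz hf a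
  · induction a using OnePoint.rec with
    | infty => exact R.continuous_Bw hf 0
    | coe n => exact (R.continuous_Bw hf (n + 1)).add (R.continuous_Bw hf 0)

theorem Rows.continuous_equiv_symm (R : Rows X) {P : Type*} [TopologicalSpace P]
    {g : P → C(X ⊕ OnePoint ℕ, ℝ)} (hg : ∀ a, Continuous fun π => g π a) (ξ : X) :
    Continuous fun π => R.equiv.symm (g π) ξ := by
  refine R.continuous_Fw (fun ξ => hg (Sum.inl ξ)) (continuous_pi fun n => ?_)
    (fun π => tendsto_seqOf _) ξ
  cases n with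
  | zero => exact hg _
  | succ n => exact (hg _).sub (hg _)

end Glue

theorem continuous_induced_of {X Y : Type*} [TopologicalSpace X] [TopologicalSpace Y]
    (e : C(X, ℝ) → C(Y, ℝ))
    (h : ∀ t : TopologicalSpace C(X, ℝ), (∀ ξ, Continuous[t, _] fun f : C(X, ℝ) => f ξ) →
      ∀ a, Continuous[t, _] fun f : C(X, ℝ) => e f a) :
    @Continuous C(X, ℝ) C(Y, ℝ)
      (TopologicalSpace.induced (fun g : C(X, ℝ) => (g : X → ℝ)) inferInstance)
      (TopologicalSpace.induced (fun g : C(Y, ℝ) => (g : Y → ℝ)) inferInstance) e := by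
  rw [continuous_induced_rng]
  refine (@continuous_pi_iff _ _ _ (_) _ _).2 fun a => h _ (fun ξ => ?_) a
  exact @Continuous.comp _ _ _ (_) _ _ _ _ (continuous_apply ξ) continuous_induced_dom

end Pool.Agent.Lib.MP_318f17_gt
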