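import Pool.Agent.Lib.MP_318f17_gt.Scheme

/-!
Realization of finitely supported changes of differences by continuous functions.
-/

set_option autoImplicit false

namespace Pool.Agent.Lib.MP_318f17_gt

open Filter Topology Set

/-- A forest of pairs of points, with its codes. -/
structure Forest (S : Type*) where
  par : S → Option (S × Bool)
  code : S × Bool → List (S × Bool)
  hcode : ∀ p, code p = p :: (par p.1).elim [] code

theorem exists_code {S : Type*} (par : S → Option (S × Bool)) (r : S → S → Prop)
    (hr : WellFounded r) (h : ∀ s p, par s = some p → r p.1 s) :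
    ∃ F : Forest S, F.par = par := by
  let up : S → List (S × Bool) := hr.fix fun s ih =>
    match hp : par s with
    | none => []
    | some p => p :: ih p.1 (h s p hp)
  have hup : ∀ s, up s = (par s).elim [] fun p => p :: up p.1 := by
    intro s
    have h1 : up s = match hp : par s with
        | none => []
        | some p => p :: up p.1 := hr.fix_eq _ s
    rw [h1]
    cases par s <;> rfl
  exact ⟨⟨par, fun p => p :: up p.1, fun p => by rw [hup p.1]⟩, rfl⟩

/-- Clamping to the interval `[-r, r]`. -/
noncomputable def clamp (r c : ℝ) : ℝ := max (-r) (min r c)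

/-- The value at a point of a pair, from the value at its parent. -/
noncomputable def vstep (c v : ℝ) (ε : Bool) : ℝ :=
  c - clamp (|v| / 2) c + (if ε then v / 2 else -(v / 2))

theorem vstep_zero (c : ℝ) (ε : Bool) : vstep c 0 ε = c := by
  unfold vstep clamp
  cases ε <;> simp

theorem vstep_sub (c v : ℝ) : vstep c v true - vstep c v false = v := by
  unfold vstep; simp

theorem abs_vstep_le {c v M : ℝ} (ε : Bool) (hc : |c| ≤ M / 2) (hv : |v| ≤ M) :
    |vstep c v ε| ≤ M / 2 := by
  unfold vstep clamp
  have h1 := abs_le.1 hc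
  have h2 := le_abs_self v
  have h3 := neg_abs_le v
  rw [abs_le]
  cases ε <;> simp only [if_true, Bool.false_eq_true, if_false, max_def, min_def] <;>
    split_ifs <;> constructor <;> linarith

/-- The value at a node. -/
noncomputable def val {S : Type*} (v : S → ℝ) : List (S × Bool) → ℝ
  | [] => 0
  | p :: t => vstep (val v t) (v p.1) p.2

theorem abs_val_le {S : Type*} {v : S → ℝ} {M : ℝ} (hM : 0 ≤ M) (hv : ∀ s, |v s| ≤ M)
    (t : List (S × Bool)) : |val v t| ≤ M / 2 := by
  induction t with
  | nil => simp [val]; linarith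
  | cons p t ih => exact abs_vstep_le _ ih (hv _)

theorem continuous_val {S P : Type*} [TopologicalSpace P] {v : P → S → ℝ}
    (hv : ∀ s, Continuous fun π => v π s) (t : List (S × Bool)) :
    Continuous fun π => val (v π) t := by
  induction t with
  | nil => exact continuous_const
  | cons p t ih =>
    have := hv p.1
    simp only [val, vstep, clamp]
    cases p.2 <;> simp only [if_true, Bool.false_eq_true, if_false] <;> fun_prop

namespace Forest

variable {S X : Type*} [TopologicalSpace X] (F : Forest S)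

/-- The code of the parent. -/
def up (s : S) : List (S × Bool) := (F.par s).elim [] F.code

theorem code_eq (p : S × Bool) : F.code p = p :: F.up p.1 := F.hcode p

/-- Lists which are codes. -/
def IsCode (t : List (S × Bool)) : Prop := t = [] ∨ ∃ p, t = F.code p

theorem isCode_up (s : S) : F.IsCode (F.up s) := by
  unfold up
  cases F.par s with
  | none => exact Or.inl rfl
  | some p => exact Or.inr ⟨p, rfl⟩

theorem IsCode.cons {F : Forest S} {p : S × Bool} {t : List (S × Bool)}
    (h : F.IsCode (p :: t)) : t = F.up p.1 := by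
  rcases h with h | ⟨q, h⟩
  · simp at h
  · rw [F.code_eq] at h
    obtain ⟨rfl, h2⟩ := List.cons.inj h
    exact h2

theorem IsCode.suffix {F : Forest S} {t : List (S × Bool)} (h : F.IsCode t) :
    ∀ q ∈ t, F.code q <:+ t := by
  induction t with
  | nil => simp
  | cons p t ih =>
    intro q hq
    have ht := h.cons
    rcases List.mem_cons.1 hq with rfl | hq
    · rw [F.code_eq, ← ht]
    · exact (ih (ht ▸ F.isCode_up _) q hq).trans (List.suffix_cons _ _)

theorem mem_of_suffix {q : S × Bool} {t : List (S × Bool)} (h : F.code q <:+ t) : q ∈ t :=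
  h.subset (by rw [F.code_eq]; exact List.mem_cons_self)

theorem not_mem_up (p : S × Bool) : p ∉ F.up p.1 := by
  intro h
  have := ((F.isCode_up p.1).suffix p h).length_le
  rw [F.code_eq] at this
  simp at this

theorem code_injective : Function.Injective F.code := by
  intro p q h
  rw [F.code_eq, F.code_eq] at h
  exact (List.cons.inj h).1

/-- The coefficient of the bump at `p`. -/
noncomputable def coef (v : S → ℝ) (p : S × Bool) : ℝ := val v (F.code p) - val v (F.up p.1)

theorem coef_ne {v : S → ℝ} {p : S × Bool} (h : F.coef v p ≠ 0) : v p.1 ≠ 0 := by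
  intro h0
  apply h
  rw [coef, F.code_eq, val, h0, vstep_zero, sub_self]

open Classical in
theorem sum_coef (v : S → ℝ) {t : List (S × Bool)} (h : F.IsCode t) :
    ∑ q ∈ t.toFinset, F.coef v q = val v t := by
  induction t with
  | nil => simp [val]
  | cons p t ih =>
    have ht := h.cons
    have h1 : p ∉ t.toFinset := by rw [List.mem_toFinset, ht]; exact F.not_mem_up p
    rw [List.toFinset_cons, Finset.sum_insert h1, ih (ht ▸ F.isCode_up _), coef, F.code_eq, ← ht]
    ring

variable (B : Scheme (S × Bool) X)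

/-- The realization of the change `v`. -/
noncomputable def G (v : S → ℝ) (ξ : X) : ℝ := ∑ᶠ p, F.coef v p * B.β (F.code p) ξ

theorem G_eq_sum {v : S → ℝ} {ξ : X} {T : Finset (S × Bool)}
    (h : ∀ p, v p.1 ≠ 0 → B.β (F.code p) ξ ≠ 0 → p ∈ T) :
    F.G B v ξ = ∑ p ∈ T, F.coef v p * B.β (F.code p) ξ := by
  refine finsum_eq_sum_of_support_subset _ fun p hp => ?_
  exact h p (F.coef_ne (left_ne_zero_of_mul hp)) (right_ne_zero_of_mul hp)

theorem G_root {v : S → ℝ} {ξ : X} (h : B.β [] ξ = 0) : F.G B v ξ = 0 := by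
  rw [F.G_eq_sum B (T := ∅) fun p _ hp => (B.ne_of_suffix hp List.nil_suffix h).elim]
  simp

theorem G_Lim (v : S → ℝ) {p : S × Bool} {ξ : X} (h : ξ ∈ B.Lim (F.code p)) :
    F.G B v ξ = val v (F.code p) := by
  classical
  have h1 := B.Lim_one h
  have hc : F.IsCode (F.code p) := Or.inr ⟨p, rfl⟩
  rw [F.G_eq_sum B (T := (F.code p).toFinset), ← F.sum_coef v hc]
  · refine Finset.sum_congr rfl fun q hq => ?_
    rw [B.one_of_suffix_one h1 (hc.suffix q (List.mem_toFinset.1 hq)), mul_one]
  · intro q _ hq
    rw [List.mem_toFinset]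
    apply F.mem_of_suffix
    have h2 : B.β (F.code p) ξ ≠ 0 := by rw [h1]; exact one_ne_zero
    by_cases hl : (F.code q).length ≤ (F.code p).length
    · exact B.suffix_of_length hq h2 hl
    · exfalso
      obtain ⟨pre, hpre⟩ := B.suffix_of_length h2 hq (by omega)
      rcases List.eq_nil_or_concat pre with rfl | ⟨pre', a, rfl⟩
      · apply hl; rw [← hpre]; simp
      · exact B.ne_of_suffix hq (show a :: F.code p <:+ F.code q from ⟨pre', by simp [← hpre]⟩)
          (B.Lim_zero h a)

theorem G_diff (v : S → ℝ) (s : S) {ξ ξ' : X} (h : ξ ∈ B.Lim (F.code (s, true)))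
    (h' : ξ' ∈ B.Lim (F.code (s, false))) : F.G B v ξ - F.G B v ξ' = v s := by
  rw [F.G_Lim B v h, F.G_Lim B v h', F.code_eq, F.code_eq]
  exact vstep_sub _ _

theorem finite_pts {v : S → ℝ} (hv : {s | v s ≠ 0}.Finite) : {p : S × Bool | v p.1 ≠ 0}.Finite :=
  (hv.prod (finite_univ (α := Bool))).subset fun _ hp => ⟨hp, mem_univ _⟩

theorem continuous_G {v : S → ℝ} (hv : {s | v s ≠ 0}.Finite) : Continuous (F.G B v) := by
  have : F.G B v = fun ξ => ∑ p ∈ (finite_pts hv).toFinset, F.coef v p * B.β (F.code p) ξ :=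
    funext fun ξ => F.G_eq_sum B fun p hp _ => (finite_pts hv).mem_toFinset.2 hp
  rw [this]
  fun_prop

theorem abs_G_le {v : S → ℝ} (hv : {s | v s ≠ 0}.Finite) {M : ℝ} (hM : 0 ≤ M)
    (hb : ∀ s, |v s| ≤ M) (ξ : X) : |F.G B v ξ| ≤ M / 2 := by
  classical
  let A := {p : S × Bool | v p.1 ≠ 0 ∧ B.β (F.code p) ξ ≠ 0}
  have hA : A.Finite := (finite_pts hv).subset fun p hp => hp.1
  rcases A.eq_empty_or_nonempty with he | hne
  · rw [F.G_eq_sum B (T := ∅) fun p h1 h2 => by
      have : p ∈ A := ⟨h1, h2⟩
      rw [he] at this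
      exact this.elim]
    simp; linarith
  · obtain ⟨p, hp, hmax⟩ := hA.exists_maximalFor (fun p => (F.code p).length) A hne
    have hle : ∀ q ∈ A, (F.code q).length ≤ (F.code p).length := fun q hq => by
      by_contra h
      have := hmax hq (le_of_lt (not_le.1 h))
      exact h this
    have h1 : p ∉ (F.up p.1).toFinset := by rw [List.mem_toFinset]; exact F.not_mem_up p
    rw [F.G_eq_sum B (T := insert p (F.up p.1).toFinset), Finset.sum_insert h1]
    · have h2 : ∑ q ∈ (F.up p.1).toFinset, F.coef v q * B.β (F.code q) ξ = val v (F.up p.1) := by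
        rw [← F.sum_coef v (F.isCode_up _)]
        refine Finset.sum_congr rfl fun q hq => ?_
        have h3 := (F.isCode_up p.1).suffix q (List.mem_toFinset.1 hq)
        have h4 : B.β (F.up p.1) ξ = 1 := B.nest p _ ξ (F.code_eq p ▸ hp.2)
        rw [B.one_of_suffix_one h4 h3, mul_one]
      rw [h2, coef]
      have a1 := abs_le.1 (abs_val_le hM hb (F.code p))
      have a2 := abs_le.1 (abs_val_le hM hb (F.up p.1))
      have b0 := B.nonneg (F.code p) ξ
      have b1 := B.le_one (F.code p) ξ
      rw [abs_le]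
      constructor <;> nlinarith
    · intro q h2 h3
      have h4 := F.mem_of_suffix (B.suffix_of_length h3 hp.2 (hle q ⟨h2, h3⟩))
      rw [F.code_eq] at h4
      simpa using h4

/-- The sites whose bumps do not vanish at `ξ`. -/
def seen (ξ : X) : Set S := {s | ∃ ε, B.β (F.code (s, ε)) ξ ≠ 0}

theorem continuous_G_param {P : Type*} [TopologicalSpace P] {v : P → S → ℝ}
    (hv : ∀ s, Continuous fun π => v π s) (ξ : X)
    (hl : ∀ π0, ∃ Φ : Set S, Φ.Finite ∧ ∀ᶠ π in 𝓝 π0, ∀ s ∈ F.seen B ξ, v π s ≠ 0 → s ∈ Φ) :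
    Continuous fun π => F.G B (v π) ξ := by
  rw [continuous_iff_continuousAt]
  intro π0
  obtain ⟨Φ, hΦ, hev⟩ := hl π0
  have hΦ' : (Φ ×ˢ (univ : Set Bool)).Finite := hΦ.prod finite_univ
  have hc : Continuous fun π => ∑ p ∈ hΦ'.toFinset, F.coef (v π) p * B.β (F.code p) ξ := by
    refine continuous_finsetSum _ fun p _ => Continuous.mul ?_ continuous_const
    exact (continuous_val hv _).sub (continuous_val hv _)
  refine hc.continuousAt.congr ?_
  filter_upwards [hev] with π hπ
  exact (F.G_eq_sum B fun p h1 h2 => hΦ'.mem_toFinset.2 ⟨hπ p.1 ⟨p.2, h2⟩ h1, mem_univ _⟩).symm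

end Forest

end Pool.Agent.Lib.MP_318f17_gt
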