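import Pool.Agent.Lib.MP_318f17_gt.Real
import Pool.Agent.Lib.MP_318f17_gt.AS
import Pool.Agent.Lib.MP_318f17_gt.Lift

/-!
The forest of test and pointer sites of one row, and the choice of its points.
-/

set_option autoImplicit false

namespace Pool.Agent.Lib.MP_318f17_gt

open Filter Topology Set

theorem Forest.anc_induction {S : Type*} (F : Forest S) (Q : S × Bool → Prop) {q : S × Bool}
    (h0 : Q q) (hs : ∀ p p', F.par p.1 = some p' → Q p' → Q p) :
    ∀ p, q ∈ F.code p → Q p := by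
  intro p
  induction hn : (F.code p).length using Nat.strong_induction_on generalizing p with
  | _ n ih =>
    intro hq
    rw [F.code_eq] at hq
    rcases List.mem_cons.1 hq with rfl | hq
    · exact h0
    · unfold Forest.up at hq
      cases hp : F.par p.1 with
      | none => rw [hp] at hq; simp at hq
      | some p' =>
        rw [hp] at hq
        refine hs p p' hp (ih _ ?_ p' rfl hq)
        rw [← hn, F.code_eq p, Forest.up, hp]
        simp

/-- Sites: a node of the guess tree and a test time or a pointer. -/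
abbrev S0 : Type := List ℕ × (ℕ ⊕ ℕ)

/-- Points. -/
abbrev Pt : Type := S0 × Bool

/-- The node of a point. -/
def nu2 (p : Pt) : List ℕ := p.1.1

/-- The flip node of a pointer. -/
def nu1 (h : ℕ × Bool) : List ℕ := um h.1

/-- Proposals for the guess tree. -/
noncomputable def pr2 : ℕ → Pt := (exists_prop Pt).choose

/-- Proposals for the flip tree. -/
noncomputable def pr1 : ℕ → ℕ × Bool := (exists_prop (ℕ × Bool)).choose

theorem pr2_spec : ∀ h, ∃ᶠ j in atTop, pr2 j = h := (exists_prop Pt).choose_spec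

theorem pr1_spec : ∀ h, ∃ᶠ j in atTop, pr1 j = h := (exists_prop (ℕ × Bool)).choose_spec

/-- The parent of a site. -/
noncomputable def par0 : S0 → Option Pt
  | (σ, .inl _) => tgt nu2 pr2 σ
  | (σ, .inr i) => (tgt nu1 pr1 (um i)).elim (tgt nu2 pr2 σ) fun h => some ((σ, .inr h.1), h.2)

theorem par0_cases {s : S0} {q : Pt} (h : par0 s = some q) : tgt nu2 pr2 s.1 = some q ∨
    ∃ i i' ε, s.2 = .inr i ∧ q = ((s.1, .inr i'), ε) ∧ tgt nu1 pr1 (um i) = some (i', ε) := by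
  obtain ⟨σ, m | i⟩ := s
  · exact Or.inl h
  · simp only [par0] at h
    cases ht : tgt nu1 pr1 (um i) with
    | none => rw [ht] at h; exact Or.inl h
    | some a =>
      rw [ht] at h
      exact Or.inr ⟨i, a.1, a.2, rfl, (Option.some.inj h).symm, ht⟩

/-- The rank of a site. -/
def rk (s : S0) : ℕ × ℕ := (s.1.length, s.2.elim (fun _ => 0) fun i => (um i).length)

theorem exists_F0 : ∃ F : Forest S0, F.par = par0 := by
  refine exists_code par0 (InvImage (Prod.Lex (· < ·) (· < ·)) rk)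
    (InvImage.wf rk (WellFounded.prod_lex wellFounded_lt wellFounded_lt)) fun s p h => ?_
  rcases par0_cases h with h1 | ⟨i, i', ε, h1, rfl, h3⟩
  · exact Prod.Lex.left _ _ (tgt_spec h1).1
  · obtain ⟨σ, s2⟩ := s
    simp only at h1
    subst h1
    exact Prod.Lex.right _ (tgt_spec h3).1

/-- The forest of a row. -/
noncomputable def F0 : Forest S0 := exists_F0.choose

theorem F0_par : F0.par = par0 := exists_F0.choose_spec

theorem anc2 {p q : Pt} (h : q ∈ F0.code p) : Cov nu2 pr2 (nu2 q) (nu2 p) := by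
  have := F0.anc_induction (fun p => ∀ t, Cov nu2 pr2 (nu2 p) t → Cov nu2 pr2 (nu2 q) t)
    (q := q) (fun _ h => h) ?_ p h
  · exact this _ (Cov.refl _)
  · intro p p' hp ih t ht
    rw [F0_par] at hp
    rcases par0_cases hp with h1 | ⟨i, i', ε, _, rfl, _⟩
    · exact ih t ((tgt_spec h1).2 t ht)
    · exact ih t ht

theorem anc1 {σ : List ℕ} {i i' : ℕ} {ε ε' : Bool}
    (h : ((σ, Sum.inr i), ε) ∈ F0.code ((σ, Sum.inr i'), ε')) : Cov nu1 pr1 (um i) (um i') := by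
  have := F0.anc_induction (fun p => σ.length < (nu2 p).length ∨
    ∃ j, p.1 = (σ, Sum.inr j) ∧ ∀ t, Cov nu1 pr1 (um j) t → Cov nu1 pr1 (um i) t)
    (q := ((σ, Sum.inr i), ε)) (Or.inr ⟨i, rfl, fun _ h => h⟩) ?_ _ h
  · rcases this with h1 | ⟨j, h1, h2⟩
    · exact (lt_irrefl _ h1).elim
    · obtain rfl : i' = j := by simpa using h1
      exact h2 _ (Cov.refl _)
  · intro p p' hp ih
    rw [F0_par] at hp
    rcases par0_cases hp with h1 | ⟨a, a', e, h1, rfl, h3⟩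
    · left
      have h2 : (nu2 p').length < (nu2 p).length := (tgt_spec h1).1
      rcases ih with h3 | ⟨j, h3, _⟩
      · omega
      · have : nu2 p' = σ := by rw [nu2, h3]
        rw [this] at h2
        exact h2
    · rcases ih with h4 | ⟨j, h4, h5⟩
      · exact Or.inl h4
      · right
        simp only [Prod.mk.injEq, Sum.inr.injEq] at h4
        obtain ⟨h6, rfl⟩ := h4
        refine ⟨a, Prod.ext h6 h1, fun t ht => h5 t ((tgt_spec h3).2 t ht)⟩

/-- The structure of the set of sites seen from one point of the space. -/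
structure OStr (A : Set S0) : Prop where
  o1 : FB {s | ∃ x ∈ A, s <:+ x.1}
  o2 : ∀ σ, FB {s | ∃ i, (σ, Sum.inr i) ∈ A ∧ s <:+ um i}
  o3 : ∀ σ, {m | (σ, Sum.inl m) ∈ A}.Finite
  o4 : ∀ σ u, {i | (σ, Sum.inr i) ∈ A ∧ um i = u}.Finite

variable {X : Type*} [TopologicalSpace X] (B : Scheme Pt X)

theorem seen_anc {ξ : X} {p q : Pt} (hp : B.β (F0.code p) ξ ≠ 0) (hq : B.β (F0.code q) ξ ≠ 0)
    (h : (F0.code p).length ≤ (F0.code q).length) : p ∈ F0.code q :=
  F0.mem_of_suffix (B.suffix_of_length hp hq h)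

theorem seen_sib {ξ : X} {s s' : S0} (hs : s ∈ F0.seen B ξ) (hs' : s' ∈ F0.seen B ξ)
    (h : par0 s = par0 s') : s = s' := by
  obtain ⟨ε, h1⟩ := hs
  obtain ⟨ε', h2⟩ := hs'
  have := B.eq_of_length h1 h2 (by
    rw [F0.code_eq, F0.code_eq]
    simp only [Forest.up, F0_par, h, List.length_cons])
  exact congrArg Prod.fst (F0.code_injective this)

theorem ostr_seen (ξ : X) : OStr (F0.seen B ξ) := by
  refine ⟨fun s => ?_, fun σ s => ?_, fun σ => ?_, fun σ u => ?_⟩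
  · refine (fb_of_chain (ν := nu2) (pr := pr2) {p | B.β (F0.code p) ξ ≠ 0}
      (fun p => (F0.code p).length) nu2 (fun p hp q hq h => anc2 (seen_anc B hp hq h)) s).subset ?_
    rintro a ⟨x, ⟨ε, hx⟩, h⟩
    exact ⟨(x, ε), hx, h⟩
  · refine (fb_of_chain (ν := nu1) (pr := pr1)
      {h : ℕ × Bool | B.β (F0.code ((σ, Sum.inr h.1), h.2)) ξ ≠ 0}
      (fun h => (F0.code ((σ, Sum.inr h.1), h.2)).length) nu1
      (fun p hp q hq h => anc1 (seen_anc B hp hq h)) s).subset ?_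
    rintro a ⟨i, ⟨ε, hx⟩, h⟩
    exact ⟨(i, ε), hx, h⟩
  · refine Set.Subsingleton.finite fun m hm m' hm' => ?_
    simpa using seen_sib B hm hm' rfl
  · refine Set.Subsingleton.finite fun i hi i' hi' => ?_
    simpa using seen_sib B hi.1 hi'.1 (by simp only [par0, hi.2, hi'.2])

/-- The time of the last flip letter of pointer `i`. -/
def tm (i : ℕ) : ℕ := i.unpair.1.unpair.1

/-- The requirements along branches of the guess tree. -/
def lay2 : Layer Pt ((ℕ → ℕ) × Set (ℕ → ℕ)) where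
  Req x r := r.2.Finite ∧ r.1 ∈ r.2 ∧ ∀ γ ∈ r.2, CovB nu2 pr2 (nu2 x) γ
  Cl r := {S | ∃ j, (∀ γ ∈ r.2, CovB nu2 pr2 (br r.1 j) γ) ∧
    S = {p | p.1 = (br r.1 j, Sum.inr (r.1 j)) ∨ p.1 = (br r.1 j, Sum.inl (tm (r.1 j)))}}
  ne := by
    rintro x r _ S ⟨j, _, rfl⟩
    exact ⟨(_, true), Or.inl rfl⟩
  mem := by
    rintro x r hr S ⟨j, hj, rfl⟩ x' hx'
    refine ⟨hr.1, hr.2.1, ?_⟩
    have : nu2 x' = br r.1 j := by rcases hx' with h | h <;> rw [nu2, h]
    rw [this]; exact hj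
  dir := by
    intro x r r0 hr hr0
    refine ⟨(r.1, r.2 ∪ r0.2), ⟨hr.1.union hr0.1, Or.inl hr.2.1, ?_⟩, ?_, ?_⟩
    · rintro γ (h | h)
      · exact hr.2.2 γ h
      · exact hr0.2.2 γ h
    · rintro S ⟨j, hj, rfl⟩
      exact ⟨j, fun γ h => hj γ (Or.inl h), rfl⟩
    · intro x' h
      exact ⟨⟨hr.1, hr.2.1, fun γ hγ => h.2.2 γ (Or.inl hγ)⟩,
        ⟨hr0.1, hr0.2.1, fun γ hγ => h.2.2 γ (Or.inr hγ)⟩⟩

/-- The requirements along branches of the flip trees. -/
def lay1 : Layer Pt (List ℕ × (ℕ → ℕ) × Set (ℕ → ℕ)) where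
  Req x r := r.2.2.Finite ∧ r.2.1 ∈ r.2.2 ∧
    ∃ i, x.1 = (r.1, Sum.inr i) ∧ ∀ γ ∈ r.2.2, CovB nu1 pr1 (um i) γ
  Cl r := {S | ∃ j, (∀ γ ∈ r.2.2, CovB nu1 pr1 (br r.2.1 j) γ) ∧
    S = {p | p.1 = (r.1, Sum.inr (idx (br r.2.1 j) (r.2.1 j)))}}
  ne := by
    rintro x r _ S ⟨j, _, rfl⟩
    exact ⟨(_, true), rfl⟩
  mem := by
    rintro x r hr S ⟨j, hj, rfl⟩ x' hx'
    exact ⟨hr.1, hr.2.1, _, hx', by rw [um_idx]; exact hj⟩
  dir := by
    rintro x r r0 ⟨h1, h2, i, h3, h4⟩ ⟨k1, k2, i', k3, k4⟩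
    rw [h3] at k3
    simp only [Prod.mk.injEq, Sum.inr.injEq] at k3
    obtain ⟨k3, rfl⟩ := k3
    refine ⟨(r.1, r.2.1, r.2.2 ∪ r0.2.2), ⟨h1.union k1, Or.inl h2, i, h3, ?_⟩, ?_, ?_⟩
    · rintro γ (h | h)
      · exact h4 γ h
      · exact k4 γ h
    · rintro S ⟨j, hj, rfl⟩
      exact ⟨j, fun γ h => hj γ (Or.inl h), rfl⟩
    · rintro x' ⟨_, _, a, ha, hb⟩
      exact ⟨⟨h1, h2, a, ha, fun γ hγ => hb γ (Or.inl hγ)⟩,
        ⟨k1, k2, a, k3 ▸ ha, fun γ hγ => hb γ (Or.inr hγ)⟩⟩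

theorem child_below {σ : List ℕ} {x : Pt} (hx : tgt nu2 pr2 σ = some x) :
    ∀ p : Pt, nu2 p = σ → ∃ c : Pt, nu2 c = σ ∧ c :: F0.code x <:+ F0.code p := by
  intro p
  induction hn : (F0.code p).length using Nat.strong_induction_on generalizing p with
  | _ n ih =>
    intro hp
    have hdirect : par0 p.1 = some x → ∃ c : Pt, nu2 c = σ ∧ c :: F0.code x <:+ F0.code p := by
      intro h
      refine ⟨p, hp, ?_⟩
      rw [F0.code_eq p, Forest.up, F0_par, h]
      exact List.suffix_refl _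
    obtain ⟨⟨σ', m | i⟩, ε⟩ := p
    · apply hdirect
      obtain rfl : σ' = σ := hp
      exact hx
    · obtain rfl : σ' = σ := hp
      cases ht : tgt nu1 pr1 (um i) with
      | none => apply hdirect; simp only [par0, ht]; exact hx
      | some a =>
        have h1 : F0.code ((σ', Sum.inr i), ε) =
            ((σ', Sum.inr i), ε) :: F0.code ((σ', Sum.inr a.1), a.2) := by
          rw [F0.code_eq, Forest.up, F0_par]
          simp only [par0, ht]
          rfl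
        obtain ⟨c, hc1, hc2⟩ := ih _ (by rw [← hn, h1]; simp) ((σ', Sum.inr a.1), a.2) rfl rfl
        exact ⟨c, hc1, h1 ▸ hc2.trans (List.suffix_cons _ _)⟩

theorem good_Lim [CompactSpace X] : Good lay1 lay2 fun p => B.Lim (F0.code p) := by
  refine ⟨fun p => B.Lim_nonempty _, fun p => B.isClosed_Lim _, ?_, ?_⟩
  · rintro ⟨s, ε⟩ ⟨σ, φ, Φ⟩ ⟨h1, h2, i, h3, h4⟩ U hU hD
    simp only at h1 h2 h3 h4
    subst h3
    obtain ⟨F, hF⟩ := B.Lim_nhds hU hD
    have hg := ground (ν := nu1) (h := (i, ε)) pr1_spec h1 h4 h2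
    obtain ⟨j, ⟨hj1, hj2⟩, hj3⟩ :=
      (hg.and_eventually (eventually_gt_atTop (F.sup fun c => (rk c.1).2))).exists
    refine ⟨_, ⟨j, hj2, rfl⟩, ?_⟩
    rintro ⟨s', ε'⟩ hs' ξ hξ
    obtain rfl : s' = (σ, Sum.inr (idx (br φ j) (φ j))) := hs'
    have h5 := B.Lim_one hξ
    rw [F0.code_eq, Forest.up, F0_par] at h5
    simp only [par0, um_idx, hj1] at h5
    refine hF _ (fun hc => ?_) ξ h5
    have := Finset.le_sup (f := fun c : Pt => (rk c.1).2) hc
    simp only [rk, Sum.elim_inr, um_idx, length_br] at this hj3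
    omega
  · rintro x ⟨γ, Γ⟩ ⟨h1, h2, h3⟩ U hU hD
    simp only at h1 h2 h3
    obtain ⟨F, hF⟩ := B.Lim_nhds hU hD
    have hg := ground (ν := nu2) (h := x) pr2_spec h1 h3 h2
    obtain ⟨j, ⟨hj1, hj2⟩, hj3⟩ :=
      (hg.and_eventually (eventually_gt_atTop (F.sup fun c => (nu2 c).length))).exists
    refine ⟨_, ⟨j, hj2, rfl⟩, ?_⟩
    intro p hp ξ hξ
    have h4 : nu2 p = br γ j := by rcases hp with h | h <;> rw [nu2, h]
    obtain ⟨c, hc1, hc2⟩ := child_below hj1 p h4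
    refine hF c (fun hc => ?_) ξ (B.one_of_suffix_one (B.Lim_one hξ) hc2)
    have := Finset.le_sup (f := fun c : Pt => (nu2 c).length) hc
    simp only [hc1, length_br] at this
    omega

/-- Some pointer along every branch of every flip tree is small. -/
def U1 (η : ℝ) (x : S0 → ℝ) : Prop :=
  ∀ σ (φ : ℕ → ℕ), ∃ j, |x (σ, Sum.inr (idx (br φ j) (φ j)))| < η

/-- Along every branch of the guess tree some pointer is small together with its test. -/
def U2 (η : ℝ) (x : S0 → ℝ) : Prop :=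
  ∀ γ : ℕ → ℕ, ∃ j, |x (br γ j, Sum.inr (γ j))| < η ∧ |x (br γ j, Sum.inl (tm (γ j)))| < η

theorem row_points [CompactSpace X] [T2Space X] : ∃ d : Pt → X,
    (∀ p, d p ∈ B.Lim (F0.code p)) ∧ ∀ z : C(X, ℝ), ∀ η > 0,
      U1 η (fun s => z (d (s, true)) - z (d (s, false))) ∧
      U2 η (fun s => z (d (s, true)) - z (d (s, false))) := by
  obtain ⟨d, hd, h1, h2⟩ := lift (L1 := lay1) (L2 := lay2) (by
    rintro x x' r ⟨_, _, i, hi, _⟩ ⟨_, _, i', hi', _⟩ r2 hr2
    have : nu2 x' = nu2 x := by rw [nu2, nu2, hi, hi']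
    exact ⟨hr2.1, hr2.2.1, this ▸ hr2.2.2⟩) (good_Lim B)
  refine ⟨d, hd, fun z η hη => ?_⟩
  have hopen : ∀ a : X, IsOpen {ξ | |z ξ - z a| < η / 2} := fun a =>
    isOpen_lt (by fun_prop) continuous_const
  have hclose : ∀ a b c : X, |z b - z a| < η / 2 → |z c - z a| < η / 2 → |z b - z c| < η := by
    intro a b c h1 h2
    rw [abs_lt] at *
    constructor <;> linarith [h1.1, h1.2, h2.1, h2.2]
  constructor
  · intro σ φ
    obtain ⟨S, ⟨j, _, rfl⟩, hS⟩ := h1 ((σ, Sum.inr 0), true) (σ, φ, {φ})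
      ⟨finite_singleton _, rfl, 0, rfl, fun γ _ => by rw [um_zero]; exact covB_nil γ⟩ _
      (hopen (d ((σ, Sum.inr 0), true))) (by simpa using hη)
    exact ⟨j, hclose _ _ _ (hS (_, true) rfl rfl) (hS (_, false) rfl rfl)⟩
  · intro γ
    obtain ⟨S, ⟨j, _, rfl⟩, hS⟩ := h2 (([], Sum.inl 0), true) (γ, {γ})
      ⟨finite_singleton _, rfl, fun γ _ => covB_nil γ⟩ _
      (hopen (d (([], Sum.inl 0), true))) (by simpa using hη)
    exact ⟨j, hclose _ _ _ (hS (_, true) (Or.inl rfl) rfl) (hS (_, false) (Or.inl rfl) rfl),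
      hclose _ _ _ (hS (_, true) (Or.inr rfl) rfl) (hS (_, false) (Or.inr rfl) rfl)⟩

end Pool.Agent.Lib.MP_318f17_gt
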