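import Pool.Agent.Lib.MP_318f17_gt.Basic

/-!
Schemes of bump functions indexed by finite sequences.
-/

set_option autoImplicit false

namespace Pool.Agent.Lib.MP_318f17_gt

open Filter Topology Set

/-- A tree of nested bump functions. -/
structure Scheme (α X : Type*) [TopologicalSpace X] where
  β : List α → C(X, ℝ)
  nonneg : ∀ t ξ, 0 ≤ β t ξ
  le_one : ∀ t ξ, β t ξ ≤ 1
  nest : ∀ a t ξ, β (a :: t) ξ ≠ 0 → β t ξ = 1
  disj : ∀ a a' t ξ, a ≠ a' → β (a :: t) ξ ≠ 0 → β (a' :: t) ξ = 0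
  ne : ∀ t, ∃ ξ, β t ξ = 1

/-- No injective convergent sequence. -/
def NoSeq (X : Type*) [TopologicalSpace X] : Prop :=
  ¬ ∃ (s : ℕ → X) (y : X), Function.Injective s ∧ Tendsto s atTop (𝓝 y)

section Exist

variable {X : Type*} [TopologicalSpace X] [CompactSpace X] [T2Space X]

/-- An open set containing a non-isolated point. -/
def Big (V : Set X) : Prop := IsOpen V ∧ ∃ a ∈ V, ¬ IsOpen ({a} : Set X)

theorem two_points (hX : NoSeq X) {V : Set X} (hV : IsOpen V) {a : X} (ha : a ∈ V)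
    (hna : ¬ IsOpen ({a} : Set X)) : ∃ b ∈ V, b ≠ a ∧ ¬ IsOpen ({b} : Set X) := by
  by_contra hcon
  push Not at hcon
  obtain ⟨K, hK, haK, hKV⟩ := exists_compact_subset hV ha
  have hinf : (K \ {a}).Infinite := by
    intro hfin
    apply hna
    have : ({a} : Set X) = interior K \ (K \ {a}) := by
      ext x
      constructor
      · rintro rfl
        exact ⟨haK, fun h => h.2 rfl⟩
      · rintro ⟨h1, h2⟩
        by_contra h3
        exact h2 ⟨interior_subset h1, h3⟩
    rw [this]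
    exact isOpen_interior.sdiff hfin.isClosed
  apply hX
  let s := hinf.natEmbedding
  refine ⟨fun n => (s n : X), a, Subtype.val_injective.comp s.injective, ?_⟩
  rw [← Nat.cofinite_eq_atTop, tendsto_nhds]
  intro W hW haW
  have hc : IsCompact (K \ W) := hK.diff hW
  obtain ⟨t, _, ht⟩ := hc.elim_nhds_subcover (fun x => {x}) (fun x hx =>
    (hcon x (hKV hx.1) (fun h => hx.2 (h ▸ haW))).mem_nhds rfl)
  have hfin : (K \ W).Finite := by
    refine t.finite_toSet.subset fun x hx => ?_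
    have := ht hx
    simp only [mem_iUnion, mem_singleton_iff] at this
    obtain ⟨y, hy, rfl⟩ := this
    exact hy
  rw [mem_cofinite]
  refine (hfin.preimage (f := fun n => (s n : X))
    (Subtype.val_injective.comp s.injective).injOn).subset fun n hn => ?_
  exact ⟨(s n).2.1, hn⟩

theorem split_two (hX : NoSeq X) {V : Set X} (hV : Big V) :
    ∃ W V' : Set X, Big W ∧ Big V' ∧ W ⊆ V ∧ V' ⊆ V ∧ Disjoint W V' := by
  obtain ⟨hVo, a, ha, hna⟩ := hV
  obtain ⟨b, hb, hba, hnb⟩ := two_points hX hVo ha hna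
  obtain ⟨A, B, hA, hB, haA, hbB, hAB⟩ := t2_separation hba.symm
  exact ⟨A ∩ V, B ∩ V, ⟨hA.inter hVo, a, ⟨haA, ha⟩, hna⟩, ⟨hB.inter hVo, b, ⟨hbB, hb⟩, hnb⟩,
    inter_subset_right, inter_subset_right, hAB.mono inter_subset_left inter_subset_left⟩

theorem split_omega (hX : NoSeq X) {V : Set X} (hV : Big V) :
    ∃ W : ℕ → Set X, (∀ n, Big (W n)) ∧ (∀ n, W n ⊆ V) ∧
      ∀ n m, n ≠ m → Disjoint (W n) (W m) := by
  have h := fun (U : {U : Set X // Big U}) => split_two hX U.2
  choose f g hf hg hfU hgU hfg using h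
  let seq : ℕ → {U : Set X // Big U} := fun n => Nat.rec ⟨V, hV⟩ (fun _ U => ⟨g U, hg U⟩) n
  have hs : ∀ n, (seq (n + 1)).1 = g (seq n) := fun n => rfl
  have hanti : ∀ n m, n ≤ m → (seq m).1 ⊆ (seq n).1 := by
    intro n m h
    induction h with
    | refl => exact subset_rfl
    | step _ ih => exact (hgU _).trans ih
  have hlt : ∀ n m, n < m → Disjoint (f (seq n)) (f (seq m)) := by
    intro n m h
    exact (hfg (seq n)).mono_right ((hfU _).trans (hanti (n + 1) m h))
  refine ⟨fun n => f (seq n), fun n => hf _, fun n => (hfU _).trans (hanti 0 n (Nat.zero_le n)),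
    fun n m h => ?_⟩
  rcases lt_or_gt_of_ne h with h | h
  · exact hlt n m h
  · exact (hlt m n h).symm

theorem exists_bump {W : Set X} (hW : Big W) : ∃ f : C(X, ℝ), (∀ ξ, 0 ≤ f ξ) ∧ (∀ ξ, f ξ ≤ 1) ∧
    (∀ ξ, f ξ ≠ 0 → ξ ∈ W) ∧ Big (interior {ξ | f ξ = 1}) := by
  obtain ⟨hWo, a, ha, hna⟩ := hW
  obtain ⟨K, hK, haK, hKW⟩ := exists_compact_subset hWo ha
  obtain ⟨f, h0, h1, h01⟩ := exists_continuous_zero_one_of_isClosed hWo.isClosed_compl
    hK.isClosed (disjoint_compl_left_iff_subset.2 hKW)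
  refine ⟨f, fun ξ => (h01 ξ).1, fun ξ => (h01 ξ).2, fun ξ hξ => ?_, isOpen_interior, a, ?_, hna⟩
  · by_contra h
    exact hξ (h0 h)
  · exact interior_mono (fun ξ hξ => h1 hξ) haK

theorem exists_scheme [Infinite X] (hX : NoSeq X) : Nonempty (Scheme ℕ X) := by
  let B := {f : C(X, ℝ) // (∀ ξ, 0 ≤ f ξ) ∧ (∀ ξ, f ξ ≤ 1) ∧ Big (interior {ξ | f ξ = 1})}
  have hstep : ∀ f : B, ∃ c : ℕ → B, (∀ n ξ, (c n).1 ξ ≠ 0 → f.1 ξ = 1) ∧
      ∀ n m ξ, n ≠ m → (c n).1 ξ ≠ 0 → (c m).1 ξ = 0 := by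
    intro f
    obtain ⟨W, hW, hWV, hd⟩ := split_omega hX f.2.2.2
    choose g g0 g1 gW gB using fun n => exists_bump (hW n)
    refine ⟨fun n => ⟨g n, g0 n, g1 n, gB n⟩, fun n ξ h => ?_, fun n m ξ hnm h => ?_⟩
    · exact interior_subset (s := {ξ | f.1 ξ = 1}) (hWV n (gW n ξ h))
    · by_contra h'
      exact (Set.disjoint_left.1 (hd n m hnm)) (gW n ξ h) (gW m ξ h')
  choose c hc1 hc2 using hstep
  have hroot : Big (interior {ξ : X | (1 : C(X, ℝ)) ξ = 1}) := by
    have : {ξ : X | (1 : C(X, ℝ)) ξ = 1} = univ := by ext; simp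
    rw [this, interior_univ]
    refine ⟨isOpen_univ, ?_⟩
    by_contra h
    push Not at h
    have : DiscreteTopology X := discreteTopology_iff_isOpen_singleton.2 fun a => h a (mem_univ a)
    have : Finite X := finite_of_compact_of_discrete
    exact not_finite X
  let b : List ℕ → B := fun t =>
    List.rec ⟨1, fun _ => by simp, fun _ => by simp, hroot⟩ (fun a _ f => c f a) t
  refine ⟨⟨fun t => (b t).1, fun t => (b t).2.1, fun t => (b t).2.2.1,
    fun a t ξ h => hc1 (b t) a ξ h, fun a a' t ξ h1 h2 => hc2 (b t) a a' ξ h1 h2, fun t => ?_⟩⟩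
  obtain ⟨a, ha, _⟩ := (b t).2.2.2.2
  exact ⟨a, interior_subset (s := {ξ | (b t).1 ξ = 1}) ha⟩

end Exist

namespace Scheme

variable {α X : Type*} [TopologicalSpace X] (S : Scheme α X)

/-- The subscheme below the node `[k]`, over another alphabet. -/
def sub (S : Scheme ℕ X) (e : α → ℕ) (he : Function.Injective e) (k : ℕ) : Scheme α X where
  β t := S.β (t.map e ++ [k])
  nonneg _ _ := S.nonneg _ _
  le_one _ _ := S.le_one _ _
  nest _ _ ξ h := S.nest _ _ ξ h
  disj _ _ _ ξ h1 h2 := S.disj _ _ _ ξ (he.ne h1) h2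
  ne _ := S.ne _

theorem one_of_suffix {s t : List α} {ξ : X} (h : S.β t ξ ≠ 0) (hs : s <:+ t) (hne : s ≠ t) :
    S.β s ξ = 1 := by
  induction t with
  | nil => exact (hne (List.suffix_nil.1 hs)).elim
  | cons a t ih =>
    have h1 := S.nest a t ξ h
    rcases List.suffix_cons_iff.1 hs with h2 | h2
    · exact (hne h2).elim
    · by_cases hst : s = t
      · rw [hst]; exact h1
      · exact ih (by rw [h1]; exact one_ne_zero) h2 hst

theorem ne_of_suffix {s t : List α} {ξ : X} (h : S.β t ξ ≠ 0) (hs : s <:+ t) : S.β s ξ ≠ 0 := by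
  by_cases hst : s = t
  · rw [hst]; exact h
  · rw [S.one_of_suffix h hs hst]; exact one_ne_zero

theorem one_of_suffix_one {s t : List α} {ξ : X} (h : S.β t ξ = 1) (hs : s <:+ t) :
    S.β s ξ = 1 := by
  by_cases hst : s = t
  · rw [hst]; exact h
  · exact S.one_of_suffix (by rw [h]; exact one_ne_zero) hs hst

theorem eq_of_length {s t : List α} {ξ : X} (hs : S.β s ξ ≠ 0) (ht : S.β t ξ ≠ 0)
    (h : s.length = t.length) : s = t := by
  induction s generalizing t with
  | nil => exact (List.eq_nil_of_length_eq_zero h.symm).symm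
  | cons a s ih =>
    cases t with
    | nil => simp at h
    | cons b t =>
      have h1 : s = t := ih (S.ne_of_suffix hs (List.suffix_cons _ _))
        (S.ne_of_suffix ht (List.suffix_cons _ _)) (by simpa using h)
      subst h1
      by_cases hab : a = b
      · rw [hab]
      · exact (ht (S.disj a b s ξ hab hs)).elim

theorem suffix_of_length {s t : List α} {ξ : X} (hs : S.β s ξ ≠ 0) (ht : S.β t ξ ≠ 0)
    (h : s.length ≤ t.length) : s <:+ t := by
  have h1 : t.drop (t.length - s.length) <:+ t := List.drop_suffix _ _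
  have h2 := S.eq_of_length hs (S.ne_of_suffix ht h1) (by simp; omega)
  rw [h2]
  simpa using h1

/-- The set of limit points of the plateaus of the children. -/
def Lim (t : List α) : Set X :=
  ⋂ F : Finset α, closure (⋃ a ∈ {a | a ∉ F}, {ξ | S.β (a :: t) ξ = 1})

theorem isClosed_Lim (t : List α) : IsClosed (S.Lim t) := isClosed_iInter fun _ => isClosed_closure

theorem Lim_one {t : List α} {ξ : X} (h : ξ ∈ S.Lim t) : S.β t ξ = 1 := by
  have h1 := mem_iInter.1 h ∅
  have h2 : IsClosed {ξ | S.β t ξ = 1} := isClosed_eq (S.β t).continuous continuous_const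
  refine closure_minimal (iUnion₂_subset fun a _ x hx => ?_) h2 h1
  exact S.nest a t x (by rw [show S.β (a :: t) x = 1 from hx]; exact one_ne_zero)

theorem Lim_zero {t : List α} {ξ : X} (h : ξ ∈ S.Lim t) (a : α) : S.β (a :: t) ξ = 0 := by
  have h1 := mem_iInter.1 h {a}
  have h2 : IsClosed {ξ | S.β (a :: t) ξ = 0} := isClosed_eq (S.β _).continuous continuous_const
  refine closure_minimal (iUnion₂_subset fun b hb x hx => ?_) h2 h1
  refine S.disj b a t x (by simpa using hb) ?_
  rw [show S.β (b :: t) x = 1 from hx]; exact one_ne_zero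

theorem Lim_directed (t : List α) : Directed (· ⊇ ·)
    fun F : Finset α => closure (⋃ a ∈ {a | a ∉ F}, {ξ | S.β (a :: t) ξ = 1}) := by
  classical
  intro F G
  refine ⟨F ∪ G, closure_mono (biUnion_subset_biUnion_left fun a ha => ?_),
    closure_mono (biUnion_subset_biUnion_left fun a ha => ?_)⟩
  · exact fun h => ha (Finset.mem_union_left _ h)
  · exact fun h => ha (Finset.mem_union_right _ h)

theorem Lim_nonempty [CompactSpace X] [Infinite α] (t : List α) : (S.Lim t).Nonempty := by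
  refine IsCompact.nonempty_iInter_of_directed_nonempty_isCompact_isClosed _ (S.Lim_directed t)
    (fun F => ?_) (fun F => isClosed_closure.isCompact) (fun F => isClosed_closure)
  obtain ⟨a, ha⟩ := Infinite.exists_notMem_finset F
  obtain ⟨ξ, hξ⟩ := S.ne (a :: t)
  exact ⟨ξ, subset_closure (mem_biUnion (show a ∈ {a | a ∉ F} from ha) hξ)⟩

theorem Lim_nhds [CompactSpace X] {t : List α} {U : Set X} (hU : IsOpen U) (h : S.Lim t ⊆ U) :
    ∃ F : Finset α, ∀ a ∉ F, ∀ ξ, S.β (a :: t) ξ = 1 → ξ ∈ U := by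
  obtain ⟨F, hF⟩ := exists_subset_nhds_of_isCompact' (S.Lim_directed t)
    (fun F => isClosed_closure.isCompact) (fun F => isClosed_closure)
    (fun x hx => hU.mem_nhds (h hx))
  exact ⟨F, fun a ha ξ hξ =>
    hF (subset_closure (mem_biUnion (show a ∈ {a | a ∉ F} from ha) hξ))⟩

end Scheme

end Pool.Agent.Lib.MP_318f17_gt
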