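import Pool.Agent.Lib.MP_318f17_gt.Main

/-!
Absorbing a null sequence when the space has a nontrivial convergent sequence, and the passage
to homeomorphisms of the spaces of continuous functions inside the product topology.
-/

set_option autoImplicit false

namespace Pool.Agent.Lib.MP_318f17_gt

open Filter Topology Set

/-- A convergent sequence together with disjoint bumps at its terms. -/
structure Bumps (X : Type*) [TopologicalSpace X] where
  t : ℕ → X
  y : X
  φ : ℕ → C(X, ℝ)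
  lim : Tendsto t atTop (𝓝 y)
  bound : ∀ n ξ, |φ n ξ| ≤ 1
  one : ∀ n, φ n (t n) = 1
  zero : ∀ n, φ n y = 0
  disj : ∀ n m ξ, n ≠ m → φ n ξ ≠ 0 → φ m ξ = 0

theorem exists_bumps {X : Type*} [TopologicalSpace X] [CompactSpace X] [T2Space X]
    (hX : ¬ NoSeq X) : Nonempty (Bumps X) := by
  obtain ⟨s, y, hs, hy⟩ := not_not.1 hX
  have hstep : ∀ (n : ℕ) (V : {V : Set X // IsOpen V ∧ y ∈ V}),
      ∃ (k : ℕ) (W : Set X) (V' : {V : Set X // IsOpen V ∧ y ∈ V}), n ≤ k ∧ IsOpen W ∧ s k ∈ W ∧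
        W ⊆ V.1 ∧ V'.1 ⊆ V.1 ∧ Disjoint W V'.1 := by
    intro n V
    have h1 : ∀ᶠ k in atTop, s k ∈ V.1 := hy (V.2.1.mem_nhds V.2.2)
    have h2 : ∀ᶠ k in atTop, s k ≠ y := by
      rw [← Nat.cofinite_eq_atTop, eventually_cofinite]
      refine ((finite_singleton y).preimage (f := s) hs.injOn).subset fun k hk => ?_
      simpa using hk
    obtain ⟨k, hk1, hk2, hk3⟩ := (h1.and (h2.and (eventually_ge_atTop n))).exists
    obtain ⟨A, B, hA, hB, haA, hbB, hAB⟩ := t2_separation hk2
    exact ⟨k, A ∩ V.1, ⟨B ∩ V.1, hB.inter V.2.1, hbB, V.2.2⟩, hk3, hA.inter V.2.1, ⟨haA, hk1⟩,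
      inter_subset_right, inter_subset_right, hAB.mono inter_subset_left inter_subset_left⟩
  choose k W g hk hWo hsW hWV hgV hd using hstep
  let seq : ℕ → {V : Set X // IsOpen V ∧ y ∈ V} := fun n =>
    Nat.rec ⟨univ, isOpen_univ, mem_univ _⟩ (fun n U => g n U) n
  have hanti : ∀ n m, n ≤ m → (seq m).1 ⊆ (seq n).1 := by
    intro n m h
    induction h with
    | refl => exact subset_rfl
    | step _ ih => exact (hgV _ _).trans ih
  have hlt : ∀ n m, n < m → Disjoint (W n (seq n)) (W m (seq m)) := by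
    intro n m h
    exact (hd n (seq n)).mono_right ((hWV _ _).trans (hanti (n + 1) m h))
  have hb : ∀ n, ∃ f : C(X, ℝ), (∀ ξ, |f ξ| ≤ 1) ∧ f (s (k n (seq n))) = 1 ∧
      ∀ ξ, f ξ ≠ 0 → ξ ∈ W n (seq n) := by
    intro n
    obtain ⟨f, h0, h1, h01⟩ := exists_continuous_zero_one_of_isClosed
      (hWo n (seq n)).isClosed_compl (isClosed_singleton (x := s (k n (seq n))))
      (disjoint_compl_left_iff_subset.2 (singleton_subset_iff.2 (hsW n (seq n))))
    refine ⟨f, fun ξ => abs_le.2 ⟨by linarith [(h01 ξ).1], (h01 ξ).2⟩, h1 rfl, fun ξ hξ => ?_⟩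
    by_contra h
    exact hξ (h0 h)
  choose φ h1 h2 h3 using hb
  refine ⟨⟨fun n => s (k n (seq n)), y, φ,
    hy.comp (tendsto_atTop_mono (fun n => hk n (seq n)) tendsto_id), h1, h2, fun n => ?_,
    fun n m ξ hnm h => ?_⟩⟩
  · by_contra h
    exact Set.disjoint_left.1 (hd n (seq n)) (h3 n y h) (g n (seq n)).2.2
  · by_contra h'
    rcases lt_or_gt_of_ne hnm with h0 | h0
    · exact Set.disjoint_left.1 (hlt n m h0) (h3 n ξ h) (h3 m ξ h')
    · exact Set.disjoint_left.1 (hlt m n h0) (h3 m ξ h') (h3 n ξ h)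

namespace Bumps

variable {X : Type*} [TopologicalSpace X] (B : Bumps X)

/-- The sum of the bumps with given coefficients. -/
noncomputable def H (c : ℕ → ℝ) (ξ : X) : ℝ := ∑' n, c n * B.φ n ξ

theorem ex_single (ξ : X) : ∃ n, ∀ m, m ≠ n → B.φ m ξ = 0 := by
  by_cases h : ∃ n, B.φ n ξ ≠ 0
  · obtain ⟨n, hn⟩ := h
    exact ⟨n, fun m hm => B.disj n m ξ hm.symm hn⟩
  · push Not at h
    exact ⟨0, fun m _ => h m⟩

theorem H_eq {ξ : X} {n : ℕ} (h : ∀ m, m ≠ n → B.φ m ξ = 0) (c : ℕ → ℝ) :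
    B.H c ξ = c n * B.φ n ξ :=
  tsum_eq_single n fun m hm => by rw [h m hm, mul_zero]

theorem continuous_H {c : ℕ → ℝ} (hc : Tendsto c atTop (𝓝 0)) : Continuous (B.H c) := by
  have : TendstoUniformly (fun N ξ => ∑ n ∈ Finset.range N, c n * B.φ n ξ) (B.H c) atTop := by
    rw [Metric.tendstoUniformly_iff]
    intro ε hε
    obtain ⟨N, hN⟩ := Metric.tendsto_atTop.1 hc ε hε
    filter_upwards [eventually_ge_atTop N] with M hM ξ
    obtain ⟨n, hn⟩ := B.ex_single ξ
    rw [B.H_eq hn]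
    by_cases hnM : n < M
    · rw [Finset.sum_eq_single n (fun m _ hm => by rw [hn m hm, mul_zero])
        (fun h => absurd (Finset.mem_range.2 hnM) h), dist_self]
      exact hε
    · rw [Finset.sum_eq_zero (fun m hm => by
        rw [hn m (by have := Finset.mem_range.1 hm; omega), mul_zero]), Real.dist_eq, sub_zero,
        abs_mul]
      have h1 := hN n (by omega)
      rw [Real.dist_eq, sub_zero] at h1
      exact (mul_le_of_le_one_right (abs_nonneg _) (B.bound n ξ)).trans_lt h1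
  exact this.continuous (Eventually.frequently (Eventually.of_forall fun N => by fun_prop))

open Classical in
/-- The sum of the bumps as a continuous function. -/
noncomputable def HC (c : ℕ → ℝ) : C(X, ℝ) :=
  if h : Continuous (B.H c) then ⟨_, h⟩ else 0

theorem HC_apply {c : ℕ → ℝ} (hc : Tendsto c atTop (𝓝 0)) (ξ : X) : B.HC c ξ = B.H c ξ := by
  rw [HC, dif_pos (B.continuous_H hc)]
  rfl

/-- The null sequence of a function. -/
noncomputable def dat (z : C(X, ℝ)) (n : ℕ) : ℝ := z (B.t n) - z B.y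

theorem tendsto_dat (z : C(X, ℝ)) : Tendsto (B.dat z) atTop (𝓝 0) := by
  have := ((z.continuous.tendsto B.y).comp B.lim).sub_const (z B.y)
  rw [sub_self] at this
  exact this

theorem dat_HC {c : ℕ → ℝ} (hc : Tendsto c atTop (𝓝 0)) : B.dat (B.HC c) = c := by
  funext n
  rw [dat, B.HC_apply hc, B.HC_apply hc,
    B.H_eq (n := n) (fun m hm => B.disj n m _ hm.symm (by rw [B.one]; exact one_ne_zero)),
    B.H_eq (n := n) (fun m _ => B.zero m), B.one, B.zero]
  ring

theorem dat_add (z u : C(X, ℝ)) : B.dat (z + u) = B.dat z + B.dat u := by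
  funext n
  simp only [dat, ContinuousMap.add_apply, Pi.add_apply]
  ring

theorem dat_sub (z u : C(X, ℝ)) : B.dat (z - u) = B.dat z - B.dat u := by
  funext n
  simp only [dat, ContinuousMap.sub_apply, Pi.sub_apply]
  ring

/-- Interleaving two sequences. -/
def inter (a w : ℕ → ℝ) (n : ℕ) : ℝ := if n % 2 = 0 then a (n / 2) else w (n / 2)

theorem tendsto_inter {a w : ℕ → ℝ} (ha : Tendsto a atTop (𝓝 0)) (hw : Tendsto w atTop (𝓝 0)) :
    Tendsto (inter a w) atTop (𝓝 0) := by
  have h2 : Tendsto (fun n : ℕ => n / 2) atTop atTop := Nat.tendsto_div_const_atTop two_ne_zero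
  exact Tendsto.if' (ha.comp h2) (hw.comp h2)

theorem inter_even (a w : ℕ → ℝ) (n : ℕ) : inter a w (2 * n) = a n := by
  rw [inter, if_pos (by omega), show 2 * n / 2 = n by omega]

theorem inter_odd (a w : ℕ → ℝ) (n : ℕ) : inter a w (2 * n + 1) = w n := by
  rw [inter, if_neg (by omega), show (2 * n + 1) / 2 = n by omega]

theorem inter_self (b : ℕ → ℝ) : inter (fun n => b (2 * n)) (fun n => b (2 * n + 1)) = b := by
  funext n
  unfold inter
  split_ifs with h
  · exact congrArg b (by omega)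
  · exact congrArg b (by omega)

/-- The absorbing map. -/
noncomputable def Fw (z : C(X, ℝ)) (w : ℕ → ℝ) : C(X, ℝ) :=
  z + B.HC (inter (B.dat z) w - B.dat z)

/-- The function part of the inverse. -/
noncomputable def Bz (f : C(X, ℝ)) : C(X, ℝ) :=
  f - B.HC (B.dat f - fun n => B.dat f (2 * n))

/-- The sequence part of the inverse. -/
noncomputable def Bw (f : C(X, ℝ)) (n : ℕ) : ℝ := B.dat f (2 * n + 1)

theorem tendsto_ev (f : C(X, ℝ)) : Tendsto (fun n => B.dat f (2 * n)) atTop (𝓝 0) :=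
  (B.tendsto_dat f).comp (tendsto_atTop_mono (fun n => by simp only [id]; omega) tendsto_id)

theorem tendsto_Bw (f : C(X, ℝ)) : Tendsto (B.Bw f) atTop (𝓝 0) :=
  (B.tendsto_dat f).comp (tendsto_atTop_mono (fun n => by simp only [id]; omega) tendsto_id)

theorem tendsto_c1 (z : C(X, ℝ)) {w : ℕ → ℝ} (hw : Tendsto w atTop (𝓝 0)) :
    Tendsto (inter (B.dat z) w - B.dat z) atTop (𝓝 0) := by
  have := (tendsto_inter (B.tendsto_dat z) hw).sub (B.tendsto_dat z)
  rw [sub_zero] at this
  exact this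

theorem tendsto_c2 (f : C(X, ℝ)) :
    Tendsto (B.dat f - fun n => B.dat f (2 * n)) atTop (𝓝 0) := by
  have := (B.tendsto_dat f).sub (B.tendsto_ev f)
  rw [sub_zero] at this
  exact this

theorem B_Fw (z : C(X, ℝ)) {w : ℕ → ℝ} (hw : Tendsto w atTop (𝓝 0)) :
    B.Bz (B.Fw z w) = z ∧ B.Bw (B.Fw z w) = w := by
  have h1 : B.dat (B.Fw z w) = inter (B.dat z) w := by
    rw [Fw, dat_add, B.dat_HC (B.tendsto_c1 z hw), add_sub_cancel]
  refine ⟨?_, funext fun n => by rw [Bw, h1, inter_odd]⟩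
  rw [Bz, h1]
  simp only [inter_even]
  rw [Fw, add_sub_cancel_right]

theorem Fw_B (f : C(X, ℝ)) : B.Fw (B.Bz f) (B.Bw f) = f := by
  have h1 : B.dat (B.Bz f) = fun n => B.dat f (2 * n) := by
    rw [Bz, dat_sub, B.dat_HC (B.tendsto_c2 f), sub_sub_cancel]
  have h2 : inter (fun n => B.dat f (2 * n)) (B.Bw f) = B.dat f := inter_self _
  rw [Fw, h1, h2, Bz, sub_add_cancel]

variable {P : Type*} [TopologicalSpace P]

theorem continuous_HC {c : P → ℕ → ℝ} (hc : ∀ n, Continuous fun π => c π n)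
    (h : ∀ π, Tendsto (c π) atTop (𝓝 0)) (ξ : X) : Continuous fun π => B.HC (c π) ξ := by
  obtain ⟨n, hn⟩ := B.ex_single ξ
  simp only [B.HC_apply (h _), B.H_eq hn]
  exact (hc n).mul continuous_const

theorem continuous_dat {z : P → C(X, ℝ)} (hz : ∀ ξ, Continuous fun π => z π ξ) (n : ℕ) :
    Continuous fun π => B.dat (z π) n :=
  (hz _).sub (hz _)

theorem continuous_Fw {z : P → C(X, ℝ)} {w : P → ℕ → ℝ} (hz : ∀ ξ, Continuous fun π => z π ξ)
    (hw : ∀ n, Continuous fun π => w π n) (h0 : ∀ π, Tendsto (w π) atTop (𝓝 0)) (ξ : X) :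
    Continuous fun π => B.Fw (z π) (w π) ξ := by
  refine (hz ξ).add (B.continuous_HC (fun n => Continuous.sub ?_ (B.continuous_dat hz n))
    (fun π => B.tendsto_c1 _ (h0 π)) ξ)
  unfold inter
  split_ifs
  · exact B.continuous_dat hz _
  · exact hw _

theorem continuous_Bz {f : P → C(X, ℝ)} (hf : ∀ ξ, Continuous fun π => f π ξ) (ξ : X) :
    Continuous fun π => B.Bz (f π) ξ :=
  (hf ξ).sub (B.continuous_HC
    (fun n => (B.continuous_dat hf n).sub (B.continuous_dat hf (2 * n)))
    (fun _ => B.tendsto_c2 _) ξ)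

/-- The bijection between the two function spaces. -/
noncomputable def equiv : C(X, ℝ) ≃ C(X ⊕ OnePoint ℕ, ℝ) where
  toFun f := glue (B.Bz f) (B.Bw f) (B.tendsto_Bw f)
  invFun g := B.Fw (resOf g) (seqOf g)
  left_inv f := by
    simp only [resOf_glue, seqOf_glue]
    exact B.Fw_B f
  right_inv g := glue_of _ (B.B_Fw _ (tendsto_seqOf g)).1 (B.B_Fw _ (tendsto_seqOf g)).2

theorem continuous_equiv {f : P → C(X, ℝ)}
    (hf : ∀ ξ, Continuous fun π => f π ξ) (a : X ⊕ OnePoint ℕ) :
    Continuous fun π => B.equiv (f π) a := by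
  rcases a with a | a
  · exact B.continuous_Bz hf a
  · induction a using OnePoint.rec with
    | infty => exact B.continuous_dat hf _
    | coe n => exact (B.continuous_dat hf _).add (B.continuous_dat hf _)

theorem continuous_equiv_symm {g : P → C(X ⊕ OnePoint ℕ, ℝ)}
    (hg : ∀ a, Continuous fun π => g π a) (ξ : X) :
    Continuous fun π => B.equiv.symm (g π) ξ := by
  refine B.continuous_Fw (fun ξ => hg (Sum.inl ξ)) (fun n => ?_) (fun π => tendsto_seqOf _) ξ
  cases n with
  | zero => exact hg _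
  | succ n => exact (hg _).sub (hg _)

end Bumps

theorem homeo_of_equiv {X Y : Type*} [TopologicalSpace X] [TopologicalSpace Y]
    (e : C(X, ℝ) ≃ C(Y, ℝ))
    (h1 : ∀ a, Continuous fun f : {f : X → ℝ // Continuous f} => e ⟨f.1, f.2⟩ a)
    (h2 : ∀ a, Continuous fun g : {g : Y → ℝ // Continuous g} => e.symm ⟨g.1, g.2⟩ a) :
    Nonempty ({f : X → ℝ // Continuous f} ≃ₜ {g : Y → ℝ // Continuous g}) :=
  ⟨{ toFun := fun f => ⟨e ⟨f.1, f.2⟩, (e _).continuous⟩
     invFun := fun g => ⟨e.symm ⟨g.1, g.2⟩, (e.symm _).continuous⟩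
     left_inv := fun f => Subtype.ext (congrArg DFunLike.coe (e.symm_apply_apply ⟨f.1, f.2⟩))
     right_inv := fun g => Subtype.ext (congrArg DFunLike.coe (e.apply_symm_apply ⟨g.1, g.2⟩))
     continuous_toFun := (continuous_pi h1).subtype_mk _
     continuous_invFun := (continuous_pi h2).subtype_mk _ }⟩

theorem homeo_sum (X : Type*) [TopologicalSpace X] [CompactSpace X] [T2Space X] [Infinite X] :
    Nonempty ({f : X → ℝ // Continuous f} ≃ₜ {g : X ⊕ OnePoint ℕ → ℝ // Continuous g}) := by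
  by_cases hX : NoSeq X
  · obtain ⟨R⟩ := exists_rows hX
    exact homeo_of_equiv R.equiv
      (R.continuous_equiv fun ξ => (continuous_apply ξ).comp continuous_subtype_val)
      (R.continuous_equiv_symm fun ξ => (continuous_apply ξ).comp continuous_subtype_val)
  · obtain ⟨B⟩ := exists_bumps hX
    exact homeo_of_equiv B.equiv
      (B.continuous_equiv fun ξ => (continuous_apply ξ).comp continuous_subtype_val)
      (B.continuous_equiv_symm fun ξ => (continuous_apply ξ).comp continuous_subtype_val)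

end Pool.Agent.Lib.MP_318f17_gt
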