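import Pool.Agent.Lib.MP_318f17_gt.Twist
import Pool.Agent.Lib.MP_318f17_gt.AS

/-!
The steps of a chain: scales, gauges and the basic estimates.
-/

set_option autoImplicit false

namespace Pool.Agent.Lib.MP_318f17_gt

open Filter Topology Set

/-- The item treated at a step: a row, a kind and a node of the guess tree. -/
noncomputable def item : ℕ → ℕ × Bool × List ℕ := (exists_prop (ℕ × Bool × List ℕ)).choose

theorem item_spec : ∀ h, ∃ᶠ j in atTop, item j = h :=
  (exists_prop (ℕ × Bool × List ℕ)).choose_spec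

/-- The row of a step. -/
noncomputable def row (e : ℕ) : ℕ := (item e).1

/-- The kind of a step. -/
noncomputable def deep (e : ℕ) : Bool := (item e).2.1

/-- The node of a step. -/
noncomputable def node (e : ℕ) : List ℕ := (item e).2.2

/-- The scale of a row. -/
noncomputable def th (k : ℕ) : ℝ := (1 / 4) ^ k

theorem th_pos (k : ℕ) : 0 < th k := by unfold th; positivity

theorem th_succ (k : ℕ) : th (k + 1) = th k / 4 := by unfold th; ring

theorem th_anti {i j : ℕ} (h : i ≤ j) : th j ≤ th i :=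
  pow_le_pow_of_le_one (by norm_num) (by norm_num) h

theorem th_zero : th 0 = 1 := rfl

/-- The outer slope of the gauge. -/
noncomputable def sl (e : ℕ) : ℝ := if deep e then 6 / th (row e) else 1 / th (row e)

/-- The weight of the steep part of the gauge. -/
noncomputable def cc (e : ℕ) : ℝ := if deep e then 1 else 0

/-- Accumulated Lipschitz constants. -/
noncomputable def Lam : ℕ → ℝ
  | 0 => 1
  | e + 1 => Lam e * (261 * (1 + sl e + cc e / ((1 / 2) ^ e / (4 * Lam e)) + 1 / sl e) ^ 2)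

/-- The width of the steep part of the gauge. -/
noncomputable def kap (e : ℕ) : ℝ := (1 / 2) ^ e / (4 * Lam e)

theorem sl_pos (e : ℕ) : 0 < sl e := by
  have := th_pos (row e)
  unfold sl; split_ifs <;> positivity

theorem cc_nonneg (e : ℕ) : 0 ≤ cc e := by unfold cc; split_ifs <;> norm_num

theorem one_le_Lam (e : ℕ) : 1 ≤ Lam e := by
  induction e with
  | zero => exact le_rfl
  | succ e ih =>
    have h1 := sl_pos e
    have h2 := cc_nonneg e
    have h3 : 0 ≤ sl e + cc e / ((1 / 2) ^ e / (4 * Lam e)) + 1 / sl e := by positivity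
    rw [Lam]
    refine one_le_mul_of_one_le_of_one_le ih ?_
    nlinarith

theorem kap_pos (e : ℕ) : 0 < kap e := by
  have := one_le_Lam e
  unfold kap; positivity

/-- The gauge of a step. -/
noncomputable def ga (e : ℕ) : Gauge :=
  mkGauge (sl e) (cc e) (kap e) (sl_pos e) (cc_nonneg e) (kap_pos e)

theorem Lam_succ (e : ℕ) : Lam (e + 1) = Lam e * (261 * (ga e).L ^ 2) := rfl

/-- Whether the twist of a step is cut off. -/
noncomputable def cut (e : ℕ) : Bool := deep e || decide (row e ≠ 0)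

/-- The map of a step. -/
noncomputable def stp (ε : ℝ) (e : ℕ) (A : ℝ) (v : ℝ × ℝ) : ℝ × ℝ := st (ga e) ε (cut e) A v

theorem abs_ga (e : ℕ) (u : ℝ) : |(ga e).g u| = sl e * |u| + cc e * clamp 2 (|u| / kap e) :=
  abs_gfun (sl_pos e) (cc_nonneg e) (kap_pos e) u

theorem ga_ord {e : ℕ} (h : deep e = false) (u r : ℝ) :
    |(ga e).g u| ≤ r ↔ |u| ≤ r * th (row e) := by
  rw [abs_ga, sl, cc, h]
  simp only [Bool.false_eq_true, if_false, zero_mul, add_zero]
  rw [one_div, ← div_eq_inv_mul, div_le_iff₀ (th_pos _)]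

theorem ga_deep {e : ℕ} (h : deep e = true) (u : ℝ) :
    ∃ t, 0 ≤ t ∧ t ≤ 2 ∧ (2 * kap e ≤ |u| → t = 2) ∧
      |(ga e).g u| * th (row e) = 6 * |u| + t * th (row e) := by
  refine ⟨clamp 2 (|u| / kap e), ?_, clamp_le (by norm_num) _, fun h2 => ?_, ?_⟩
  · have := kap_pos e
    exact le_max_of_le_right (le_min (by norm_num) (by positivity))
  · have : 2 ≤ |u| / kap e := by rw [le_div_iff₀ (kap_pos e)]; exact h2
    rw [clamp, min_eq_left this]; norm_num
  · rw [abs_ga, sl, cc, h]
    have := th_pos (row e)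
    simp only [if_true]
    field_simp

section

variable {e : ℕ} (h : deep e = true) {u : ℝ}
include h

theorem deep1 (hu : |(ga e).g u| ≤ 2) : |u| ≤ 2 * kap e := by
  obtain ⟨t, _, _, h3, h4⟩ := ga_deep h u
  by_contra hc
  have h5 := not_le.1 hc
  rw [h3 h5.le] at h4
  have := th_pos (row e)
  have := kap_pos e
  nlinarith

theorem deep2 (hu : |u| ≤ th (row e)) : |(ga e).g u| ≤ 8 := by
  obtain ⟨t, _, _, _, h4⟩ := ga_deep h u
  have := th_pos (row e)
  nlinarith

theorem deep3 (hu : |(ga e).g u| ≤ 16) : |u| ≤ 4 * th (row e) := by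
  obtain ⟨t, _, _, _, h4⟩ := ga_deep h u
  have := th_pos (row e)
  nlinarith

theorem deep4 (hu : |u| ≤ th (row e) / 4) : |(ga e).g u| ≤ 4 := by
  obtain ⟨t, _, _, _, h4⟩ := ga_deep h u
  have := th_pos (row e)
  nlinarith

theorem deep5 (hu : |(ga e).g u| ≤ 4) : |u| ≤ th (row e) := by
  obtain ⟨t, _, _, _, h4⟩ := ga_deep h u
  have := th_pos (row e)
  nlinarith

end

theorem stp_zero (ε : ℝ) (e : ℕ) (u x : ℝ) : stp ε e 0 (u, x) = (u, x) := st_id (zero_mul _)

theorem stp_small {ε : ℝ} {e : ℕ} {A u x : ℝ} (h : deep e = false) (hu : |u| ≤ th (row e))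
    (hx : |x| ≤ 1) : stp ε e A (u, x) = (u, x) := by
  refine st_id ?_
  rw [bf_small _ (max_le ((ga_ord h u 1).2 (by simpa using hu)) hx), mul_zero]

theorem stp_large {ε : ℝ} {e : ℕ} {A u x : ℝ} (h : cut e = true)
    (hN : 16 ≤ max |(ga e).g u| |x|) : stp ε e A (u, x) = (u, x) := by
  refine st_id ?_
  rw [h, bf_large hN, mul_zero]

section

variable {ε : ℝ} {e : ℕ} {A : ℝ} (hε : ε ^ 2 = 1) (h0 : 0 ≤ A) (h1 : A ≤ 1)
include hε h0 h1

theorem stp_stp (v : ℝ × ℝ) : stp (-ε) e A (stp ε e A v) = v := st_st hε h0 h1 v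

theorem stp_cases (u x : ℝ) : |(stp ε e A (u, x)).1| ≤ |u| ∨
    (|(ga e).g u| ≤ |x| ∧ |(ga e).g (stp ε e A (u, x)).1| ≤ |x|) := by
  have := st_fst (G := ga e) (c := cut e) hε h0 h1 u x
  rcases le_total |x| |(ga e).g u| with h | h
  · left
    rw [max_eq_left h] at this
    exact ((ga e).mono _ _).1 this
  · right
    rw [max_eq_right h] at this
    exact ⟨h, this⟩

theorem stp_good {u x : ℝ} (hx : |x| ≤ 1) : |(stp ε e A (u, x)).1| ≤ |u| := by
  rcases stp_cases (e := e) hε h0 h1 u x with h | h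
  · exact h
  · have : stp ε e A (u, x) = (u, x) := by
      refine st_id ?_
      rw [bf_small _ (max_le (h.1.trans hx) hx), mul_zero]
    rw [this]

theorem stp_out (hc : cut e = true) (u x : ℝ) :
    |(stp ε e A (u, x)).1| ≤ |u| ∨ |(ga e).g (stp ε e A (u, x)).1| ≤ 16 := by
  rcases le_total 16 (max |(ga e).g u| |x|) with h | h
  · left; rw [stp_large hc h]
  · right; exact (st_fst hε h0 h1 u x).trans h

theorem stp_out_ord (h : deep e = false) (hr : row e ≠ 0) (u x : ℝ) :
    |(stp ε e A (u, x)).1| ≤ max |u| (16 * th (row e)) := by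
  rcases stp_out (e := e) hε h0 h1 (by simp [cut, hr]) u x with h2 | h2
  · exact le_max_of_le_left h2
  · exact le_max_of_le_right ((ga_ord h _ _).1 h2)

theorem stp_out_deep (h : deep e = true) (u x : ℝ) :
    |(stp ε e A (u, x)).1| ≤ max |u| (4 * th (row e)) := by
  rcases stp_out (e := e) hε h0 h1 (by simp [cut, h]) u x with h2 | h2
  · exact le_max_of_le_left h2
  · exact le_max_of_le_right (deep3 h h2)

theorem stp_change (hr : row e ≠ 0) (u x : ℝ) : |(stp ε e A (u, x)).2 - x| ≤ 32 := by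
  rcases le_total 16 (max |(ga e).g u| |x|) with h | h
  · rw [stp_large (by simp [cut, hr]) h]; simp
  · have a1 : |(stp ε e A (u, x)).2| ≤ 16 := (st_snd hε h0 h1 u x).trans h
    have a2 : |x| ≤ 16 := (le_max_right _ _).trans h
    exact (abs_sub _ _).trans (by linarith)

theorem stp_dump (h : deep e = true) {u x : ℝ} (hu : |u| ≤ th (row e) / 4) (hx : |x| ≤ 4) :
    |(stp ε e A (u, x)).2| ≤ 4 := (st_snd hε h0 h1 u x).trans (max_le (deep4 h hu) hx)

theorem stp_keep (h : deep e = true) (u : ℝ) {x : ℝ} (hx : |x| ≤ 4) :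
    |(stp ε e A (u, x)).1| ≤ max |u| (th (row e)) := by
  rcases stp_cases (e := e) hε h0 h1 u x with h2 | h2
  · exact le_max_of_le_left h2
  · exact le_max_of_le_right (deep5 h (h2.2.trans hx))

theorem stp_lip (u u' x : ℝ) :
    |(stp ε e A (u, x)).1 - (stp ε e A (u', x)).1| * Lam e ≤ |u - u'| * Lam (e + 1) := by
  have := st_lip (G := ga e) (c := cut e) hε h0 h1 u u' x
  have h2 := one_le_Lam e
  rw [Lam_succ]
  unfold stp
  nlinarith

end

theorem stp_full_small {ε : ℝ} (hε : ε ^ 2 = 1) {e : ℕ} {u x : ℝ} (hx : |x| ≤ 2)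
    (hc : cut e = true → |(ga e).g u| ≤ 8) : |(ga e).g (stp ε e 1 (u, x)).1| ≤ 2 := by
  rcases le_total 2 (max |(ga e).g u| |x|) with h | h
  · have he : |ε| = 1 := by
      rcases sq_eq_one_iff.1 hε with h | h <;> simp [h]
    unfold stp
    rw [st_full hε h fun h' => max_le (hc h') (by linarith), (ga e).right, abs_mul, abs_neg, he,
      one_mul]
    exact hx
  · exact (st_fst hε zero_le_one le_rfl u x).trans h

theorem stp_full_ord {ε : ℝ} (hε : ε ^ 2 = 1) {e : ℕ} (h : deep e = false) {u x : ℝ}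
    (hx : |x| ≤ 1) (hu : row e = 0 ∨ |u| ≤ 8 * th (row e)) :
    |(stp ε e 1 (u, x)).1| ≤ 2 * th (row e) := by
  refine (ga_ord h _ _).1 (stp_full_small hε (by linarith) fun hc => ?_)
  rcases hu with hu | hu
  · simp [cut, h, hu] at hc
  · exact (ga_ord h _ _).2 hu

theorem stp_full_deep {ε : ℝ} (hε : ε ^ 2 = 1) {e : ℕ} (h : deep e = true) {u u' x : ℝ}
    (hx : |x| ≤ 4) (hu : |u| ≤ th (row e)) (hu' : |u'| ≤ th (row e)) :
    |(stp ε e 1 (u, x)).1 - (stp ε e 1 (u', x)).1| ≤ 4 * kap e := by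
  rcases le_total 2 |x| with h2 | h2
  · unfold stp
    rw [st_full hε (le_max_of_le_right h2) fun _ => max_le (deep2 h hu) (by linarith),
      st_full hε (le_max_of_le_right h2) fun _ => max_le (deep2 h hu') (by linarith)]
    have := kap_pos e
    simp only [sub_self, abs_zero]
    linarith
  · have a1 := deep1 h (stp_full_small hε h2 fun _ => deep2 h hu)
    have a2 := deep1 h (stp_full_small hε h2 fun _ => deep2 h hu')
    exact (abs_sub _ _).trans (by linarith)

theorem continuous_stp (ε : ℝ) (e : ℕ) :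
    Continuous fun q : ℝ × (ℝ × ℝ) => stp ε e q.1 q.2 := continuous_st _ _ _

/-- The level `th j` persists from step `e1` on. -/
def Per (f : ℕ → ℝ → ℝ) (j e1 : ℕ) : Prop := ∀ e, e1 ≤ e → ∀ u, |f e u| ≤ max |u| (th j)

/-- Reducing steps occur infinitely often. -/
def Full (f : ℕ → ℝ → ℝ) (j : ℕ) : Prop :=
  ∀ i ≤ j + 1, ∃ᶠ e in atTop, ∀ u, (i = 0 ∨ |u| ≤ 8 * th i) → |f e u| ≤ 2 * th i

theorem level_le {i j : ℕ} (h : i + 1 ≤ j + 1) : max (2 * th i) (th j) ≤ 8 * th (i + 1) := by
  have h1 := th_anti (show i ≤ j by omega)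
  have := th_pos i
  rw [th_succ]
  exact max_le (by linarith) (by linarith)

theorem level_last (j : ℕ) : max (2 * th (j + 1)) (th j) ≤ th j := by
  have := th_pos j
  rw [th_succ]
  exact max_le (by linarith) le_rfl

theorem pers_fw {f : ℕ → ℝ → ℝ} {j e1 : ℕ} (hp : Per f j e1) {u : ℕ → ℝ}
    (hu : ∀ e, u (e + 1) = f e (u e)) {a b : ℕ} (ha : e1 ≤ a) (hab : a ≤ b) {l : ℝ}
    (h : |u a| ≤ max l (th j)) : |u b| ≤ max l (th j) := by
  induction hab with
  | refl => exact h
  | @step b hb ih =>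
    rw [hu]
    exact (hp b (ha.trans hb) _).trans (max_le ih (le_max_right _ _))

theorem red_fw {f : ℕ → ℝ → ℝ} {j e1 : ℕ} (hp : Per f j e1) (hf : Full f j) {u : ℕ → ℝ}
    (hu : ∀ e, u (e + 1) = f e (u e)) : ∀ᶠ e in atTop, |u e| ≤ th j := by
  have key : ∀ i ≤ j + 1, ∀ᶠ e in atTop, |u e| ≤ max (2 * th i) (th j) := by
    intro i hi
    have fin : (∀ᶠ e in atTop, i = 0 ∨ |u e| ≤ 8 * th i) →
        ∀ᶠ e in atTop, |u e| ≤ max (2 * th i) (th j) := by
      intro h
      obtain ⟨q, h1, h2, h3⟩ := ((hf i hi).and_eventually (h.and (eventually_ge_atTop e1))).exists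
      filter_upwards [eventually_ge_atTop (q + 1)] with e he
      refine pers_fw hp hu (by omega) he (le_max_of_le_left ?_)
      rw [hu]; exact h1 _ h2
    induction i with
    | zero => exact fin (Eventually.of_forall fun _ => Or.inl rfl)
    | succ i ih =>
      refine fin ?_
      have hi' : i ≤ j + 1 := by omega
      have fin' : (∀ᶠ e in atTop, i = 0 ∨ |u e| ≤ 8 * th i) →
          ∀ᶠ e in atTop, |u e| ≤ max (2 * th i) (th j) := by
        intro h
        obtain ⟨q, h1, h2, h3⟩ :=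
          ((hf i hi').and_eventually (h.and (eventually_ge_atTop e1))).exists
        filter_upwards [eventually_ge_atTop (q + 1)] with e he
        refine pers_fw hp hu (by omega) he (le_max_of_le_left ?_)
        rw [hu]; exact h1 _ h2
      filter_upwards [ih hi' fin'] with e he
      exact Or.inr (he.trans (level_le hi))
  filter_upwards [key (j + 1) le_rfl] with e he
  exact he.trans (level_last j)

/-- A solution of the backward recursion on the interval from `a` to `p`. -/
def BSol (f : ℕ → ℝ → ℝ) (u : ℕ → ℝ) (a p : ℕ) : Prop :=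
  ∀ e, a ≤ e → e < p → u e = f e (u (e + 1))

theorem BSol.mono {f : ℕ → ℝ → ℝ} {u : ℕ → ℝ} {a p a' : ℕ} (h : BSol f u a p) (ha : a ≤ a') :
    BSol f u a' p := fun e h1 h2 => h e (ha.trans h1) h2

theorem pers_bw {f : ℕ → ℝ → ℝ} {j e1 : ℕ} (hp : Per f j e1) {u : ℕ → ℝ} {a p b : ℕ}
    (hu : BSol f u a p) (ha : e1 ≤ a) (hab : a ≤ b) (hb : b ≤ p) {l : ℝ}
    (h : |u b| ≤ max l (th j)) : |u a| ≤ max l (th j) := by
  induction hab with
  | refl => exact h
  | @step b hb' ih =>
    refine ih (by omega) ?_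
    rw [hu b hb' hb]
    exact (hp b (ha.trans hb') _).trans (max_le h (le_max_right _ _))

theorem red_bw {f : ℕ → ℝ → ℝ} {j e1 : ℕ} (hp : Per f j e1) (hf : Full f j) {e : ℕ}
    (he : e1 ≤ e) : ∃ p0, ∀ p, p0 ≤ p → ∀ u, BSol f u e p → |u e| ≤ th j := by
  have key : ∀ i ≤ j + 1, ∀ e, e1 ≤ e → ∃ p0, ∀ p, p0 ≤ p → ∀ u, BSol f u e p →
      |u e| ≤ max (2 * th i) (th j) := by
    intro i
    induction i with
    | zero =>
      intro hi e he
      obtain ⟨q, h1, h2⟩ := ((hf 0 hi).and_eventually (eventually_ge_atTop e)).exists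
      refine ⟨q + 1, fun p hq u hu => pers_bw hp hu he h2 (by omega) (le_max_of_le_left ?_)⟩
      rw [hu q h2 hq]
      exact h1 _ (Or.inl rfl)
    | succ i ih =>
      intro hi e he
      obtain ⟨q, h1, h2⟩ := ((hf (i + 1) hi).and_eventually (eventually_ge_atTop e)).exists
      obtain ⟨p0, hp0⟩ := ih (by omega) (q + 1) (by omega)
      refine ⟨max p0 (q + 1), fun p hq u hu => ?_⟩
      have hq1 : q + 1 ≤ p := (le_max_right _ _).trans hq
      refine pers_bw hp hu he h2 (by omega) (le_max_of_le_left ?_)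
      rw [hu q h2 hq1]
      refine h1 _ (Or.inr ?_)
      exact (hp0 p ((le_max_left _ _).trans hq) u (hu.mono (by omega))).trans (level_le hi)
  obtain ⟨p0, h⟩ := key (j + 1) le_rfl e he
  exact ⟨p0, fun p hp u hu => (h p hp u hu).trans (level_last j)⟩

end Pool.Agent.Lib.MP_318f17_gt
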