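import Pool.Agent.Lib.MP_318f17_gt.Real

/-!
Norm preserving twists of the plane, gauges, and the step maps.
-/

set_option autoImplicit false

namespace Pool.Agent.Lib.MP_318f17_gt

open Filter Topology Set

/-- Interpolation between the identity and a quarter turn. -/
def rot (ε b : ℝ) (v : ℝ × ℝ) : ℝ × ℝ :=
  ((1 - b) * v.1 - ε * b * v.2, ε * b * v.1 + (1 - b) * v.2)

/-- The amount of turning at radius `N`; `c` says whether it is cut off at large radii. -/
noncomputable def bf (c : Bool) (N : ℝ) : ℝ :=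
  ramp 1 2 N * (if c then 1 - ramp 8 16 N else 1)

/-- The twist. -/
noncomputable def tw (ε : ℝ) (c : Bool) (A : ℝ) (v : ℝ × ℝ) : ℝ × ℝ :=
  (max ‖v‖ (1 / 2) / max ‖rot ε (A * bf c ‖v‖) v‖ (1 / 2)) • rot ε (A * bf c ‖v‖) v

theorem bf_nonneg (c : Bool) (N : ℝ) : 0 ≤ bf c N := by
  unfold bf
  have := ramp_le_one 8 16 N
  refine mul_nonneg (ramp_nonneg _ _ _) ?_
  split_ifs <;> linarith

theorem bf_le_one (c : Bool) (N : ℝ) : bf c N ≤ 1 := by
  unfold bf
  have := ramp_nonneg 8 16 N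
  have := ramp_le_one 8 16 N
  refine mul_le_one₀ (ramp_le_one _ _ _) ?_ ?_ <;> split_ifs <;> linarith

theorem bf_small (c : Bool) {N : ℝ} (h : N ≤ 1) : bf c N = 0 := by
  rw [bf, ramp_of_le one_lt_two h, zero_mul]

theorem bf_large {N : ℝ} (h : 16 ≤ N) : bf true N = 0 := by
  rw [bf, if_pos rfl, ramp_of_ge (by norm_num) h]; simp

theorem bf_full {c : Bool} {N : ℝ} (h : 2 ≤ N) (h' : c = true → N ≤ 8) : bf c N = 1 := by
  rw [bf, ramp_of_ge one_lt_two h]
  split_ifs with hc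
  · rw [ramp_of_le (by norm_num) (h' hc)]; simp
  · simp

theorem bf_lip (c : Bool) (N N' : ℝ) : |bf c N - bf c N'| ≤ 2 * |N - N'| := by
  have h1 := ramp_lip (a := 1) (b := 2) (by norm_num) N N'
  have h2 := ramp_lip (a := 8) (b := 16) (by norm_num) N N'
  unfold bf
  split_ifs
  · have e : ramp 1 2 N * (1 - ramp 8 16 N) - ramp 1 2 N' * (1 - ramp 8 16 N') =
        (ramp 1 2 N - ramp 1 2 N') * (1 - ramp 8 16 N) -
          ramp 1 2 N' * (ramp 8 16 N - ramp 8 16 N') := by ring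
    rw [e]
    refine (abs_sub _ _).trans ?_
    rw [abs_mul, abs_mul]
    have a1 : |1 - ramp 8 16 N| ≤ 1 := by
      have := ramp_nonneg 8 16 N
      have := ramp_le_one 8 16 N
      rw [abs_le]; constructor <;> linarith
    have a2 : |ramp 1 2 N'| ≤ 1 := by
      have := ramp_nonneg 1 2 N'
      have := ramp_le_one 1 2 N'
      rw [abs_le]; constructor <;> linarith
    have b1 := mul_le_mul h1 a1 (abs_nonneg _) (abs_nonneg _)
    have b2 := mul_le_mul a2 h2 (abs_nonneg _) zero_le_one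
    linarith
  · have := abs_nonneg (N - N')
    simp only [mul_one]
    linarith

theorem norm_eq (v : ℝ × ℝ) : ‖v‖ = max |v.1| |v.2| := rfl

theorem rot_zero (ε : ℝ) (v : ℝ × ℝ) : rot ε 0 v = v := by simp [rot]

theorem rot_smul (ε b t : ℝ) (v : ℝ × ℝ) : rot ε b (t • v) = t • rot ε b v := by
  ext <;> simp [rot] <;> ring

theorem rot_rot {ε : ℝ} (hε : ε ^ 2 = 1) (b : ℝ) (v : ℝ × ℝ) :
    rot (-ε) b (rot ε b v) = ((1 - b) ^ 2 + b ^ 2) • v := by
  ext
  · simp only [rot, Prod.smul_fst, smul_eq_mul]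
    linear_combination (b ^ 2 * v.1) * hε
  · simp only [rot, Prod.smul_snd, smul_eq_mul]
    linear_combination (b ^ 2 * v.2) * hε

theorem norm_rot_le {ε b : ℝ} (hε : ε ^ 2 = 1) (h0 : 0 ≤ b) (h1 : b ≤ 1) (v : ℝ × ℝ) :
    ‖rot ε b v‖ ≤ ‖v‖ := by
  have he : |ε| = 1 := by
    rcases sq_eq_one_iff.1 hε with h | h <;> simp [h]
  have a1 : |v.1| ≤ ‖v‖ := le_max_left _ _
  have a2 : |v.2| ≤ ‖v‖ := le_max_right _ _
  have b1 : 0 ≤ 1 - b := by linarith
  rw [norm_eq]
  refine max_le ?_ ?_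
  · refine (abs_sub _ _).trans ?_
    rw [abs_mul, abs_mul, abs_mul, he, abs_of_nonneg h0, abs_of_nonneg b1]
    nlinarith
  · refine (abs_add_le _ _).trans ?_
    rw [abs_mul, abs_mul, abs_mul, he, abs_of_nonneg h0, abs_of_nonneg b1]
    nlinarith

theorem norm_rot_ge {ε b : ℝ} (hε : ε ^ 2 = 1) (h0 : 0 ≤ b) (h1 : b ≤ 1) (v : ℝ × ℝ) :
    ‖v‖ / 2 ≤ ‖rot ε b v‖ := by
  have h := norm_rot_le (ε := -ε) (by simpa using hε) h0 h1 (rot ε b v)
  rw [rot_rot hε, norm_smul, Real.norm_eq_abs, abs_of_nonneg (by positivity)] at h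
  have := norm_nonneg v
  nlinarith [sq_nonneg (1 - 2 * b)]

theorem norm_rot_sub {ε : ℝ} (hε : ε ^ 2 = 1) (b b' : ℝ) (v : ℝ × ℝ) :
    ‖rot ε b v - rot ε b' v‖ ≤ 2 * (|b - b'| * ‖v‖) := by
  have he : |ε| = 1 := by
    rcases sq_eq_one_iff.1 hε with h | h <;> simp [h]
  have a1 : |v.1| ≤ ‖v‖ := le_max_left _ _
  have a2 : |v.2| ≤ ‖v‖ := le_max_right _ _
  have a3 := abs_nonneg (b - b')
  rw [norm_eq]
  refine max_le ?_ ?_
  · have : (rot ε b v - rot ε b' v).1 = -((b - b') * v.1) - ε * (b - b') * v.2 := by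
      simp only [rot, Prod.fst_sub]; ring
    rw [this]
    refine (abs_sub _ _).trans ?_
    rw [abs_neg, abs_mul, abs_mul, abs_mul, he]
    nlinarith
  · have : (rot ε b v - rot ε b' v).2 = ε * (b - b') * v.1 - (b - b') * v.2 := by
      simp only [rot, Prod.snd_sub]; ring
    rw [this]
    refine (abs_sub _ _).trans ?_
    rw [abs_mul, abs_mul, abs_mul, he]
    nlinarith

theorem rot_sub (ε b : ℝ) (v v' : ℝ × ℝ) : rot ε b v - rot ε b v' = rot ε b (v - v') := by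
  ext <;> simp [rot] <;> ring

theorem tw_id {ε : ℝ} {c : Bool} {A : ℝ} {v : ℝ × ℝ} (h : A * bf c ‖v‖ = 0) :
    tw ε c A v = v := by
  rw [tw, h, rot_zero, div_self (by positivity), one_smul]

section

variable {ε : ℝ} {c : Bool} {A : ℝ} (hε : ε ^ 2 = 1) (h0 : 0 ≤ A) (h1 : A ≤ 1)
include h0 in
theorem ab_nonneg (N : ℝ) : 0 ≤ A * bf c N := mul_nonneg h0 (bf_nonneg _ _)

include h1 in
theorem ab_le_one (N : ℝ) : A * bf c N ≤ 1 := mul_le_one₀ h1 (bf_nonneg _ _) (bf_le_one _ _)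

include hε h0 h1

theorem tw_big {v : ℝ × ℝ} (h : 1 ≤ ‖v‖) :
    tw ε c A v = (‖v‖ / ‖rot ε (A * bf c ‖v‖) v‖) • rot ε (A * bf c ‖v‖) v := by
  have := norm_rot_ge hε (ab_nonneg (c := c) h0 ‖v‖) (ab_le_one h1 ‖v‖) v
  rw [tw, max_eq_left (by linarith), max_eq_left (by linarith)]

theorem norm_tw (v : ℝ × ℝ) : ‖tw ε c A v‖ = ‖v‖ := by
  rcases le_total ‖v‖ 1 with h | h
  · rw [tw_id (by rw [bf_small c h, mul_zero])]
  · have := norm_rot_ge hε (ab_nonneg (c := c) h0 ‖v‖) (ab_le_one h1 ‖v‖) v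
    have h2 : 0 < ‖rot ε (A * bf c ‖v‖) v‖ := by linarith
    rw [tw_big hε h0 h1 h, norm_smul, Real.norm_eq_abs, abs_of_nonneg (by positivity)]
    field_simp

theorem tw_tw (v : ℝ × ℝ) : tw (-ε) c A (tw ε c A v) = v := by
  have hn := norm_tw (c := c) hε h0 h1 v
  rcases le_total ‖v‖ 1 with h | h
  · rw [tw_id (by rw [hn, bf_small c h, mul_zero]), tw_id (by rw [bf_small c h, mul_zero])]
  · have := norm_rot_ge hε (ab_nonneg (c := c) h0 ‖v‖) (ab_le_one h1 ‖v‖) v
    have h2 : 0 < ‖rot ε (A * bf c ‖v‖) v‖ := by linarith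
    rw [tw_big (ε := -ε) (by simpa using hε) h0 h1 (by rw [hn]; exact h), hn,
      tw_big hε h0 h1 h, rot_smul, rot_rot hε]
    generalize A * bf c ‖v‖ = b at *
    have h3 : 0 < (1 - b) ^ 2 + b ^ 2 := by nlinarith [sq_nonneg (1 - 2 * b)]
    rw [smul_smul (‖v‖ / ‖rot ε b v‖), smul_smul, norm_smul, Real.norm_eq_abs,
      abs_of_nonneg (by positivity)]
    have h4 : 0 < ‖v‖ := by linarith
    have : ‖v‖ / (‖v‖ / ‖rot ε b v‖ * ((1 - b) ^ 2 + b ^ 2) * ‖v‖) *
        (‖v‖ / ‖rot ε b v‖ * ((1 - b) ^ 2 + b ^ 2)) = 1 := by field_simp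
    rw [this, one_smul]

theorem tw_lip_aux {v v' : ℝ × ℝ} (h : ‖v'‖ ≤ ‖v‖) :
    ‖tw ε c A v - tw ε c A v'‖ ≤ 261 * ‖v - v'‖ := by
  have hd : |‖v‖ - ‖v'‖| ≤ ‖v - v'‖ := abs_norm_sub_norm_le _ _
  have hd0 := norm_nonneg (v - v')
  have hb : |A * bf c ‖v‖ - A * bf c ‖v'‖| * ‖v'‖ ≤ 32 * ‖v - v'‖ := by
    by_cases h16 : 16 ≤ ‖v'‖
    · have : bf c ‖v‖ = bf c ‖v'‖ := by
        cases c
        · rw [bf_full (by linarith) (by simp), bf_full (by linarith) (by simp)]
        · rw [bf_large h16, bf_large (by linarith)]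
      rw [this, sub_self, abs_zero, zero_mul]
      positivity
    · rw [← mul_sub, abs_mul, abs_of_nonneg h0]
      have a1 := bf_lip c ‖v‖ ‖v'‖
      have a2 : A * |bf c ‖v‖ - bf c ‖v'‖| ≤ 2 * ‖v - v'‖ := by
        have := abs_nonneg (bf c ‖v‖ - bf c ‖v'‖)
        nlinarith
      have := norm_nonneg v'
      nlinarith
  have hg := norm_rot_ge hε (ab_nonneg (c := c) h0 ‖v'‖) (ab_le_one h1 ‖v'‖) v'
  have hr : ‖rot ε (A * bf c ‖v‖) v - rot ε (A * bf c ‖v'‖) v'‖ ≤ 65 * ‖v - v'‖ := by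
    have a1 := norm_rot_le hε (ab_nonneg (c := c) h0 ‖v‖) (ab_le_one h1 ‖v‖) (v - v')
    have a2 := norm_rot_sub hε (A * bf c ‖v‖) (A * bf c ‖v'‖) v'
    rw [← rot_sub] at a1
    have := norm_sub_le_norm_sub_add_norm_sub (rot ε (A * bf c ‖v‖) v) (rot ε (A * bf c ‖v‖) v')
      (rot ε (A * bf c ‖v'‖) v')
    linarith
  unfold tw
  generalize rot ε (A * bf c ‖v‖) v = r at *
  generalize rot ε (A * bf c ‖v'‖) v' = r' at *
  have hp : |max ‖v‖ (1 / 2) - max ‖v'‖ (1 / 2)| ≤ ‖v - v'‖ :=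
    (abs_max_sub_max_le_abs _ _ _).trans hd
  have hq : |max ‖r'‖ (1 / 2) - max ‖r‖ (1 / 2)| ≤ 65 * ‖v - v'‖ := by
    rw [abs_sub_comm]
    exact (abs_max_sub_max_le_abs _ _ _).trans ((abs_norm_sub_norm_le _ _).trans hr)
  have hq1 : ‖r‖ ≤ max ‖r‖ (1 / 2) := le_max_left _ _
  have hq2 : max ‖v'‖ (1 / 2) ≤ 2 * max ‖r'‖ (1 / 2) := by
    refine max_le ?_ ?_
    · have := le_max_left ‖r'‖ (1 / 2); linarith
    · have := le_max_right ‖r'‖ (1 / 2); linarith
  have p0 : 0 < max ‖v'‖ (1 / 2) := by positivity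
  have q0 : 0 < max ‖r‖ (1 / 2) := by positivity
  have q0' : 0 < max ‖r'‖ (1 / 2) := by positivity
  generalize max ‖v‖ (1 / 2) = p at *
  generalize max ‖v'‖ (1 / 2) = p' at *
  generalize max ‖r‖ (1 / 2) = q at *
  generalize max ‖r'‖ (1 / 2) = q' at *
  have e : (p / q) • r - (p' / q') • r' =
      ((p - p') / q) • r + ((p' / q') * ((q' - q) / q)) • r + (p' / q') • (r - r') := by
    rw [smul_sub, ← add_sub_assoc, ← add_smul, ← add_smul]
    congr 2
    field_simp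
    ring
  have k1 : p' / q' ≤ 2 := by rw [div_le_iff₀ q0']; exact hq2
  have k0 : 0 ≤ p' / q' := by positivity
  have k2 : ‖r‖ / q ≤ 1 := by rw [div_le_one q0]; exact hq1
  have k3 : 0 ≤ ‖r‖ / q := by positivity
  have t1 : ‖((p - p') / q) • r‖ ≤ ‖v - v'‖ := by
    rw [norm_smul, Real.norm_eq_abs, abs_div, abs_of_pos q0, div_mul_eq_mul_div, mul_div_assoc]
    nlinarith [abs_nonneg (p - p')]
  have t2 : ‖((p' / q') * ((q' - q) / q)) • r‖ ≤ 130 * ‖v - v'‖ := by
    rw [norm_smul, Real.norm_eq_abs, abs_mul, abs_of_nonneg k0, abs_div, abs_of_pos q0, mul_assoc,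
      div_mul_eq_mul_div |q' - q|, mul_div_assoc]
    have : |q' - q| * (‖r‖ / q) ≤ 65 * ‖v - v'‖ := by nlinarith [abs_nonneg (q' - q)]
    have h5 : 0 ≤ |q' - q| * (‖r‖ / q) := by positivity
    nlinarith
  have t3 : ‖(p' / q') • (r - r')‖ ≤ 130 * ‖v - v'‖ := by
    rw [norm_smul, Real.norm_eq_abs, abs_of_nonneg k0]
    nlinarith [norm_nonneg (r - r')]
  rw [e]
  have := norm_add₃_le (a := ((p - p') / q) • r) (b := ((p' / q') * ((q' - q) / q)) • r)
    (c := (p' / q') • (r - r'))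
  linarith

theorem tw_lip (v v' : ℝ × ℝ) : ‖tw ε c A v - tw ε c A v'‖ ≤ 261 * ‖v - v'‖ := by
  rcases le_total ‖v'‖ ‖v‖ with h | h
  · exact tw_lip_aux hε h0 h1 h
  · rw [norm_sub_rev, norm_sub_rev v]
    exact tw_lip_aux hε h0 h1 h

end

theorem tw_full {ε : ℝ} (hε : ε ^ 2 = 1) {c : Bool} {v : ℝ × ℝ} (h : 2 ≤ ‖v‖)
    (h' : c = true → ‖v‖ ≤ 8) : tw ε c 1 v = (-ε * v.2, ε * v.1) := by
  have he : |ε| = 1 := by
    rcases sq_eq_one_iff.1 hε with h | h <;> simp [h]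
  have e : rot ε 1 v = (-ε * v.2, ε * v.1) := by simp [rot]
  have e2 : ‖rot ε 1 v‖ = ‖v‖ := by
    rw [e, norm_eq, norm_eq, abs_mul, abs_mul, abs_neg, he, one_mul, one_mul, max_comm]
  rw [tw, bf_full h h', one_mul, e2, div_self (by positivity), one_smul, e]

theorem continuous_tw (ε : ℝ) (c : Bool) :
    Continuous fun q : ℝ × (ℝ × ℝ) => tw ε c q.1 q.2 := by
  have hb : Continuous (bf c) := by
    unfold bf
    cases c <;> simp only [if_true, Bool.false_eq_true, if_false] <;> fun_prop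
  have hr : Continuous fun q : ℝ × (ℝ × ℝ) => rot ε (q.1 * bf c ‖q.2‖) q.2 := by
    unfold rot; fun_prop
  unfold tw
  have h1 : Continuous fun q : ℝ × (ℝ × ℝ) => max ‖q.2‖ (1 / 2) := by fun_prop
  have h2 : Continuous fun q : ℝ × (ℝ × ℝ) => max ‖rot ε (q.1 * bf c ‖q.2‖) q.2‖ (1 / 2) :=
    hr.norm.max continuous_const
  exact Continuous.smul (h1.div h2 fun q => by positivity) hr

/-- An odd increasing bi-Lipschitz change of scale. -/
structure Gauge where
  g : ℝ → ℝ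
  gi : ℝ → ℝ
  L : ℝ
  left : ∀ u, gi (g u) = u
  right : ∀ u, g (gi u) = u
  one_le : 1 ≤ L
  lip : ∀ u v, |g u - g v| ≤ L * |u - v|
  lipi : ∀ u v, |gi u - gi v| ≤ L * |u - v|
  mono : ∀ u v, |g u| ≤ |g v| ↔ |u| ≤ |v|

/-- The gauge function. -/
noncomputable def gfun (s c κ u : ℝ) : ℝ := s * u + c * clamp 2 (u / κ)

theorem clamp_mono (r : ℝ) : Monotone (clamp r) := fun _ _ h =>
  max_le_max le_rfl (min_le_min le_rfl h)

theorem clamp_neg {r : ℝ} (hr : 0 ≤ r) (u : ℝ) : clamp r (-u) = -clamp r u := by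
  unfold clamp
  simp only [max_def, min_def]
  split_ifs <;> linarith

theorem clamp_lip (r u v : ℝ) : |clamp r u - clamp r v| ≤ |u - v| := by
  unfold clamp
  have h1 := abs_max_sub_max_le_max (-r) (min r u) (-r) (min r v)
  have h2 := abs_min_sub_min_le_max r u r v
  simp only [sub_self, abs_zero] at h1 h2
  exact h1.trans (max_le (abs_nonneg _) (h2.trans (max_le (abs_nonneg _) le_rfl)))

theorem clamp_le {r : ℝ} (hr : 0 ≤ r) (u : ℝ) : clamp r u ≤ r :=
  max_le (by linarith) (min_le_left _ _)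

theorem le_clamp (r u : ℝ) : -r ≤ clamp r u := le_max_left _ _

section

variable {s c κ : ℝ} (hs : 0 < s) (hc : 0 ≤ c) (hκ : 0 < κ)
include hs hc hκ

omit hs in
theorem gfun_sub {u v : ℝ} (h : u ≤ v) : s * (v - u) ≤ gfun s c κ v - gfun s c κ u := by
  have := clamp_mono 2 (div_le_div_of_nonneg_right h hκ.le)
  unfold gfun
  nlinarith

theorem gfun_strictMono : StrictMono (gfun s c κ) := by
  intro u v h
  have := gfun_sub (s := s) hc hκ h.le
  nlinarith

omit hs hc hκ in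
theorem gfun_neg (u : ℝ) : gfun s c κ (-u) = -gfun s c κ u := by
  unfold gfun
  rw [neg_div, clamp_neg (by norm_num)]
  ring

theorem abs_gfun (u : ℝ) : |gfun s c κ u| = gfun s c κ |u| := by
  have h0 : gfun s c κ 0 = 0 := by
    have := gfun_neg (s := s) (c := c) (κ := κ) 0
    rw [neg_zero] at this
    linarith
  rcases le_total 0 u with h | h
  · rw [abs_of_nonneg h, abs_of_nonneg]
    rw [← h0]
    exact (gfun_strictMono hs hc hκ).monotone h
  · rw [abs_of_nonpos h, abs_of_nonpos, gfun_neg]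
    rw [← h0]
    exact (gfun_strictMono hs hc hκ).monotone h

omit hκ in
theorem gfun_surjective : Function.Surjective (gfun s c κ) := by
  intro v
  have hcont : Continuous (gfun s c κ) := by unfold gfun clamp; fun_prop
  refine intermediate_value_univ ((v - 2 * c) / s) ((v + 2 * c) / s) hcont ⟨?_, ?_⟩
  · unfold gfun
    have := clamp_le (r := 2) (by norm_num) ((v - 2 * c) / s / κ)
    rw [mul_div_cancel₀ _ hs.ne']
    nlinarith
  · unfold gfun
    have := le_clamp 2 ((v + 2 * c) / s / κ)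
    rw [mul_div_cancel₀ _ hs.ne']
    nlinarith

end

/-- The gauge with outer slope `s` and a steep part of width `κ`. -/
noncomputable def mkGauge (s c κ : ℝ) (hs : 0 < s) (hc : 0 ≤ c) (hκ : 0 < κ) : Gauge where
  g := gfun s c κ
  gi := Function.invFun (gfun s c κ)
  L := 1 + s + c / κ + 1 / s
  left := Function.leftInverse_invFun (gfun_strictMono hs hc hκ).injective
  right := Function.rightInverse_invFun (gfun_surjective hs hc)
  one_le := by
    have : 0 ≤ s + c / κ + 1 / s := by positivity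
    linarith
  lip u v := by
    have h1 := clamp_lip 2 (u / κ) (v / κ)
    rw [← sub_div, abs_div, abs_of_pos hκ] at h1
    have e : gfun s c κ u - gfun s c κ v =
        s * (u - v) + c * (clamp 2 (u / κ) - clamp 2 (v / κ)) := by unfold gfun; ring
    rw [e]
    refine (abs_add_le _ _).trans ?_
    rw [abs_mul, abs_mul, abs_of_pos hs, abs_of_nonneg hc]
    have h2 := mul_le_mul_of_nonneg_left h1 hc
    have h3 : c * (|u - v| / κ) = c / κ * |u - v| := by ring
    have h4 : 0 ≤ (1 + 1 / s) * |u - v| := by positivity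
    nlinarith
  lipi u v := by
    have hr := Function.rightInverse_invFun (gfun_surjective (κ := κ) hs hc)
    have key : ∀ a b, s * |a - b| ≤ |gfun s c κ a - gfun s c κ b| := by
      intro a b
      rcases le_total a b with h | h
      · rw [abs_sub_comm a, abs_sub_comm (gfun s c κ a), abs_of_nonneg (by linarith)]
        exact (gfun_sub (s := s) hc hκ h).trans (le_abs_self _)
      · rw [abs_of_nonneg (by linarith)]
        exact (gfun_sub (s := s) hc hκ h).trans (le_abs_self _)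
    have h1 := key (Function.invFun (gfun s c κ) u) (Function.invFun (gfun s c κ) v)
    rw [hr, hr] at h1
    have h2 : |Function.invFun (gfun s c κ) u - Function.invFun (gfun s c κ) v| ≤
        1 / s * |u - v| := by
      rw [one_div, ← div_eq_inv_mul, le_div_iff₀ hs]; linarith
    have h4 : 0 ≤ (1 + s + c / κ) * |u - v| := by positivity
    nlinarith
  mono u v := by
    rw [abs_gfun hs hc hκ, abs_gfun hs hc hκ]
    exact (gfun_strictMono hs hc hκ).le_iff_le

theorem continuous_of_lip {f : ℝ → ℝ} {L : ℝ} (h : ∀ u v, |f u - f v| ≤ L * |u - v|) :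
    Continuous f :=
  (LipschitzWith.of_dist_le' (K := L) fun u v => by
    simpa [Real.dist_eq] using h u v).continuous

/-- The step map acting on the carried value and the value of a site. -/
noncomputable def st (G : Gauge) (ε : ℝ) (c : Bool) (A : ℝ) (v : ℝ × ℝ) : ℝ × ℝ :=
  (G.gi (tw ε c A (G.g v.1, v.2)).1, (tw ε c A (G.g v.1, v.2)).2)

theorem continuous_st (G : Gauge) (ε : ℝ) (c : Bool) :
    Continuous fun q : ℝ × (ℝ × ℝ) => st G ε c q.1 q.2 := by
  have h1 := continuous_of_lip G.lip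
  have h2 := continuous_of_lip G.lipi
  have h3 : Continuous fun q : ℝ × (ℝ × ℝ) => tw ε c q.1 (G.g q.2.1, q.2.2) :=
    (continuous_tw ε c).comp (f := fun q : ℝ × (ℝ × ℝ) => (q.1, (G.g q.2.1, q.2.2))) (by fun_prop)
  exact (h2.comp h3.fst).prodMk h3.snd

theorem st_id {G : Gauge} {ε : ℝ} {c : Bool} {A u x : ℝ}
    (h : A * bf c (max |G.g u| |x|) = 0) : st G ε c A (u, x) = (u, x) := by
  unfold st
  rw [tw_id h]
  simp [G.left]

theorem st_full {G : Gauge} {ε : ℝ} (hε : ε ^ 2 = 1) {c : Bool} {u x : ℝ}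
    (h : 2 ≤ max |G.g u| |x|) (h' : c = true → max |G.g u| |x| ≤ 8) :
    st G ε c 1 (u, x) = (G.gi (-ε * x), ε * G.g u) := by
  unfold st
  rw [tw_full hε h h']

section

variable {G : Gauge} {ε : ℝ} {c : Bool} {A : ℝ} (hε : ε ^ 2 = 1) (h0 : 0 ≤ A) (h1 : A ≤ 1)
include hε h0 h1

theorem st_st (v : ℝ × ℝ) : st G (-ε) c A (st G ε c A v) = v := by
  unfold st
  simp only [G.right, Prod.mk.eta, tw_tw hε h0 h1, G.left]

theorem st_fst (u x : ℝ) : |G.g (st G ε c A (u, x)).1| ≤ max |G.g u| |x| := by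
  unfold st
  rw [G.right]
  exact (le_max_left _ _).trans (norm_tw (c := c) hε h0 h1 (G.g u, x)).le

theorem st_snd (u x : ℝ) : |(st G ε c A (u, x)).2| ≤ max |G.g u| |x| :=
  (le_max_right _ _).trans (norm_tw (c := c) hε h0 h1 (G.g u, x)).le

theorem st_lip (u u' x : ℝ) :
    |(st G ε c A (u, x)).1 - (st G ε c A (u', x)).1| ≤ 261 * G.L ^ 2 * |u - u'| := by
  have a1 := G.lipi (tw ε c A (G.g u, x)).1 (tw ε c A (G.g u', x)).1
  have a2 := tw_lip (c := c) hε h0 h1 (G.g u, x) (G.g u', x)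
  have a3 : ‖(G.g u, x) - (G.g u', x)‖ = |G.g u - G.g u'| := by simp
  have a4 : |(tw ε c A (G.g u, x)).1 - (tw ε c A (G.g u', x)).1| ≤
      ‖tw ε c A (G.g u, x) - tw ε c A (G.g u', x)‖ := le_max_left _ _
  have a5 := G.lip u u'
  have hL := G.one_le
  rw [a3] at a2
  have a6 : |(tw ε c A (G.g u, x)).1 - (tw ε c A (G.g u', x)).1| ≤ 261 * (G.L * |u - u'|) := by
    linarith
  refine a1.trans ((mul_le_mul_of_nonneg_left a6 (by linarith)).trans (le_of_eq (by ring)))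

end

end Pool.Agent.Lib.MP_318f17_gt
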